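import Pool.Agent.H48.PW.Defs
import Pool.Agent.H25.PT.Defs
import Pool.Agent.H48.PL.Glob
import Pool.Agent.H82.CM.LowK
import Pool.Agent.H15.AV.Defs

/-!
# Plane symmetric solutions, `1 + 2s < γ`, `γ + 2s < 2` (MP_c15324_an): definitions

`γ = 1 + a`, `2s < a`, `a + 2s < 1`. Paper: /team-store/h85_pfull_paper.md. `m` is the exponent of the density `XT a m V` (H48/PW/Defs), slightly larger
than `2s`; it is also the exponent of the touching condition (`op_w` with `WP s a m a`). `q` is the degree of the one-particle functional of block J.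
-/

set_option autoImplicit false

open MeasureTheory Set Filter Topology Pool.Agent.H25.Kin Pool.Agent.H48.PL Pool.Agent.H48.PI Pool.Agent.H48.PW
open Pool.Agent.H25.PT

namespace Pool.Agent.H85.UP

variable {d : ℕ}

/-- the conditions on the exponents -/
structure UE (s a m q : ℝ) : Prop where
  hs : 0 < s
  has : 2 * s < a
  ha1 : a + 2 * s < 1
  hm : 2 * s < m
  hma : m ≤ a
  hm1 : a + m < 1
  hmQ : m / (2 * s) * (1 + m) + a < 2
  hq : 1 < q
  hq2 : a + q ≤ 2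
  hq3 : q ≤ 3 / 2

lemma UE.wp {s a m q : ℝ} (U : UE s a m q) : WP s a m a where
  hs := U.hs
  ha := by have := U.hs; have := U.has; linarith
  hβ := U.hm
  haβ := U.hm1
  hβm := U.hma
  ham := le_rfl
  hm := by have := U.hs; have := U.ha1; linarith

/-- thin pairs: `|V_e| ≤ θ |V|` -/
def thinS (e : Fin d) (θ : ℝ) : Set (Vec d × Vec d) := {p | |p.1 e - p.2 e| ≤ θ * len (p.1 - p.2)}

/-- pairs of non comparable velocities -/
def ncS (η : ℝ) : Set (Vec d × Vec d) := {p | len p.1 ≤ η * len p.2 ∨ len p.2 ≤ η * len p.1}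

open Classical in
/-- the weight with respect to `|V|² R`: the density `dens 1 g p * zw p` is `g g_*` times `c |V|^(3+a) R^(q-2)` on thin pairs,
`c |V|^(1+a+q)` on the other non comparable pairs and `|V|² R` on the rest -/
noncomputable def zw (e : Fin d) (θ η a q : ℝ) (p : Vec d × Vec d) : ℝ :=
  if p ∈ thinS e θ then (len (p.1 - p.2) / (2 * RR p.1 p.2)) ^ (1 + a) * RR p.1 p.2 ^ (a + q - 2)
  else if p ∈ ncS η then (len (p.1 - p.2) / (2 * RR p.1 p.2)) ^ (a + q - 1) * RR p.1 p.2 ^ (a + q - 2)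
  else 1

/-- the kernel of the density `Z`, without `g g_*` -/
noncomputable def zd (e : Fin d) (θ η a q : ℝ) (p : Vec d × Vec d) : ℝ :=
  len (p.1 - p.2) ^ (2 : ℝ) * RR p.1 p.2 ^ (1 : ℝ) * zw e θ η a q p

/-- `Z_A(g) = ∫∫_A g g_* zd` -/
noncomputable def ZS (e : Fin d) (θ η a q : ℝ) (g : Vec d → ℝ) (A : Set (Vec d × Vec d)) : ℝ :=
  XG 1 (A.indicator (zw e θ η a q)) g

/-- `μ(v,w) = ⟨v⟩⟨w⟩/R(v,w)` -/
noncomputable def mu0 (v w : Vec d) : ℝ := jb v * jb w / RR v w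

/-- the antisymmetric weight `(v_e - w_e) μ(v,w)` -/
noncomputable def TG (e : Fin d) (v w : Vec d) : ℝ := (v e - w e) * mu0 v w

/-- the cut-off `(⟨w⟩²/(⟨v⟩²+⟨w⟩²))²` -/
noncomputable def omU (v w : Vec d) : ℝ := (jb w ^ 2 / RR v w ^ 2) ^ 2

/-- `x₀ = σ^(-1/(1-a))` -/
noncomputable def x0 (a sg : ℝ) : ℝ := sg ^ (-(1 / (1 - a)))

/-- the one-sided profile `σ x₊ + min(x₊^a, x₀^a)` -/
noncomputable def Hh (a sg x : ℝ) : ℝ := sg * max x 0 + min (max x 0 ^ a) (x0 a sg ^ a)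

/-- the one-sided weights -/
noncomputable def PP (e : Fin d) (a sg : ℝ) (v w : Vec d) : ℝ := omU v w * Hh a sg (v e - w e)

/-- the one-sided weights -/
noncomputable def PM (e : Fin d) (a sg : ℝ) (v w : Vec d) : ℝ := omU v w * Hh a sg (w e - v e)

/-- odd part -/
noncomputable def PO (e : Fin d) (a sg : ℝ) (v w : Vec d) : ℝ := PP e a sg v w - PM e a sg v w

/-- half of the even part -/
noncomputable def PE (e : Fin d) (a sg : ℝ) (v w : Vec d) : ℝ := (PP e a sg v w + PM e a sg v w) / 2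

/-- the tail property of the density `XT a m V`, with any rate -/
def TailR (d : ℕ) (a m : ℝ) (b : ℝ → ℝ) : Prop := ∀ (e : Fin d) (M : ℝ),
  ∃ r K : ℝ, 0 < r ∧ 0 ≤ K ∧ ∀ (T : ℝ) (f : ℝ → Vec d → Vec d → ℝ), IsBoltzmannSol (1 + a) b T f →
    Planar e T f → GB M (f 0) → ∀ V : ℝ, 1 ≤ V → ∀ t₀ t : ℝ, 0 < t₀ → t₀ ≤ t → t < T →
    ∫ τ in t₀..t, (∫ x, XT a m V (f τ x) ∂(muD d)) ≤
      K * (V ^ (-r) * (1 + (t - t₀)) + (Hs (f t₀) - Hs (f t)))

end Pool.Agent.H85.UP
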