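import Pool.Agent.H85.UP.Defs
import Pool.Agent.H25.PT.XWC

/-!
# Module GZd: the weight `zw` and the density `zd`

`L = len (v-w)`, `R = RR v w ≥ 1`, `L ≤ 2R`. `U : UE s a m q` gives `0 < a < 1`, `1 < q`, `a + q ≤ 2`.
* `zw_nonneg`, `zw_le_one`: the base `L/(2R)` is in `[0,1]`, the exponents `1+a`, `a+q-1` are `≥ 0`, `R^(a+q-2) ≤ 1`. `zw_meas`: `Measurable.ite`.
* `zd_thin`: `zd = 2^(-(1+a)) L^(3+a) R^(q-2)` (if `L = 0` both sides are `0`; else `rpow` algebra). `zd_nc`: `zd = 2^(-(a+q-1)) L^(1+a+q)`. `zd_G`: `zd = L² R`.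
* `zd_low`: `L^(3+a)/R ≤ 4 zd`. Thin: `R^(-1) ≤ R^(q-2)`, `2^(1+a) ≤ 4`. NC: `L^(3+a)/R = L^(1+a+q) L^(2-q)/R ≤ L^(1+a+q) 2^(2-q) R^(1-q) ≤ 2 L^(1+a+q)`, `2^(a+q-1) ≤ 2`. G: `L^(1+a)/R ≤ 2^(1+a) R^a ≤ 4 R`.
* `zd_far`: `R₁ < R`, `4 ≤ R₁`, `ι = min (q-1) (1-a)`. Thin: `L^(3+a)/R = 2^(1+a) R^(1-q) zd ≤ 4 R₁^(-ι) zd`. Not thin: `L^(2+a) ≤ 16 R₁^(-ι) zd`:
  NC (`η ≤ 1/2`, say `len v ≤ η len w`): `L ≥ len w - len v ≥ len w/2`, `R² = 2+nsq v+nsq w ≤ 2 + (5/4) nsq w`, `R ≥ 4` gives `nsq w ≥ 11`, `R² ≤ 3/2 nsq w ≤ 6L²`, so `L ≥ R/4`;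
  `L^(2+a) = L^(1+a+q) L^(1-q) ≤ L^(1+a+q) (R/4)^(1-q) ≤ 2 R^(1-q) L^(1+a+q) ≤ 4 R^(1-q) zd` (`4^(q-1) ≤ 2` since `q ≤ 3/2`). G: `L^(2+a) = L² L^a ≤ 2 L² R^a = 2 R^(a-1) zd`.
* `ZS_eq`, `ZS_nonneg`, `ZS_add`: `ZS A + ZS Aᶜ = ZS univ` (integrability of `dens 1 g` and `0 ≤ zw ≤ 1`), `ZS_integrable`.
-/

set_option autoImplicit false

open MeasureTheory Set Filter Topology Pool.Agent.H25.Kin Pool.Agent.H48.PL Pool.Agent.H25.PT

namespace Pool.Agent.H85.UP

variable {d : ℕ} {s a m q θ η : ℝ}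

private lemma len_sub_cont : Continuous fun p : Vec d × Vec d => len (p.1 - p.2) :=
  continuous_len.comp (continuous_fst.sub continuous_snd)

theorem thinS_meas (e : Fin d) (θ : ℝ) : MeasurableSet (thinS e θ) := by
  unfold thinS
  have h1 : Continuous fun p : Vec d × Vec d => |p.1 e - p.2 e| :=
    (((continuous_apply e).comp continuous_fst).sub ((continuous_apply e).comp continuous_snd)).abs
  exact (isClosed_le h1 (continuous_const.mul len_sub_cont)).measurableSet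

theorem ncS_meas (η : ℝ) : MeasurableSet (ncS (d := d) η) := by
  unfold ncS
  have h1 : Continuous fun p : Vec d × Vec d => len p.1 := continuous_len.comp continuous_fst
  have h2 : Continuous fun p : Vec d × Vec d => len p.2 := continuous_len.comp continuous_snd
  exact ((isClosed_le h1 (continuous_const.mul h2)).union
    (isClosed_le h2 (continuous_const.mul h1))).measurableSet

private lemma quo_meas (c : ℝ) : Measurable fun p : Vec d × Vec d =>
    (len (p.1 - p.2) / (2 * RR p.1 p.2)) ^ c :=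
  (len_sub_cont.measurable.div (RR_cont.measurable.const_mul 2)).pow_const c

private lemma rr_meas (c : ℝ) : Measurable fun p : Vec d × Vec d => RR p.1 p.2 ^ c :=
  RR_cont.measurable.pow_const c

theorem zw_meas (e : Fin d) (θ η a q : ℝ) : Measurable (zw e θ η a q) := by
  unfold zw
  exact Measurable.ite (thinS_meas e θ) ((quo_meas _).mul (rr_meas _))
    (Measurable.ite (ncS_meas η) ((quo_meas _).mul (rr_meas _)) measurable_const)

private lemma quo_nonneg (v w : Vec d) : 0 ≤ len (v - w) / (2 * RR v w) :=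
  div_nonneg (len_nonneg _) (by linarith [RR_pos v w])

private lemma quo_le_one (v w : Vec d) : len (v - w) / (2 * RR v w) ≤ 1 :=
  (div_le_one (by linarith [RR_pos v w])).2 (len_le_RR v w)

theorem zw_nonneg (e : Fin d) (θ η a q : ℝ) (p : Vec d × Vec d) : 0 ≤ zw e θ η a q p := by
  unfold zw
  have h1 := fun c : ℝ => Real.rpow_nonneg (quo_nonneg p.1 p.2) c
  have h2 := fun c : ℝ => Real.rpow_nonneg (RR_pos p.1 p.2).le c
  split_ifs
  · exact mul_nonneg (h1 _) (h2 _)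
  · exact mul_nonneg (h1 _) (h2 _)
  · exact zero_le_one

theorem zw_le_one (U : UE s a m q) (e : Fin d) (θ η : ℝ) (p : Vec d × Vec d) : zw e θ η a q p ≤ 1 := by
  have ha : 0 < a := by have := U.hs; have := U.has; linarith
  have hq := U.hq
  have hq2 := U.hq2
  unfold zw
  have h2 : RR p.1 p.2 ^ (a + q - 2) ≤ 1 :=
    Real.rpow_le_one_of_one_le_of_nonpos (one_le_RR p.1 p.2) (by linarith)
  have h2' := Real.rpow_nonneg (RR_pos p.1 p.2).le (a + q - 2)
  have h1 : ∀ c : ℝ, 0 ≤ c → (len (p.1 - p.2) / (2 * RR p.1 p.2)) ^ c ≤ 1 := fun c hc =>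
    Real.rpow_le_one (quo_nonneg p.1 p.2) (quo_le_one p.1 p.2) hc
  split_ifs
  · exact mul_le_one₀ (h1 _ (by linarith)) h2' h2
  · exact mul_le_one₀ (h1 _ (by linarith)) h2' h2
  · exact le_rfl

theorem zd_nonneg (e : Fin d) (θ η a q : ℝ) (p : Vec d × Vec d) : 0 ≤ zd e θ η a q p := by
  unfold zd
  exact mul_nonneg (mul_nonneg (Real.rpow_nonneg (len_nonneg _) _)
    (Real.rpow_nonneg (RR_pos p.1 p.2).le _)) (zw_nonneg e θ η a q p)

/-- powers of the quotient -/
private lemma quo_rpow (v w : Vec d) (c : ℝ) :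
    (len (v - w) / (2 * RR v w)) ^ c = 2 ^ (-c) * (len (v - w) ^ c * RR v w ^ (-c)) := by
  have hR := RR_pos v w
  rw [Real.div_rpow (len_nonneg _) (by linarith), Real.mul_rpow zero_le_two hR.le,
    Real.rpow_neg zero_le_two, Real.rpow_neg hR.le]
  field_simp

theorem zd_thin (U : UE s a m q) (e : Fin d) (η : ℝ) {p : Vec d × Vec d} (hp : p ∈ thinS e θ) :
    zd e θ η a q p = 2 ^ (-(1 + a)) * (len (p.1 - p.2) ^ (3 + a) * RR p.1 p.2 ^ (q - 2)) := by
  have ha : 0 < a := by have := U.hs; have := U.has; linarith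
  have hR := RR_pos p.1 p.2
  unfold zd zw
  rw [if_pos hp, quo_rpow]
  have h1 : len (p.1 - p.2) ^ (3 + a) = len (p.1 - p.2) ^ (2 : ℝ) * len (p.1 - p.2) ^ (1 + a) := by
    rw [← Real.rpow_add_of_nonneg (len_nonneg _) (by norm_num) (by linarith)]
    congr 1
    ring
  have h2 : RR p.1 p.2 ^ (q - 2) =
      RR p.1 p.2 ^ (1 : ℝ) * RR p.1 p.2 ^ (-(1 + a)) * RR p.1 p.2 ^ (a + q - 2) := by
    rw [← Real.rpow_add hR, ← Real.rpow_add hR]
    congr 1
    ring
  rw [h1, h2]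
  ring

theorem zd_nc (U : UE s a m q) (e : Fin d) {p : Vec d × Vec d} (hp : p ∉ thinS e θ) (hp2 : p ∈ ncS η) :
    zd e θ η a q p = 2 ^ (-(a + q - 1)) * len (p.1 - p.2) ^ (1 + a + q) := by
  have ha : 0 < a := by have := U.hs; have := U.has; linarith
  have hq := U.hq
  have hR := RR_pos p.1 p.2
  unfold zd zw
  rw [if_neg hp, if_pos hp2, quo_rpow]
  have h1 : len (p.1 - p.2) ^ (1 + a + q) =
      len (p.1 - p.2) ^ (2 : ℝ) * len (p.1 - p.2) ^ (a + q - 1) := by
    rw [← Real.rpow_add_of_nonneg (len_nonneg _) (by norm_num) (by linarith)]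
    congr 1
    ring
  have h2 : (1 : ℝ) =
      RR p.1 p.2 ^ (1 : ℝ) * RR p.1 p.2 ^ (-(a + q - 1)) * RR p.1 p.2 ^ (a + q - 2) := by
    rw [← Real.rpow_add hR, ← Real.rpow_add hR]
    have : (1 : ℝ) + -(a + q - 1) + (a + q - 2) = 0 := by ring
    rw [this, Real.rpow_zero]
  rw [h1]
  calc len (p.1 - p.2) ^ (2 : ℝ) * RR p.1 p.2 ^ (1 : ℝ) *
        (2 ^ (-(a + q - 1)) * (len (p.1 - p.2) ^ (a + q - 1) * RR p.1 p.2 ^ (-(a + q - 1))) *
          RR p.1 p.2 ^ (a + q - 2))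
      = 2 ^ (-(a + q - 1)) * (len (p.1 - p.2) ^ (2 : ℝ) * len (p.1 - p.2) ^ (a + q - 1)) *
        (RR p.1 p.2 ^ (1 : ℝ) * RR p.1 p.2 ^ (-(a + q - 1)) * RR p.1 p.2 ^ (a + q - 2)) := by ring
    _ = _ := by rw [← h2, mul_one]

theorem zd_G (e : Fin d) (a q : ℝ) {p : Vec d × Vec d} (hp : p ∉ thinS e θ ∪ ncS η) :
    zd e θ η a q p = len (p.1 - p.2) ^ 2 * RR p.1 p.2 := by
  rw [mem_union, not_or] at hp
  unfold zd zw
  rw [if_neg hp.1, if_neg hp.2, mul_one, Real.rpow_one, Real.rpow_two]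

private lemma two_pow_le {c : ℝ} (hc : c ≤ 1) : (2 : ℝ) ^ c ≤ 2 := by
  calc (2 : ℝ) ^ c ≤ 2 ^ (1 : ℝ) := Real.rpow_le_rpow_of_exponent_le one_le_two hc
    _ = 2 := Real.rpow_one 2

private lemma two_pow_mul (c : ℝ) : (2 : ℝ) ^ c * 2 ^ (-c) = 1 := by
  rw [← Real.rpow_add zero_lt_two, add_neg_cancel, Real.rpow_zero]

theorem zd_low (U : UE s a m q) (e : Fin d) (θ η : ℝ) (p : Vec d × Vec d) :
    len (p.1 - p.2) ^ (3 + a) / RR p.1 p.2 ≤ 4 * zd e θ η a q p := by
  have ha : 0 < a := by have := U.hs; have := U.has; linarith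
  have ha1 : a < 1 := by have := U.hs; have := U.ha1; linarith
  have hq := U.hq
  have hq2 := U.hq2
  have hR := RR_pos p.1 p.2
  have hR1 := one_le_RR p.1 p.2
  have hL := len_nonneg (p.1 - p.2)
  have hLR := len_le_RR p.1 p.2
  set L := len (p.1 - p.2) with hLdef
  set R := RR p.1 p.2 with hRdef
  by_cases h1 : p ∈ thinS e θ
  · rw [zd_thin U e η h1, ← hLdef, ← hRdef]
    have e1 : R⁻¹ ≤ R ^ (q - 2) := by
      rw [← Real.rpow_neg_one]
      exact Real.rpow_le_rpow_of_exponent_le hR1 (by linarith)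
    have e2 : 1 ≤ 4 * (2 : ℝ) ^ (-(1 + a)) := by
      have e3 : (2 : ℝ) ^ (-(2 : ℝ)) ≤ 2 ^ (-(1 + a)) :=
        Real.rpow_le_rpow_of_exponent_le one_le_two (by linarith)
      have e4 : (2 : ℝ) ^ (-(2 : ℝ)) = 1 / 4 := by
        rw [Real.rpow_neg zero_le_two, Real.rpow_two]; norm_num
      rw [e4] at e3
      linarith
    have hLp := Real.rpow_nonneg hL (3 + a)
    have hRp := Real.rpow_nonneg hR.le (q - 2)
    calc L ^ (3 + a) / R = L ^ (3 + a) * R⁻¹ := div_eq_mul_inv _ _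
      _ ≤ L ^ (3 + a) * R ^ (q - 2) := mul_le_mul_of_nonneg_left e1 hLp
      _ = 1 * (L ^ (3 + a) * R ^ (q - 2)) := (one_mul _).symm
      _ ≤ 4 * (2 : ℝ) ^ (-(1 + a)) * (L ^ (3 + a) * R ^ (q - 2)) :=
          mul_le_mul_of_nonneg_right e2 (mul_nonneg hLp hRp)
      _ = _ := by ring
  by_cases h2 : p ∈ ncS η
  · rw [zd_nc U e h1 h2, ← hLdef]
    have e1 : L ^ (3 + a) = L ^ (1 + a + q) * L ^ (2 - q) := by
      rw [← Real.rpow_add_of_nonneg hL (by linarith) (by linarith)]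
      congr 1
      ring
    have e2 : L ^ (2 - q) ≤ 2 * R := by
      calc L ^ (2 - q) ≤ (2 * R) ^ (2 - q) := Real.rpow_le_rpow hL hLR (by linarith)
        _ ≤ (2 * R) ^ (1 : ℝ) := Real.rpow_le_rpow_of_exponent_le (by linarith) (by linarith)
        _ = 2 * R := Real.rpow_one _
    have e3 : 2 ≤ 4 * (2 : ℝ) ^ (-(a + q - 1)) := by
      have e4 : (2 : ℝ) ^ (-(1 : ℝ)) ≤ 2 ^ (-(a + q - 1)) :=
        Real.rpow_le_rpow_of_exponent_le one_le_two (by linarith)
      rw [Real.rpow_neg_one] at e4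
      linarith
    have hLp := Real.rpow_nonneg hL (1 + a + q)
    calc L ^ (3 + a) / R = L ^ (1 + a + q) * (L ^ (2 - q) / R) := by rw [e1, mul_div_assoc]
      _ ≤ L ^ (1 + a + q) * 2 := by
          refine mul_le_mul_of_nonneg_left ?_ hLp
          rw [div_le_iff₀ hR]
          exact e2
      _ ≤ L ^ (1 + a + q) * (4 * (2 : ℝ) ^ (-(a + q - 1))) := mul_le_mul_of_nonneg_left e3 hLp
      _ = _ := by ring
  · rw [zd_G e a q (by rw [mem_union, not_or]; exact ⟨h1, h2⟩), ← hLdef, ← hRdef]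
    have e1 : L ^ (3 + a) = L ^ 2 * L ^ (1 + a) := by
      rw [← Real.rpow_two, ← Real.rpow_add_of_nonneg hL (by norm_num) (by linarith)]
      congr 1
      ring
    have e2 : L ^ (1 + a) ≤ 4 * R ^ 2 := by
      calc L ^ (1 + a) ≤ (2 * R) ^ (1 + a) := Real.rpow_le_rpow hL hLR (by linarith)
        _ ≤ (2 * R) ^ (2 : ℝ) := Real.rpow_le_rpow_of_exponent_le (by linarith) (by linarith)
        _ = 4 * R ^ 2 := by rw [Real.rpow_two]; ring
    rw [e1, div_le_iff₀ hR]
    calc L ^ 2 * L ^ (1 + a) ≤ L ^ 2 * (4 * R ^ 2) := mul_le_mul_of_nonneg_left e2 (by positivity)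
      _ = 4 * (L ^ 2 * R) * R := by ring

/-- non comparable velocities of large size have a large difference -/
private lemma nc_big (hη1 : η ≤ 1 / 2) {v w : Vec d} (h : len v ≤ η * len w) (hR : 4 < RR v w) :
    RR v w / 4 ≤ len (v - w) := by
  have hv := len_nonneg v
  have hw := len_nonneg w
  have h1 : len v ≤ 1 / 2 * len w := h.trans (mul_le_mul_of_nonneg_right hη1 hw)
  have h2 := len_le_add_sub w v
  rw [len_comm w v] at h2
  have h3 : 1 / 2 * len w ≤ len (v - w) := by linarith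
  have h4 : RR v w ^ 2 = 2 + len v ^ 2 + len w ^ 2 := by
    rw [RR_sq, jb_sq, jb_sq, len_sq, len_sq]; ring
  have h5 : len v ^ 2 ≤ (1 / 2 * len w) ^ 2 := pow_le_pow_left₀ hv h1 2
  have h6 : (1 / 2 * len w) ^ 2 ≤ len (v - w) ^ 2 := pow_le_pow_left₀ (by positivity) h3 2
  have h7 : (4 : ℝ) ^ 2 ≤ RR v w ^ 2 := pow_le_pow_left₀ (by norm_num) hR.le 2
  refine abs_le_of_sq_le_sq' ?_ (len_nonneg _) |>.2
  nlinarith

theorem zd_far (U : UE s a m q) (e : Fin d) (θ : ℝ) (hη : 0 < η) (hη1 : η ≤ 1 / 2) {R₁ : ℝ} (hR : 4 ≤ R₁)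
    {p : Vec d × Vec d} (hp : R₁ < RR p.1 p.2) :
    (p ∈ thinS e θ → len (p.1 - p.2) ^ (3 + a) / RR p.1 p.2 ≤ 16 * (R₁ ^ (-(min (q - 1) (1 - a))) * zd e θ η a q p)) ∧
    (p ∉ thinS e θ → len (p.1 - p.2) ^ (2 + a) ≤ 16 * (R₁ ^ (-(min (q - 1) (1 - a))) * zd e θ η a q p)) := by
  have _ := hη
  have ha : 0 < a := by have := U.hs; have := U.has; linarith
  have ha1 : a < 1 := by have := U.hs; have := U.ha1; linarith
  have hq := U.hq
  have hq2 := U.hq2
  have hq3 := U.hq3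
  have hR0 := RR_pos p.1 p.2
  have hR1 := one_le_RR p.1 p.2
  have hL := len_nonneg (p.1 - p.2)
  have hLR := len_le_RR p.1 p.2
  have hz := zd_nonneg e θ η a q p
  have hι0 : 0 < min (q - 1) (1 - a) := lt_min (by linarith) (by linarith)
  have hpow : ∀ c : ℝ, min (q - 1) (1 - a) ≤ c → RR p.1 p.2 ^ (-c) ≤ R₁ ^ (-(min (q - 1) (1 - a))) := by
    intro c hc
    calc RR p.1 p.2 ^ (-c) ≤ RR p.1 p.2 ^ (-(min (q - 1) (1 - a))) :=
          Real.rpow_le_rpow_of_exponent_le hR1 (by linarith)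
      _ ≤ R₁ ^ (-(min (q - 1) (1 - a))) :=
          Real.rpow_le_rpow_of_nonpos (by linarith) hp.le (by linarith)
  have hι1 := min_le_left (q - 1) (1 - a)
  have hι2 := min_le_right (q - 1) (1 - a)
  set L := len (p.1 - p.2) with hLdef
  set R := RR p.1 p.2 with hRdef
  set Z := zd e θ η a q p with hZdef
  set P := R₁ ^ (-(min (q - 1) (1 - a))) with hPdef
  have hP0 : 0 ≤ P := Real.rpow_nonneg (by linarith) _
  have hPZ : 0 ≤ P * Z := mul_nonneg hP0 hz
  have e1 := hpow (q - 1) hι1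
  have e2 := hpow (1 - a) hι2
  refine ⟨fun ht => ?_, fun ht => ?_⟩
  · have h3 := zd_thin U e η ht
    rw [← hLdef, ← hRdef, ← hZdef] at h3
    have h4 : L ^ (3 + a) / R = 2 ^ (1 + a) * (R ^ (-(q - 1)) * Z) := by
      rw [h3]
      have h5 : R ^ (-(q - 1)) * R ^ (q - 2) = R⁻¹ := by
        rw [← Real.rpow_add hR0, ← Real.rpow_neg_one]
        congr 1
        ring
      calc L ^ (3 + a) / R = L ^ (3 + a) * R⁻¹ := div_eq_mul_inv _ _
        _ = L ^ (3 + a) * (R ^ (-(q - 1)) * R ^ (q - 2)) * (2 ^ (1 + a) * 2 ^ (-(1 + a))) := by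
            rw [h5, two_pow_mul, mul_one]
        _ = _ := by ring
    rw [h4]
    have h5 : (2 : ℝ) ^ (1 + a) ≤ 4 := by
      calc (2 : ℝ) ^ (1 + a) ≤ 2 ^ (2 : ℝ) := Real.rpow_le_rpow_of_exponent_le one_le_two (by linarith)
        _ = 4 := by rw [Real.rpow_two]; norm_num
    calc (2 : ℝ) ^ (1 + a) * (R ^ (-(q - 1)) * Z) ≤ 4 * (P * Z) :=
          mul_le_mul h5 (mul_le_mul_of_nonneg_right e1 hz)
            (mul_nonneg (Real.rpow_nonneg hR0.le _) hz) (by norm_num)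
      _ ≤ 16 * (P * Z) := by linarith
  · by_cases h2 : p ∈ ncS η
    · have h3 := zd_nc U e ht h2
      rw [← hLdef, ← hZdef] at h3
      have hbig : R / 4 ≤ L := by
        rcases h2 with h | h
        · exact nc_big hη1 h (by linarith)
        · have h4 := nc_big hη1 h (by rw [RR_comm]; linarith)
          rw [RR_comm, len_comm] at h4
          exact h4
      have hLp : 0 < L := lt_of_lt_of_le (by linarith) hbig
      have h4 : L ^ (2 + a) = L ^ (1 + a + q) * L ^ (-(q - 1)) := by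
        rw [← Real.rpow_add hLp]
        congr 1
        ring
      have h5 : L ^ (-(q - 1)) ≤ 2 * P := by
        calc L ^ (-(q - 1)) ≤ (R / 4) ^ (-(q - 1)) :=
              Real.rpow_le_rpow_of_nonpos (by linarith) hbig (by linarith)
          _ = (4 : ℝ) ^ (q - 1) * R ^ (-(q - 1)) := by
              rw [Real.div_rpow hR0.le (by norm_num), Real.rpow_neg (by norm_num : (0 : ℝ) ≤ 4) (q - 1),
                div_inv_eq_mul]
              ring
          _ ≤ 2 * P := by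
              refine mul_le_mul ?_ e1 (Real.rpow_nonneg hR0.le _) zero_le_two
              calc (4 : ℝ) ^ (q - 1) ≤ 4 ^ (1 / 2 : ℝ) :=
                    Real.rpow_le_rpow_of_exponent_le (by norm_num) (by linarith)
                _ = 2 := by
                    rw [← Real.sqrt_eq_rpow]
                    rw [show (4 : ℝ) = 2 ^ 2 by norm_num]
                    exact Real.sqrt_sq zero_le_two
      have h6 : L ^ (1 + a + q) ≤ 2 * Z := by
        have h7 : L ^ (1 + a + q) = 2 ^ (a + q - 1) * Z := by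
          rw [h3, ← mul_assoc, two_pow_mul, one_mul]
        rw [h7]
        exact mul_le_mul_of_nonneg_right (two_pow_le (by linarith)) hz
      rw [h4]
      calc L ^ (1 + a + q) * L ^ (-(q - 1)) ≤ (2 * Z) * (2 * P) :=
            mul_le_mul h6 h5 (Real.rpow_nonneg hL _) (by linarith)
        _ ≤ 16 * (P * Z) := by nlinarith
    · have h3 := zd_G e a q (θ := θ) (η := η) (p := p) (by rw [mem_union, not_or]; exact ⟨ht, h2⟩)
      rw [← hLdef, ← hRdef, ← hZdef] at h3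
      have h4 : L ^ (2 + a) = L ^ 2 * L ^ a := by
        rw [← Real.rpow_two, ← Real.rpow_add_of_nonneg hL (by norm_num) ha.le]
      have h5 : L ^ a ≤ 2 * (R * P) := by
        calc L ^ a ≤ (2 * R) ^ a := Real.rpow_le_rpow hL hLR ha.le
          _ = 2 ^ a * (R * R ^ (-(1 - a))) := by
              rw [Real.mul_rpow zero_le_two hR0.le]
              congr 1
              rw [← Real.rpow_one_add' hR0.le (by linarith)]
              congr 1
              ring
          _ ≤ 2 * (R * P) :=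
              mul_le_mul (two_pow_le ha1.le) (mul_le_mul_of_nonneg_left e2 hR0.le)
                (mul_nonneg hR0.le (Real.rpow_nonneg hR0.le _)) zero_le_two
      rw [h4]
      calc L ^ 2 * L ^ a ≤ L ^ 2 * (2 * (R * P)) := mul_le_mul_of_nonneg_left h5 (by positivity)
        _ = 2 * (P * Z) := by rw [h3]; ring
        _ ≤ 16 * (P * Z) := by linarith

private lemma dens_zw (e : Fin d) (θ η a q : ℝ) (g : Vec d → ℝ) (p : Vec d × Vec d) :
    dens 1 g p * zw e θ η a q p = g p.1 * g p.2 * zd e θ η a q p := by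
  unfold dens zd
  rw [show (1 : ℝ) + 1 = 2 by norm_num]
  ring

theorem ZS_eq (e : Fin d) (θ η a q : ℝ) (g : Vec d → ℝ) :
    ZS e θ η a q g univ = ∫ p, g p.1 * g p.2 * zd e θ η a q p := by
  unfold ZS XG
  refine integral_congr_ae (Eventually.of_forall fun p => ?_)
  show dens 1 g p * univ.indicator (zw e θ η a q) p = _
  rw [indicator_univ, dens_zw]

theorem ZS_int (U : UE s a m q) (e : Fin d) (θ η : ℝ) {g : Vec d → ℝ} (hg : RD g) (hgc : Continuous g) :
    Integrable fun p : Vec d × Vec d => g p.1 * g p.2 * zd e θ η a q p := by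
  have h := dens_integrable (a := 1) zero_le_one le_rfl hg hgc
  have h1 : (fun p : Vec d × Vec d => g p.1 * g p.2 * zd e θ η a q p) =
      fun p => dens 1 g p * zw e θ η a q p := by
    funext p
    exact (dens_zw e θ η a q g p).symm
  rw [h1]
  refine h.mono (h.aestronglyMeasurable.mul (zw_meas e θ η a q).aestronglyMeasurable)
    (Eventually.of_forall fun p => ?_)
  rw [norm_mul]
  refine mul_le_of_le_one_right (norm_nonneg _) ?_
  rw [Real.norm_eq_abs, abs_of_nonneg (zw_nonneg e θ η a q p)]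
  exact zw_le_one U e θ η p

theorem ZS_nonneg (e : Fin d) (θ η a q : ℝ) {g : Vec d → ℝ} (hg0 : ∀ v, 0 ≤ g v) (A : Set (Vec d × Vec d)) :
    0 ≤ ZS e θ η a q g A := by
  unfold ZS XG
  refine integral_nonneg fun p => mul_nonneg (dens_nonneg hg0 p) ?_
  exact indicator_nonneg (fun p _ => zw_nonneg e θ η a q p) p

theorem ZS_add (U : UE s a m q) (e : Fin d) (θ η : ℝ) {g : Vec d → ℝ} (hg : RD g) (hgc : Continuous g)
    (hg0 : ∀ v, 0 ≤ g v) {A : Set (Vec d × Vec d)} (hA : MeasurableSet A) :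
    ZS e θ η a q g A + ZS e θ η a q g Aᶜ = ZS e θ η a q g univ := by
  have _ := hg0
  have h : ∀ B : Set (Vec d × Vec d), MeasurableSet B →
      ZS e θ η a q g B = ∫ p in B, g p.1 * g p.2 * zd e θ η a q p := by
    intro B hB
    unfold ZS XG
    rw [← integral_indicator hB]
    refine integral_congr_ae (Eventually.of_forall fun p => ?_)
    show dens 1 g p * B.indicator (zw e θ η a q) p = _
    by_cases hp : p ∈ B
    · rw [indicator_of_mem hp, indicator_of_mem hp, dens_zw]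
    · rw [indicator_of_notMem hp, indicator_of_notMem hp, mul_zero]
  rw [h A hA, h Aᶜ hA.compl, ZS_eq]
  exact integral_add_compl hA (ZS_int U e θ η hg hgc)

end Pool.Agent.H85.UP
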