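import Pool.Agent.H85.UP.FAin
import Pool.Agent.H85.UP.GZd
import Pool.Agent.H15.AV.Defs
import Pool.Agent.H48.PW.XTc

/-!
# Module FErr: the one-sided error (`err_one` of Blk)

`L = len (v-w)`, `ψ = z PO u + PE u = (1/2+z)(sg farF 1 + neaF 1) + (1/2-z)(sg farF (-1) + neaF (-1))` (`psi_eq`, `PP_eq`, `PM_eq`), coefficients in `[0,1]`.
* `ainc_one`: `ainc` is linear in the test function (the four pieces are continuous in `σ` and `kerB` times a bounded function is integrable, `inner_integrable`). `p = (v,w)`, `R₁ < RR p`: thin: `ainc farF ≥ -K L^(3+a)/RR ≥ -16 K R₁^(-ι) zd`; not thin: `ainc farF ≥ -K L^(2+a) ≥ -16 K R₁^(-ι) zd` (`zd_far`, `θ ≤ θ₁`);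
  near: `|ainc| ≤ K x0^a L^(1+a) L^m ≤ K x0^a L^(1+a) jb (v-w)^m`.
* `err_oneG`: `boltz_weak_tendsto` and `weak_pair` (PL/WkI, `UNice` gives `Nice` and `0 ≤ g`): `∫ boltzQ g ψ = lim_{ε'→0} (1/2)∫∫ g g_* ainc_{ε'} ψ`; the pair integral is `∫_{RR ≤ R₁} + ∫_{RR > R₁}`. First: hypothesis `hlow` (with `A₁ = 14R₁ + 6x0^a`, `psi_hol`, `psi_pg`) is `≥ -(K₁/ε Dn + ε K₁ XT₁ + η')` eventually.
  Second (`ε' ≤ ε₀`): `≥ -(1/2) K ∫∫ g g_* (R₁^(-ι) zd + 1_{RR > R₁} L^(1+a) jb(v-w)^m) ≥ -K (R₁^(-ι) ZS univ + XT a m R₁ g)`: `om m R₁ (RR) = min 1 (RR/R₁)^(4-m) = 1` for `RR > R₁`, and the integrand of `XT` is `≥ 0` (integrability of the `XT` density: see the lemmas about `XT` in H87 or H48/PW; `jb(v-w)^m ≤ (2RR)^m`, rapid decay).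
  Conclude with `ge_of_tendsto`.
-/

set_option autoImplicit false

open MeasureTheory Set Filter Topology Pool.Agent.H25.Kin Pool.Agent.H82.BK Pool.Agent.H82.CM
open Pool.Agent.H48.PL Pool.Agent.H48.PI Pool.Agent.H48.PW
open Pool.Agent.H15.AV (UNice gau)

namespace Pool.Agent.H85.UP

variable {d : ℕ} {s a m q C Ca cb : ℝ} {b : ℝ → ℝ}

private lemma fe_compact : IsCompact {σ : Vec d | nsq σ = 1} := by
  refine (isCompact_closedBall (0 : Vec d) 1).of_isClosed_subset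
    (isClosed_eq continuous_sq continuous_const) (fun σ hσ => ?_)
  rw [mem_closedBall_zero_iff]
  refine (norm_le_len σ).trans (le_of_eq ?_)
  unfold len
  rw [show nsq σ = 1 from hσ, Real.sqrt_one]

private lemma fe_int {γ : ℝ} (H : Hyp d γ s b C Ca) {ε : ℝ} (hε : 0 < ε) {φ : Vec d → ℝ}
    (hφ : Continuous φ) (v w : Vec d) :
    Integrable (fun σ => kerB γ b ε v w σ * (φ (post v w σ) + φ (post' v w σ) - φ v - φ w)) (surf d) := by
  have hF : Continuous fun σ : Vec d => φ (post v w σ) + φ (post' v w σ) - φ v - φ w := by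
    have h1 : Continuous fun σ : Vec d => post v w σ :=
      continuous_post.comp (continuous_const.prodMk (continuous_const.prodMk continuous_id))
    have h2 : Continuous fun σ : Vec d => post' v w σ :=
      continuous_post'.comp (continuous_const.prodMk (continuous_const.prodMk continuous_id))
    exact (((hφ.comp h1).add (hφ.comp h2)).sub continuous_const).sub continuous_const
  obtain ⟨F0, hF0⟩ := (fe_compact (d := d)).exists_bound_of_continuousOn hF.continuousOn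
  exact inner_integrable H.bm H.bd H.β0 hε hF.measurable (F0 := F0) (fun σ hσ => hF0 σ hσ)

private lemma fe_add {γ : ℝ} (H : Hyp d γ s b C Ca) {ε : ℝ} (hε : 0 < ε) {φ₁ φ₂ : Vec d → ℝ}
    (h₁ : Continuous φ₁) (h₂ : Continuous φ₂) (x y : ℝ) (v w : Vec d) :
    ainc γ b ε (fun u => x * φ₁ u + y * φ₂ u) v w = x * ainc γ b ε φ₁ v w + y * ainc γ b ε φ₂ v w := by
  unfold ainc
  rw [← integral_const_mul, ← integral_const_mul, ← integral_add
    ((fe_int H hε h₁ v w).const_mul x) ((fe_int H hε h₂ v w).const_mul y)]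
  refine integral_congr_ae (Eventually.of_forall fun σ => ?_)
  simp only
  ring

/-- linearity for the test function `ψ` -/
private lemma fe_lin (H : Hyp d (1 + a) s b C Ca) (U : UE s a m q) {ε : ℝ} (hε : 0 < ε) (e : Fin d)
    (sg z : ℝ) (u v w : Vec d) :
    ainc (1 + a) b ε (fun w' => z * PO e a sg u w' + PE e a sg u w') v w =
      (1 / 2 + z) * (sg * ainc (1 + a) b ε (farF 1 e u) v w + ainc (1 + a) b ε (neaF 1 a sg e u) v w) +
      (1 / 2 - z) * (sg * ainc (1 + a) b ε (farF (-1) e u) v w +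
        ainc (1 + a) b ε (neaF (-1) a sg e u) v w) := by
  have ha : 0 < a := by have := U.hs; have := U.has; linarith
  have c1 : Continuous (PP e a sg u) := by
    have : PP e a sg u = fun w => sg * farF 1 e u w + neaF 1 a sg e u w :=
      funext fun w => PP_eq e a sg u w
    rw [this]
    exact (continuous_const.mul (far_cont 1 e u)).add (nea_cont ha 1 sg e u)
  have c2 : Continuous (PM e a sg u) := by
    have : PM e a sg u = fun w => sg * farF (-1) e u w + neaF (-1) a sg e u w :=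
      funext fun w => PM_eq e a sg u w
    rw [this]
    exact (continuous_const.mul (far_cont (-1) e u)).add (nea_cont ha (-1) sg e u)
  have e0 : (fun w' => z * PO e a sg u w' + PE e a sg u w') =
      fun w' => (1 / 2 + z) * PP e a sg u w' + (1 / 2 - z) * PM e a sg u w' :=
    funext fun w' => psi_eq e a sg z u w'
  have e1 : PP e a sg u = fun w' => sg * farF 1 e u w' + 1 * neaF 1 a sg e u w' :=
    funext fun w' => by rw [PP_eq, one_mul]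
  have e2 : PM e a sg u = fun w' => sg * farF (-1) e u w' + 1 * neaF (-1) a sg e u w' :=
    funext fun w' => by rw [PM_eq, one_mul]
  rw [e0, fe_add H hε c1 c2]
  rw [e1, e2, fe_add H hε (far_cont 1 e u) (nea_cont ha 1 sg e u),
    fe_add H hε (far_cont (-1) e u) (nea_cont ha (-1) sg e u), one_mul, one_mul]

private lemma fe_comb {z sg F1 F2 N1 N2 X N : ℝ} (hz : |z| ≤ 1 / 2) (hsg : 0 < sg) (hsg1 : sg ≤ 1)
    (hX : 0 ≤ X) (h1 : -X ≤ F1) (h2 : -X ≤ F2) (n1 : |N1| ≤ N) (n2 : |N2| ≤ N) :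
    -(X + N) ≤ (1 / 2 + z) * (sg * F1 + N1) + (1 / 2 - z) * (sg * F2 + N2) := by
  obtain ⟨z1, z2⟩ := abs_le.1 hz
  have a1 : 0 ≤ 1 / 2 + z := by linarith
  have a2 : 0 ≤ 1 / 2 - z := by linarith
  have b1 : -(X + N) ≤ sg * F1 + N1 := by
    have t1 : sg * (-X) ≤ sg * F1 := mul_le_mul_of_nonneg_left h1 hsg.le
    have t2 : sg * X ≤ 1 * X := mul_le_mul_of_nonneg_right hsg1 hX
    have t3 := (abs_le.1 n1).1
    linarith
  have b2 : -(X + N) ≤ sg * F2 + N2 := by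
    have t1 : sg * (-X) ≤ sg * F2 := mul_le_mul_of_nonneg_left h2 hsg.le
    have t2 : sg * X ≤ 1 * X := mul_le_mul_of_nonneg_right hsg1 hX
    have t3 := (abs_le.1 n2).1
    linarith
  have c1 := mul_le_mul_of_nonneg_left b1 a1
  have c2 := mul_le_mul_of_nonneg_left b2 a2
  nlinarith

theorem ainc_one (HL : HypL d (1 + a) s b C Ca cb) (U : UE s a m q) (e : Fin d) :
    ∃ θ₁ ε₀ : ℝ, 0 < θ₁ ∧ 0 < ε₀ ∧ ∀ θ η : ℝ, 0 < θ → θ ≤ θ₁ → 0 < η → η ≤ 1 / 2 → ∀ sg : ℝ, 0 < sg → sg ≤ 1 →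
    ∃ K : ℝ, 0 ≤ K ∧ ∀ R₁ : ℝ, 4 ≤ R₁ → ∀ z : ℝ, |z| ≤ 1 / 2 → ∀ ε : ℝ, 0 < ε → ε ≤ ε₀ →
      ∀ u v w : Vec d, v ≠ w → R₁ < RR v w →
      -(K * (R₁ ^ (-(min (q - 1) (1 - a))) * zd e θ η a q (v, w) + len (v - w) ^ (1 + a) * jb (v - w) ^ m)) ≤
        ainc (1 + a) b ε (fun w' => z * PO e a sg u w' + PE e a sg u w') v w := by
  obtain ⟨θ₁, ε₀, K₁, hθ₁, hε₀, hK₁, hfar⟩ := ainc_far HL U e
  obtain ⟨K₂, hK₂, hnea⟩ := ainc_nea HL U e
  refine ⟨θ₁, ε₀, hθ₁, hε₀, fun θ η hθ hθ1 hη hη1 sg hsg hsg1 => ?_⟩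
  have hx0 : 0 ≤ x0 a sg ^ a := by
    unfold x0
    positivity
  refine ⟨16 * K₁ + K₂ * x0 a sg ^ a, by positivity, fun R₁ hR z hz ε hε hε1 u v w hvw hRR => ?_⟩
  obtain ⟨zf1, zf2⟩ := zd_far U e θ hη hη1 hR (p := (v, w)) hRR
  have hzd : 0 ≤ zd e θ η a q (v, w) := zd_nonneg e θ η a q (v, w)
  have hR1 : 0 ≤ R₁ ^ (-(min (q - 1) (1 - a))) := Real.rpow_nonneg (by linarith) _
  set Z : ℝ := R₁ ^ (-(min (q - 1) (1 - a))) * zd e θ η a q (v, w) with hZ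
  have hZ0 : 0 ≤ Z := mul_nonneg hR1 hzd
  have hX : ∀ ς : ℝ, ς = 1 ∨ ς = -1 → -(K₁ * (16 * Z)) ≤ ainc (1 + a) b ε (farF ς e u) v w := by
    intro ς hς
    obtain ⟨f1, f2⟩ := hfar ς hς ε hε hε1 u v w hvw
    by_cases hp : (v, w) ∈ thinS e θ
    · have h1 : |v e - w e| ≤ θ₁ * len (v - w) := by
        have h2 : |v e - w e| ≤ θ * len (v - w) := hp
        exact h2.trans (mul_le_mul_of_nonneg_right hθ1 (len_nonneg _))
      have h3 := mul_le_mul_of_nonneg_left (zf1 hp) hK₁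
      have h4 := f2 h1
      linarith
    · have h3 := mul_le_mul_of_nonneg_left (zf2 hp) hK₁
      linarith
  have hlen : len (v - w) ^ m ≤ jb (v - w) ^ m :=
    Real.rpow_le_rpow (len_nonneg _) (len_le_jb _) (by have := U.hs; have := U.hm; linarith)
  have hN : ∀ ς : ℝ, ς = 1 ∨ ς = -1 → |ainc (1 + a) b ε (neaF ς a sg e u) v w| ≤
      K₂ * x0 a sg ^ a * (len (v - w) ^ (1 + a) * jb (v - w) ^ m) := by
    intro ς hς
    refine (hnea ς hς sg hsg hsg1 ε hε u v w hvw).trans ?_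
    refine mul_le_mul_of_nonneg_left ?_ (by positivity)
    exact mul_le_mul_of_nonneg_left hlen (Real.rpow_nonneg (len_nonneg _) _)
  rw [fe_lin HL.H U hε e sg z u v w]
  refine le_trans ?_ (fe_comb hz hsg hsg1 (by positivity) (hX 1 (Or.inl rfl)) (hX (-1) (Or.inr rfl))
    (hN 1 (Or.inl rfl)) (hN (-1) (Or.inr rfl)))
  have hW : 0 ≤ len (v - w) ^ (1 + a) * jb (v - w) ^ m :=
    mul_nonneg (Real.rpow_nonneg (len_nonneg _) _) (Real.rpow_nonneg (jb_pos _).le _)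
  have t1 : 0 ≤ K₁ * (len (v - w) ^ (1 + a) * jb (v - w) ^ m) := mul_nonneg hK₁ hW
  have t2 : 0 ≤ K₂ * x0 a sg ^ a * Z := mul_nonneg (by positivity) hZ0
  nlinarith

private lemma fe_ne (hd : 1 ≤ d) : ∀ᵐ p ∂(volume : Measure (Vec d × Vec d)), p.1 ≠ p.2 := by
  have hne : Nonempty (Fin d) := ⟨⟨0, by omega⟩⟩
  have hs : MeasurableSet {p : Vec d × Vec d | p.1 ≠ p.2} :=
    (isClosed_eq continuous_fst continuous_snd).measurableSet.compl
  refine (Measure.ae_prod_iff_ae_ae hs).2 (Eventually.of_forall fun v => ?_)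
  have : (volume : Measure (Vec d)) {v} = 0 := measure_singleton v
  filter_upwards [compl_mem_ae_iff.2 this] with w hw h
  exact hw h.symm

theorem err_oneG (HL : HypL d (1 + a) s b C Ca cb) (U : UE s a m q) (e : Fin d)
    (hlow : ∀ R₁ A₁ : ℝ, 1 ≤ R₁ → 0 ≤ A₁ → ∃ K₁ : ℝ, 0 ≤ K₁ ∧ ∀ ε : ℝ, 0 < ε → ε ≤ 1 →
      ∀ (Cl : ℕ → ℝ), ∀ η > 0, ∃ δ₀ > 0, ∀ δ ∈ Ioc (0 : ℝ) δ₀, ∀ g : Vec d → ℝ, UNice Cl g →
      ∀ ψ : Vec d → ℝ, Measurable ψ → PG ψ →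
      (∀ w w', jb w ≤ R₁ → jb w' ≤ R₁ → |ψ w - ψ w'| ≤ A₁ * len (w - w') ^ m) →
      ∀ᶠ ε' in 𝓝[>] (0 : ℝ),
      |(1 / 2) * ∫ p in {p : Vec d × Vec d | RR p.1 p.2 ≤ R₁}, g p.1 * g p.2 * ainc (1 + a) b ε' ψ p.1 p.2| ≤
        K₁ / ε * Dn (1 + a) b δ g + ε * K₁ * XT a m 1 g + η) :
    ∃ θ₁ : ℝ, 0 < θ₁ ∧ ∀ θ η : ℝ, 0 < θ → θ ≤ θ₁ → 0 < η → η ≤ 1 / 2 → ∀ sg : ℝ, 0 < sg → sg ≤ 1 →
    ∃ K : ℝ, 0 ≤ K ∧ ∀ R₁ : ℝ, 4 ≤ R₁ → ∃ K₁ : ℝ, 0 ≤ K₁ ∧ ∀ ε : ℝ, 0 < ε → ε ≤ 1 →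
      ∀ (Cl : ℕ → ℝ), ∀ η' > 0, ∃ δ₀ > 0, ∀ δ ∈ Ioc (0 : ℝ) δ₀, ∀ g : Vec d → ℝ, UNice Cl g →
      ∀ v : Vec d, ∀ z : ℝ, |z| ≤ 1 / 2 →
      -(K₁ / ε * Dn (1 + a) b δ g + ε * K₁ * XT a m 1 g +
        K * (R₁ ^ (-(min (q - 1) (1 - a))) * ZS e θ η a q g univ + XT a m R₁ g) + η') ≤
        ∫ w, boltzQ (1 + a) b g w * (z * PO e a sg v w + PE e a sg v w) := by
  have hs := U.hs
  have hm := U.hm
  have has := U.has
  have ha : 0 < a := by linarith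
  have ha1 : a < 1 := by linarith [U.ha1]
  have hm0 : 0 < m := by linarith
  have hm1 : m ≤ 1 := by linarith [U.hm1]
  obtain ⟨θ₁, ε₀, hθ₁, hε₀, hone⟩ := ainc_one HL U e
  refine ⟨θ₁, hθ₁, fun θ η hθ hθ1 hη hη1 sg hsg hsg1 => ?_⟩
  obtain ⟨K, hK, hone⟩ := hone θ η hθ hθ1 hη hη1 sg hsg hsg1
  have hx0 : 0 ≤ x0 a sg ^ a := by
    unfold x0
    positivity
  refine ⟨K, hK, fun R₁ hR => ?_⟩
  have hR0 : 0 < R₁ := by linarith
  obtain ⟨K₁, hK₁, hlow⟩ := hlow R₁ (14 * R₁ + 6 * x0 a sg ^ a) (by linarith) (by positivity)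
  refine ⟨K₁, hK₁, fun ε hε hε1 Cl η' hη' => ?_⟩
  obtain ⟨δ₀, hδ₀, hlow⟩ := hlow ε hε hε1 Cl η' hη'
  refine ⟨δ₀, hδ₀, fun δ hδ g hg v z hz => ?_⟩
  obtain ⟨ψ, hψ⟩ : ∃ ψ : Vec d → ℝ, ψ = fun w => z * PO e a sg v w + PE e a sg v w := ⟨_, rfl⟩
  obtain ⟨hψPG, hψc⟩ := psi_pg U e hsg hsg1 z v
  rw [← hψ] at hψPG hψc
  have hlow := hlow δ hδ g hg ψ hψc.measurable hψPG (fun w w' hw hw' => by
    rw [hψ]
    exact psi_hol U e hsg hsg1 hz v (by linarith) hw hw')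
  have hgr : RD g := hg.nice.rd
  have hgc : Continuous g := hg.nice.cont
  have hg0 := hg.nonneg
  -- the density of the second part
  obtain ⟨L, hL⟩ : ∃ L : Vec d × Vec d → ℝ, L = fun p => R₁ ^ (-(min (q - 1) (1 - a))) *
    (g p.1 * g p.2 * zd e θ η a q p) + g p.1 * g p.2 * (len (p.1 - p.2) ^ (1 + a) * jb (p.1 - p.2) ^ m) *
      om m R₁ (RR p.1 p.2) := ⟨_, rfl⟩
  have iL : Integrable L := by
    rw [hL]
    exact ((ZS_int U e θ η hgr hgc).const_mul _).add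
      (XT_integrable ha.le ha1.le hm0.le hm1 hR0 hgr hgc)
  have eL : ∫ p, L p = R₁ ^ (-(min (q - 1) (1 - a))) * ZS e θ η a q g univ + XT a m R₁ g := by
    rw [hL, integral_add ((ZS_int U e θ η hgr hgc).const_mul _)
      (XT_integrable ha.le ha1.le hm0.le hm1 hR0 hgr hgc), integral_const_mul, ← ZS_eq]
    rfl
  have hLn : ∀ p, 0 ≤ L p := by
    intro p
    have h1 : 0 ≤ g p.1 * g p.2 := mul_nonneg (hg0 _) (hg0 _)
    rw [hL]
    simp only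
    have h2 := zd_nonneg e θ η a q p
    have h3 : 0 ≤ len (p.1 - p.2) ^ (1 + a) * jb (p.1 - p.2) ^ m :=
      mul_nonneg (Real.rpow_nonneg (len_nonneg _) _) (Real.rpow_nonneg (jb_pos _).le _)
    have h4 : 0 ≤ om m R₁ (RR p.1 p.2) := om_nonneg hR0 (RR_pos _ _).le
    have h5 : 0 ≤ R₁ ^ (-(min (q - 1) (1 - a))) := Real.rpow_nonneg hR0.le _
    exact add_nonneg (mul_nonneg h5 (mul_nonneg h1 h2)) (mul_nonneg (mul_nonneg h1 h3) h4)
  have hom : ∀ p : Vec d × Vec d, R₁ < RR p.1 p.2 → om m R₁ (RR p.1 p.2) = 1 := by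
    intro p hp
    unfold om
    rw [min_eq_left ((one_le_div hR0).2 hp.le), Real.one_rpow]
  have key : ∀ᶠ ε' in 𝓝[>] (0 : ℝ), -(K₁ / ε * Dn (1 + a) b δ g + ε * K₁ * XT a m 1 g +
      K * (R₁ ^ (-(min (q - 1) (1 - a))) * ZS e θ η a q g univ + XT a m R₁ g) + η') ≤
      ∫ w, boltzCut (1 + a) b ε' g w * ψ w := by
    filter_upwards [hlow, Ioc_mem_nhdsGT hε₀] with ε' hl hε'
    obtain ⟨i1, e1⟩ := weak_pair HL.H hε'.1 hgr hgc hψPG hψc.measurable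
    rw [e1]
    have hS : MeasurableSet {p : Vec d × Vec d | RR p.1 p.2 ≤ R₁} :=
      (isClosed_le RR_cont continuous_const).measurableSet
    have e2 := integral_add_compl hS i1
    have h1 := (abs_le.1 hl).1
    have h2 : -(K * ∫ p, L p) ≤ ∫ p in {p : Vec d × Vec d | RR p.1 p.2 ≤ R₁}ᶜ,
        g p.1 * g p.2 * ainc (1 + a) b ε' ψ p.1 p.2 := by
      have h3 : ∫ p in {p : Vec d × Vec d | RR p.1 p.2 ≤ R₁}ᶜ, -(K * L p) ≤
          ∫ p in {p : Vec d × Vec d | RR p.1 p.2 ≤ R₁}ᶜ,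
            g p.1 * g p.2 * ainc (1 + a) b ε' ψ p.1 p.2 := by
        refine setIntegral_mono_on_ae ((iL.const_mul K).neg.integrableOn) i1.integrableOn hS.compl ?_
        filter_upwards [fe_ne HL.H.hd1] with p hp hpS
        have hpR : R₁ < RR p.1 p.2 := not_le.1 hpS
        have h4 := hone R₁ hR z hz ε' hε'.1 hε'.2 v p.1 p.2 hp hpR
        rw [← hψ] at h4
        have h5 := mul_le_mul_of_nonneg_left h4 (mul_nonneg (hg0 p.1) (hg0 p.2))
        refine le_trans (le_of_eq ?_) h5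
        rw [hL]
        simp only
        rw [hom p hpR]
        ring
      have h6 : ∫ p in {p : Vec d × Vec d | RR p.1 p.2 ≤ R₁}ᶜ, K * L p ≤ K * ∫ p, L p := by
        rw [← integral_const_mul]
        exact setIntegral_le_integral (iL.const_mul K)
          (Eventually.of_forall fun p => mul_nonneg hK (hLn p))
      rw [integral_neg] at h3
      linarith
    have h7 : 0 ≤ ∫ p, L p := integral_nonneg hLn
    have h8 : 0 ≤ K * ∫ p, L p := mul_nonneg hK h7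
    rw [← eL]
    rw [← e2]
    have h9 : (1 / 2 : ℝ) * ((∫ p in {p : Vec d × Vec d | RR p.1 p.2 ≤ R₁},
        g p.1 * g p.2 * ainc (1 + a) b ε' ψ p.1 p.2) +
        ∫ p in {p : Vec d × Vec d | RR p.1 p.2 ≤ R₁}ᶜ, g p.1 * g p.2 * ainc (1 + a) b ε' ψ p.1 p.2) =
        (1 / 2) * (∫ p in {p : Vec d × Vec d | RR p.1 p.2 ≤ R₁},
          g p.1 * g p.2 * ainc (1 + a) b ε' ψ p.1 p.2) +
        (1 / 2) * ∫ p in {p : Vec d × Vec d | RR p.1 p.2 ≤ R₁}ᶜ,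
          g p.1 * g p.2 * ainc (1 + a) b ε' ψ p.1 p.2 := by ring
    rw [h9]
    linarith
  have hlim := boltz_weak_tendsto HL.H hg.nice hψPG hψc.measurable
  have hfin := ge_of_tendsto hlim key
  rw [hψ] at hfin
  exact hfin

end Pool.Agent.H85.UP
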