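import Pool.Agent.H85.UP.GClo
import Pool.Agent.H85.UP.FErr
import Pool.Agent.H85.UT.UClo
import Pool.Agent.H15.UP.J3
import Pool.Agent.H87.PG.Fin

/-!
# Module Blk: the blocks of P-UP, as used by the assembly (block E)

Block J: H15/UP. Block G: module GClo. Block T: H85/UT. Block F: module FErr. Blocks R', H': H87/PG.
Paper: /team-store/h85_pfull_paper.md
-/

set_option autoImplicit false

open MeasureTheory Set Filter Topology Pool.Agent.H25.Kin Pool.Agent.H82.BK Pool.Agent.H82.CM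
open Pool.Agent.H48.PL Pool.Agent.H48.PI Pool.Agent.H48.PW
open Pool.Agent.H15.AV (UNice gau)

namespace Pool.Agent.H85.UP

variable {d : ℕ} {s a m q C Ca cb : ℝ} {b : ℝ → ℝ}

/-- block J: the one-particle functional -/
theorem j_time (HL : HypL d (1 + a) s b C Ca cb) (h1 : 2 * s < a) (h2 : a + 2 * s < 1) (e : Fin d) :
    ∃ q₀ : ℝ, 1 < q₀ ∧ ∀ q : ℝ, 1 < q → q ≤ q₀ → a + q ≤ 2 → ∃ θ₀ η : ℝ, 0 < θ₀ ∧ 0 < η ∧ η ≤ 1 / 2 ∧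
    ∀ θ : ℝ, 0 < θ → θ ≤ θ₀ → ∃ c K : ℝ, 0 < c ∧ 0 ≤ K ∧
    ∀ (M T : ℝ) (f : ℝ → Vec d → Vec d → ℝ), IsBoltzmannSol (1 + a) b T f → GB M (f 0) →
      ∀ r t : ℝ, 0 < r → r ≤ t → t < T →
      c * ∫ τ in r..t, (∫ x, ZS e θ η a q (f τ x) (thinS e θ ∪ ncS η) ∂(muD d)) ≤
        K * M + K * ∫ τ in r..t, (∫ x, ZS e θ η a q (f τ x) (thinS e θ ∪ ncS η)ᶜ ∂(muD d)) :=
  Pool.Agent.H15.UP.j_time HL h1 h2 e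

/-- block G: closure of the functional `Z` -/
theorem z_time (HL : HypL d (1 + a) s b C Ca cb) (U : UE s a m q) (e : Fin d) {θ η c K : ℝ}
    (hθ : 0 < θ) (hη : 0 < η) (hη1 : η ≤ 1 / 2) (hc : 0 < c) (hK : 0 ≤ K)
    (hJ : ∀ (M T : ℝ) (f : ℝ → Vec d → Vec d → ℝ), IsBoltzmannSol (1 + a) b T f → GB M (f 0) →
      ∀ r t : ℝ, 0 < r → r ≤ t → t < T →
      c * ∫ τ in r..t, (∫ x, ZS e θ η a q (f τ x) (thinS e θ ∪ ncS η) ∂(muD d)) ≤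
        K * M + K * ∫ τ in r..t, (∫ x, ZS e θ η a q (f τ x) (thinS e θ ∪ ncS η)ᶜ ∂(muD d)))
    (M : ℝ) : ∃ K' : ℝ, 0 ≤ K' ∧ ∀ (T : ℝ) (f : ℝ → Vec d → Vec d → ℝ), IsBoltzmannSol (1 + a) b T f →
      Planar e T f → GB M (f 0) → ∀ r t : ℝ, 0 < r → r ≤ t → t < T →
      ∫ τ in r..t, (∫ x, ZS e θ η a q (f τ x) univ ∂(muD d)) ≤ K' * (1 + (t - r)) :=
  z_timeG HL U e hθ hη hη1 hc hK hJ M

/-- block T -/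
theorem tail_r (HL : HypL d (1 + a) s b C Ca cb) (U : UE s a m q) : TailR d a m b :=
  Pool.Agent.H85.UT.tail_rG HL U

/-- block F: the one-sided error; `θ` small, any `η`; `K` does not depend on `R₁` -/
theorem err_one (HL : HypL d (1 + a) s b C Ca cb) (U : UE s a m q) (e : Fin d) :
    ∃ θ₁ : ℝ, 0 < θ₁ ∧ ∀ θ η : ℝ, 0 < θ → θ ≤ θ₁ → 0 < η → η ≤ 1 / 2 → ∀ sg : ℝ, 0 < sg → sg ≤ 1 →
    ∃ K : ℝ, 0 ≤ K ∧ ∀ R₁ : ℝ, 4 ≤ R₁ → ∃ K₁ : ℝ, 0 ≤ K₁ ∧ ∀ ε : ℝ, 0 < ε → ε ≤ 1 →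
      ∀ (Cl : ℕ → ℝ), ∀ η' > 0, ∃ δ₀ > 0, ∀ δ ∈ Ioc (0 : ℝ) δ₀, ∀ g : Vec d → ℝ, UNice Cl g →
      ∀ v : Vec d, ∀ z : ℝ, |z| ≤ 1 / 2 →
      -(K₁ / ε * Dn (1 + a) b δ g + ε * K₁ * XT a m 1 g +
        K * (R₁ ^ (-(min (q - 1) (1 - a))) * ZS e θ η a q g univ + XT a m R₁ g) + η') ≤
        ∫ w, boltzQ (1 + a) b g w * (z * PO e a sg v w + PE e a sg v w) := by
  refine err_oneG HL U e fun R₁ A₁ hR₁ hA₁ => ?_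
  obtain ⟨K₁, hK₁, h⟩ := Pool.Agent.H87.PG.err_low HL U R₁ A₁ hR₁ hA₁
  refine ⟨K₁, hK₁, fun ε hε hε1 Cl η hη => ?_⟩
  obtain ⟨δ₀, hδ₀, h1⟩ := h ε hε hε1 Cl η hη
  refine ⟨δ₀, hδ₀, fun δ hδ g hg ψ hψ hψ2 hψ3 => ?_⟩
  filter_upwards [h1 δ hδ g hg] with ε' h2
  exact h2 ψ hψ hψ2 hψ3

/-- block R': renormalized Hölder test functions -/
theorem err_ren2 (HL : HypL d (1 + a) s b C Ca cb) (U : UE s a m q) :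
    ∃ K : ℝ, 0 ≤ K ∧ ∀ ε : ℝ, 0 < ε → ε ≤ 1 → ∀ (A₁ C₀ : ℝ) (Cl : ℕ → ℝ), 0 < C₀ → ∀ η > 0,
      ∃ δ₀ > 0, ∀ δ ∈ Ioc (0 : ℝ) δ₀, ∀ g : Vec d → ℝ, UNice Cl g →
      ∀ A : ℝ, 0 ≤ A → A ≤ A₁ → ∀ ψ : Vec d → ℝ, Measurable ψ → (∀ w, |ψ w| ≤ A) →
      (∀ w w', |ψ w - ψ w'| ≤ A * len (w - w') ^ m) →
      |∫ w, bet' C₀ (g w) * boltzQ (1 + a) b g w * ψ w| ≤
        A * ((1 / ε + K) * Dn (1 + a) b δ g + ε * K * XT a m 1 g) + η :=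
  Pool.Agent.H87.PG.err_ren2 HL U

end Pool.Agent.H85.UP
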