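import Pool.Agent.H85.UP.GCol
import Pool.Agent.H48.PL.Rot
import Pool.Agent.H48.PL.Ang
import Pool.Agent.H82.CM.LowK

/-!
# Module FKl (LEMMA K): the convex kink gains on thin pairs, for every kernel

`L = len (v-w) > 0`, `n = dirk v w` the direction of `v-w` (unit), `v_e-w_e = L n_e`, `post_e - post'_e = L σ_e` (`col_diff`), `x = cosTh v w σ = dot n σ`, `y = 1 - x`.
CLAIM. `θ₁` small: `|v_e-w_e| ≤ θ₁ L` implies `∫ kerB (max X (L|σ_e|) - max X (L|n_e|)) dσ ≥ 0` for all `X ≥ 0`.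
Proof. If `X ≥ L|n_e|` the integrand is `≥ 0`. If `X < L|n_e|` the integrand is `≥ L(|σ_e| - |n_e|)`, so it suffices that `∫ kerB (|σ_e| - |n_e|) ≥ 0`.
`inner_eq` (H25/Kin/BInner; reflection `ρσ = refl n σ = 2 x n - σ`) with `F σ = |σ_e| - |n_e|`: the integral equals `∫ (1/2) kerB (|σ_e| + |(ρσ)_e| - 2|n_e|)`.
`|α|+|β| = max(|α+β|, |α-β|)`, `σ_e+(ρσ)_e = 2 x n_e`, `σ_e-(ρσ)_e = 2(σ_e - x n_e)`: `(1/2)(|σ_e|+|(ρσ)_e|) ≥ |x||n_e| ≥ |n_e| - y|n_e|` (`|x| ≥ 1 - y`), and on `RotS e (1/16) v w` (`|σ_e| ≥ 1/16`, PL/Rot)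
it is `≥ |σ_e| - |n_e| ≥ 1/16 - |n_e|`. So `(1/2)(..) - |n_e| ≥ -y|n_e| + 1_{RotS} (1/16 - 2|n_e|) ≥ -θ₁ y + (1/32) 1_{RotS}` for `θ₁ ≤ 1/64` (on `RotS`: `1/16 - 2|n_e| ≥ 1/32`, and `-y|n_e| ≤ 0`).
`∫ kerB y ≤ A L^γ 2^(1-s)` (`ker_small`, `τ = 1`, `u = 2`), `∫_{RotS} kerB ≥ c L^γ 16^(2s)` (`rot_low` with `u = 1/16`, needs `|v_e-w_e| < L/16`, `ε ≤ 6/256`). Take `θ₁ ≤ 1/64` with `θ₁ A 2^(1-s) ≤ c/32`.
Integrability: `inner_integrable` (bounded `F`), all functions continuous in `σ`.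
-/

set_option autoImplicit false

open MeasureTheory Set Filter Topology Pool.Agent.H25.Kin Pool.Agent.H82.BK Pool.Agent.H82.CM Pool.Agent.H48.PL

namespace Pool.Agent.H85.UP

variable {d : ℕ} {γ s C Ca cb : ℝ} {b : ℝ → ℝ}

private lemma fkl_meas (e : Fin d) (u : ℝ) (v w : Vec d) : MeasurableSet (RotS e u v w) := by
  have h1 := measurable_cosTh' v w
  have h2 : MeasurableSet {σ : Vec d | nsq σ = 1} :=
    (isClosed_eq continuous_sq continuous_const).measurableSet
  have h3 : MeasurableSet {σ : Vec d | 6 * u ^ 2 ≤ 1 - cosTh v w σ} :=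
    measurableSet_le measurable_const (measurable_const.sub h1)
  have h4 : MeasurableSet {σ : Vec d | 1 - cosTh v w σ ≤ 19 * u ^ 2} :=
    measurableSet_le (measurable_const.sub h1) measurable_const
  have h5 : MeasurableSet {σ : Vec d | u ≤ |σ e|} :=
    (isClosed_le continuous_const (continuous_apply e).abs).measurableSet
  exact h2.inter (h3.inter (h4.inter h5))

private lemma fkl_coord {σ : Vec d} (hσ : nsq σ = 1) (e : Fin d) : |σ e| ≤ 1 := by
  refine (abs_coord_le σ e).trans ?_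
  unfold len
  rw [hσ, Real.sqrt_one]

/-- the pointwise estimate -/
private lemma fkl_point {x a n θ : ℝ} (hx : x ≤ 1) (hx0 : -1 ≤ x) (hn : |n| ≤ θ) (hθ : θ ≤ 1 / 64) :
    -(θ * (1 - x)) ≤ 1 / 2 * ((|a| - |n|) + (|2 * x * n - a| - |n|)) ∧
    (1 / 16 ≤ |a| → 1 / 32 - θ * (1 - x) ≤ 1 / 2 * ((|a| - |n|) + (|2 * x * n - a| - |n|))) := by
  have h1 : 2 * (|x| * |n|) ≤ |a| + |2 * x * n - a| := by
    have h2 := abs_add_le a (2 * x * n - a)
    have h3 : a + (2 * x * n - a) = 2 * (x * n) := by ring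
    rw [h3, abs_mul, abs_mul, abs_of_pos (by norm_num : (0 : ℝ) < 2)] at h2
    exact h2
  have h4 : 2 * |a| - 2 * (|x| * |n|) ≤ |a| + |2 * x * n - a| := by
    have h5 : |a| ≤ |2 * x * n - a| + |2 * (x * n)| := by
      have h6 := abs_sub_abs_le_abs_sub a (2 * (x * n))
      have h7 : a - 2 * (x * n) = -(2 * x * n - a) := by ring
      rw [h7, abs_neg] at h6
      linarith
    rw [abs_mul, abs_mul, abs_of_pos (by norm_num : (0 : ℝ) < 2)] at h5
    linarith
  have hn0 := abs_nonneg n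
  have hxn : |x| * |n| ≤ |n| := by
    have : |x| ≤ 1 := abs_le.2 ⟨hx0, hx⟩
    nlinarith
  have hxn2 : x * |n| ≤ |x| * |n| := mul_le_mul_of_nonneg_right (le_abs_self x) hn0
  have hy : (1 - x) * |n| ≤ (1 - x) * θ := mul_le_mul_of_nonneg_left hn (by linarith)
  have hy0 : 0 ≤ (1 - x) * |n| := mul_nonneg (by linarith) hn0
  refine ⟨by nlinarith, fun ha => ?_⟩
  nlinarith

theorem kl_thin (HL : HypL d γ s b C Ca cb) (e : Fin d) : ∃ θ₁ ε₀ : ℝ, 0 < θ₁ ∧ 0 < ε₀ ∧
    ∀ v w : Vec d, v ≠ w → |v e - w e| ≤ θ₁ * len (v - w) → ∀ X : ℝ, 0 ≤ X → ∀ ε : ℝ, 0 < ε → ε ≤ ε₀ →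
      0 ≤ ∫ σ, kerB γ b ε v w σ * (max X |post v w σ e - post' v w σ e| - max X |v e - w e|) ∂(surf d) := by
  have hd1 : 1 ≤ d := le_trans (by norm_num) HL.H.hd
  obtain ⟨A, hA, hsmall⟩ := ker_small HL.H (τ := 1) HL.H.hs1 le_rfl
  obtain ⟨c, hc, hrot⟩ := rot_low HL e
  have h16 : 0 < (1 / 16 : ℝ) ^ (-(2 * s)) := Real.rpow_pos_of_pos (by norm_num) _
  have h2s : 0 < (2 : ℝ) ^ (1 - s) := Real.rpow_pos_of_pos (by norm_num) _
  set θ : ℝ := min (1 / 64) (c * (1 / 16 : ℝ) ^ (-(2 * s)) / 32 / (A * 2 ^ (1 - s) + 1)) with hθdef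
  have hden : 0 < A * (2 : ℝ) ^ (1 - s) + 1 := by positivity
  have hθ : 0 < θ := lt_min (by norm_num) (by positivity)
  have hθ1 : θ ≤ 1 / 64 := min_le_left _ _
  have hθ2 : θ * (A * 2 ^ (1 - s)) ≤ c * (1 / 16 : ℝ) ^ (-(2 * s)) / 32 := by
    have h1 : θ * (A * 2 ^ (1 - s) + 1) ≤ c * (1 / 16 : ℝ) ^ (-(2 * s)) / 32 :=
      (le_div_iff₀ hden).1 (min_le_right _ _)
    nlinarith
  refine ⟨θ, 6 * (1 / 16) ^ 2, hθ, by norm_num, ?_⟩
  intro v w hvw hthin X hX ε hε hε1
  have hl : 0 < len (v - w) := len_pos (sub_ne_zero.2 hvw)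
  have hlg : 0 ≤ len (v - w) ^ γ := Real.rpow_nonneg hl.le _
  set L : ℝ := len (v - w) with hL
  set n : Vec d := dirk v w with hndef
  have hLn : L * n e = v e - w e := by
    have := congrFun (len_smul_dirk v w) e
    simpa using this
  have hne : |n e| ≤ θ := by
    rw [← hLn, abs_mul, abs_of_pos hl, mul_comm θ] at hthin
    exact le_of_mul_le_mul_left hthin hl
  have hbd := HL.H.bd
  have hβ := HL.H.β0
  have hbm := HL.H.bm
  have hpost : ∀ σ : Vec d, |post v w σ e - post' v w σ e| = L * |σ e| := by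
    intro σ
    rw [col_diff, abs_mul, abs_of_pos hl]
  have hvw' : |v e - w e| = L * |n e| := by
    rw [← hLn, abs_mul, abs_of_pos hl]
  simp only [hpost, hvw']
  rcases le_total (L * |n e|) X with hcase | hcase
  · -- large `X`
    refine integral_nonneg_of_ae ?_
    filter_upwards [surf_ae] with σ hσ
    refine mul_nonneg (kerB_nonneg hbd hε hσ) ?_
    rw [max_eq_left hcase]
    exact sub_nonneg.2 (le_max_left _ _)
  -- small `X`
  set G : Vec d → ℝ := fun σ => |σ e| - |n e| with hG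
  have hn1 : |n e| ≤ 1 := by linarith
  have hGm : Measurable G := ((measurable_pi_apply e).abs).sub measurable_const
  have hG0 : ∀ σ : Vec d, nsq σ = 1 → |G σ| ≤ 1 := by
    intro σ hσ
    have h1 := fkl_coord hσ e
    have h2 := abs_nonneg (σ e)
    have h3 := abs_nonneg (n e)
    exact abs_le.2 ⟨by simp only [hG]; linarith, by simp only [hG]; linarith⟩
  have key : 0 ≤ ∫ σ, kerB γ b ε v w σ * G σ ∂(surf d) := by
    rw [inner_eq hd1 hbm hbd hβ hε hvw hGm hG0]
    obtain ⟨iS, hS⟩ := hsmall ε hε v w hvw 2 (by norm_num)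
    have hres : (surf d).restrict {σ : Vec d | 1 - cosTh v w σ ≤ 2} = surf d := by
      refine Measure.restrict_eq_self_of_ae_mem ?_
      filter_upwards [surf_ae] with σ hσ
      have := (abs_le.1 (abs_cosTh_le (v := v) (w := w) hσ)).1
      change 1 - cosTh v w σ ≤ 2
      linarith
    unfold IntegrableOn at iS
    rw [hres] at iS hS
    simp only [Real.rpow_one] at iS hS
    obtain ⟨iR, hR⟩ := hrot (1 / 16) (by norm_num) le_rfl v w hvw
      (by
        have h1 : |v e - w e| ≤ θ * L := by rw [hvw']; nlinarith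
        nlinarith) ε hε hε1
    have iR' : Integrable ((RotS e (1 / 16) v w).indicator fun σ => kerB γ b ε v w σ) (surf d) :=
      (integrable_indicator_iff (fkl_meas e _ v w)).2 iR
    have iL : Integrable (fun σ => -θ * (kerB γ b ε v w σ * (1 - cosTh v w σ)) +
        1 / 32 * (RotS e (1 / 16) v w).indicator (fun σ => kerB γ b ε v w σ) σ) (surf d) :=
      (iS.const_mul _).add (iR'.const_mul _)
    have iG : Integrable (fun σ => (1 / 2 : ℝ) * (kerB γ b ε v w σ *
        (G σ + G (refl (dirk v w) σ)))) (surf d) := by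
      have h1 : Integrable (fun σ => kerB γ b ε v w σ * (G σ + G (refl (dirk v w) σ))) (surf d) := by
        refine inner_integrable hbm hbd hβ hε (F0 := 2) (hGm.add (hGm.comp (refl_meas _))) ?_
        intro σ hσ
        have h1 := hG0 σ hσ
        have h2 := hG0 (refl (dirk v w) σ) (by rw [nsq_refl (nsq_dirk hvw), hσ])
        exact (abs_add_le _ _).trans (by linarith)
      exact h1.const_mul _
    have hmono : ∫ σ, (-θ * (kerB γ b ε v w σ * (1 - cosTh v w σ)) +
        1 / 32 * (RotS e (1 / 16) v w).indicator (fun σ => kerB γ b ε v w σ) σ) ∂(surf d) ≤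
        ∫ σ, (1 / 2 : ℝ) * (kerB γ b ε v w σ * (G σ + G (refl (dirk v w) σ))) ∂(surf d) := by
      refine integral_mono_ae iL iG ?_
      filter_upwards [surf_ae] with σ hσ
      have hk := kerB_nonneg (γ := γ) hbd hε (v := v) (w := w) hσ
      have hx := abs_le.1 (abs_cosTh_le (v := v) (w := w) hσ)
      obtain ⟨p1, p2⟩ := fkl_point (x := cosTh v w σ) (a := σ e) (n := n e) (θ := θ) hx.2 hx.1 hne hθ1
      have hre : refl (dirk v w) σ e = 2 * cosTh v w σ * n e - σ e := by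
        rw [refl_apply, cosTh_eq]
        simp only [Pi.sub_apply, Pi.smul_apply, smul_eq_mul, hndef]
      simp only [hG, hre]
      by_cases hσR : σ ∈ RotS e (1 / 16) v w
      · rw [Set.indicator_of_mem hσR]
        have h3 := mul_le_mul_of_nonneg_left (p2 hσR.2.2.2) hk
        linarith
      · rw [Set.indicator_of_notMem hσR]
        have h3 := mul_le_mul_of_nonneg_left p1 hk
        linarith
    refine le_trans ?_ hmono
    rw [integral_add (iS.const_mul _) (iR'.const_mul _), integral_const_mul, integral_const_mul,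
      integral_indicator (fkl_meas e _ v w)]
    have h5 : θ * ∫ σ, kerB γ b ε v w σ * (1 - cosTh v w σ) ∂(surf d) ≤
        θ * (A * L ^ γ * 2 ^ (1 - s)) := mul_le_mul_of_nonneg_left hS hθ.le
    have h6 : L ^ γ * (θ * (A * 2 ^ (1 - s))) ≤ L ^ γ * (c * (1 / 16 : ℝ) ^ (-(2 * s)) / 32) :=
      mul_le_mul_of_nonneg_left hθ2 hlg
    nlinarith
  -- comparison
  set F : Vec d → ℝ := fun σ => max X (L * |σ e|) - max X (L * |n e|) with hF
  have hFm : Measurable F :=
    (measurable_const.max (measurable_const.mul (measurable_pi_apply e).abs)).sub measurable_const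
  have hF0 : ∀ σ : Vec d, nsq σ = 1 → |F σ| ≤ X + L := by
    intro σ hσ
    have h1 := fkl_coord hσ e
    have h2 := abs_nonneg (σ e)
    have h3 := abs_nonneg (n e)
    have h4 : max X (L * |σ e|) ≤ X + L := max_le (by linarith) (by nlinarith)
    have h5 : max X (L * |n e|) ≤ X + L := max_le (by linarith) (by nlinarith)
    have h6 : 0 ≤ max X (L * |σ e|) := le_max_of_le_left hX
    have h7 : 0 ≤ max X (L * |n e|) := le_max_of_le_left hX
    exact abs_le.2 ⟨by simp only [hF]; linarith, by simp only [hF]; linarith⟩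
  have iF := inner_integrable (γ := γ) (v := v) (w := w) hbm hbd hβ hε hFm hF0
  have iG := inner_integrable (γ := γ) (v := v) (w := w) hbm hbd hβ hε hGm hG0
  calc (0 : ℝ) ≤ L * ∫ σ, kerB γ b ε v w σ * G σ ∂(surf d) := mul_nonneg hl.le key
    _ = ∫ σ, L * (kerB γ b ε v w σ * G σ) ∂(surf d) := (integral_const_mul _ _).symm
    _ ≤ ∫ σ, kerB γ b ε v w σ * F σ ∂(surf d) := by
        refine integral_mono_ae (iG.const_mul L) iF ?_
        filter_upwards [surf_ae] with σ hσ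
        have hk := kerB_nonneg (γ := γ) hbd hε (v := v) (w := w) hσ
        have h1 : L * G σ ≤ F σ := by
          simp only [hF, hG]
          rw [max_eq_right hcase]
          have := le_max_right X (L * |σ e|)
          linarith
        have h2 := mul_le_mul_of_nonneg_left h1 hk
        linarith

end Pool.Agent.H85.UP
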