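import Pool.Agent.H85.UP.FInc
import Pool.Agent.H85.UP.FKl
import Pool.Agent.H48.PL.WkI

/-!
# Module FAin: angular integrals of the far and the near part

`y = 1 - cosTh`, `L = len (v-w)`, `l = len (post-v) = L (y/2)^(1/2)`, `ker_small` with `τ = 1/2 > s`: `∫ kerB l ≤ A L^(2+a)` (`A` universal), template `ainc_bd` in PL/Hw.lean.
* all pairs: `|farF(post)-farF(v)|, |farF(post')-farF(w)| ≤ 7 l` (`far_lip`, `col_post'`): `|ainc| ≤ 14 A L^(2+a)`.
* thin pairs, `|v_e-w_e| ≤ θ₁ L`, `ε ≤ ε₀` (`kl_thin`): if `4L > RR`: `|ainc| ≤ 14 A L^(2+a) ≤ 56 A L^(3+a)/RR`. If `4L ≤ RR`: integrate `far_inc` against `kerB ≥ 0`: `ainc ≥ ((omU u v+omU u w)/4) ∫ kerB (max .. - max ..) - 2200 (L/RR) ∫ kerB l ≥ 0 - 2200 A (L/RR) L^(2+a)`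
  (`X = |2u_e-v_e-w_e|`; integrability of `kerB (bounded measurable)`: `inner_integrable`).
* near part: `|neaF(post)-neaF(v)| ≤ 6 x0^a l^m` (`nea_holder`), `l^m ≤ L^m y^(m/2)` (`col_pow`), `ker_small` with `τ = m/2 > s`: `|ainc| ≤ K x0^a L^(1+a) L^m`.
-/

set_option autoImplicit false

open MeasureTheory Set Filter Topology Pool.Agent.H25.Kin Pool.Agent.H82.BK Pool.Agent.H82.CM Pool.Agent.H48.PL

namespace Pool.Agent.H85.UP

variable {d : ℕ} {s a m q C Ca cb : ℝ} {b : ℝ → ℝ}

private lemma fain_ker (H : Hyp d (1 + a) s b C Ca) {τ : ℝ} (hτ : s < τ) (hτ1 : τ ≤ 1) :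
    ∃ A : ℝ, 0 ≤ A ∧ ∀ ε : ℝ, 0 < ε → ∀ v w : Vec d, v ≠ w →
      Integrable (fun σ => kerB (1 + a) b ε v w σ * (1 - cosTh v w σ) ^ τ) (surf d) ∧
      ∫ σ, kerB (1 + a) b ε v w σ * (1 - cosTh v w σ) ^ τ ∂(surf d) ≤ A * len (v - w) ^ (1 + a) := by
  obtain ⟨A1, hA1, hk⟩ := ker_small H hτ hτ1
  refine ⟨A1 * 2 ^ (τ - s), by positivity, fun ε hε v w hvw => ?_⟩
  obtain ⟨hi, hb⟩ := hk ε hε v w hvw 2 two_pos
  have hS : (surf d).restrict {σ : Vec d | 1 - cosTh v w σ ≤ 2} = surf d := by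
    refine Measure.restrict_eq_self_of_ae_mem ?_
    filter_upwards [surf_ae] with σ hσ
    have h4 := (abs_le.1 (abs_cosTh_le (v := v) (w := w) hσ)).1
    show 1 - cosTh v w σ ≤ 2
    linarith
  unfold IntegrableOn at hi
  rw [hS] at hi hb
  refine ⟨hi, hb.trans (le_of_eq (by ring))⟩

private lemma fain_abs (H : Hyp d (1 + a) s b C Ca) {τ A : ℝ}
    (hk : ∀ ε : ℝ, 0 < ε → ∀ v w : Vec d, v ≠ w →
      Integrable (fun σ => kerB (1 + a) b ε v w σ * (1 - cosTh v w σ) ^ τ) (surf d) ∧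
      ∫ σ, kerB (1 + a) b ε v w σ * (1 - cosTh v w σ) ^ τ ∂(surf d) ≤ A * len (v - w) ^ (1 + a))
    {f : Vec d → ℝ} {v w : Vec d} {M ε : ℝ} (hε : 0 < ε) (hvw : v ≠ w) (hM : 0 ≤ M)
    (h : ∀ σ : Vec d, nsq σ = 1 → |f (post v w σ) - f v| ≤ M * (1 - cosTh v w σ) ^ τ ∧
      |f (post' v w σ) - f w| ≤ M * (1 - cosTh v w σ) ^ τ) :
    |ainc (1 + a) b ε f v w| ≤ 2 * M * (A * len (v - w) ^ (1 + a)) := by
  obtain ⟨hi, hb⟩ := hk ε hε v w hvw
  have hle : ‖ainc (1 + a) b ε f v w‖ ≤
      ∫ σ, (2 * M) * (kerB (1 + a) b ε v w σ * (1 - cosTh v w σ) ^ τ) ∂(surf d) := by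
    unfold ainc
    refine norm_integral_le_of_norm_le (hi.const_mul (2 * M)) ?_
    filter_upwards [surf_ae] with σ hσ
    have hk0 := kerB_nonneg (γ := 1 + a) H.bd hε (v := v) (w := w) hσ
    obtain ⟨e1, e2⟩ := h σ hσ
    rw [norm_mul, Real.norm_eq_abs, Real.norm_eq_abs, abs_of_nonneg hk0]
    have e3 : |f (post v w σ) + f (post' v w σ) - f v - f w| ≤ 2 * M * (1 - cosTh v w σ) ^ τ := by
      calc |f (post v w σ) + f (post' v w σ) - f v - f w|
          = |(f (post v w σ) - f v) + (f (post' v w σ) - f w)| := by congr 1; ring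
        _ ≤ |f (post v w σ) - f v| + |f (post' v w σ) - f w| := abs_add_le _ _
        _ ≤ M * (1 - cosTh v w σ) ^ τ + M * (1 - cosTh v w σ) ^ τ := add_le_add e1 e2
        _ = _ := by ring
    calc kerB (1 + a) b ε v w σ * |f (post v w σ) + f (post' v w σ) - f v - f w|
        ≤ kerB (1 + a) b ε v w σ * (2 * M * (1 - cosTh v w σ) ^ τ) :=
          mul_le_mul_of_nonneg_left e3 hk0
      _ = _ := by ring
  rw [integral_const_mul, Real.norm_eq_abs] at hle
  exact hle.trans (mul_le_mul_of_nonneg_left hb (by positivity))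

private lemma fain_len {v w σ : Vec d} (hvw : v ≠ w) (hσ : nsq σ = 1) :
    len (post v w σ - v) ≤ len (v - w) * (1 - cosTh v w σ) ^ (1 / 2 : ℝ) := by
  have h := col_pow one_pos hvw hσ
  rwa [Real.rpow_one, Real.rpow_one] at h

private lemma fain_far_pt {ς : ℝ} (hς : ς = 1 ∨ ς = -1) (e : Fin d) (u : Vec d) {v w σ : Vec d}
    (hvw : v ≠ w) (hσ : nsq σ = 1) :
    |farF ς e u (post v w σ) - farF ς e u v| ≤ 7 * len (v - w) * (1 - cosTh v w σ) ^ (1 / 2 : ℝ) ∧
    |farF ς e u (post' v w σ) - farF ς e u w| ≤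
      7 * len (v - w) * (1 - cosTh v w σ) ^ (1 / 2 : ℝ) := by
  have h := fain_len hvw hσ
  constructor
  · refine (far_lip hς e u _ _).trans ?_
    linarith
  · refine (far_lip hς e u _ _).trans ?_
    rw [col_post']
    linarith

private lemma fain_post_meas (v w : Vec d) : Measurable fun σ : Vec d => post v w σ :=
  (continuous_post (d := d)).measurable.comp
    (measurable_const.prodMk (measurable_const.prodMk measurable_id))

private lemma fain_post'_meas (v w : Vec d) : Measurable fun σ : Vec d => post' v w σ :=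
  (continuous_post' (d := d)).measurable.comp
    (measurable_const.prodMk (measurable_const.prodMk measurable_id))

private lemma fain_int1 (H : Hyp d (1 + a) s b C Ca) {ς : ℝ} (hς : ς = 1 ∨ ς = -1) (e : Fin d)
    (u : Vec d) {v w : Vec d} (hvw : v ≠ w) {ε : ℝ} (hε : 0 < ε) :
    Integrable (fun σ => kerB (1 + a) b ε v w σ *
      (farF ς e u (post v w σ) + farF ς e u (post' v w σ) - farF ς e u v - farF ς e u w))
      (surf d) := by
  have hm := (far_cont ς e u).measurable
  refine inner_integrable (γ := 1 + a) (F0 := 14 * len (v - w) * 2 ^ (1 / 2 : ℝ)) H.bm H.bd H.β0 hε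
    ((((hm.comp (fain_post_meas v w)).add (hm.comp (fain_post'_meas v w))).sub
      measurable_const).sub measurable_const) ?_
  intro σ hσ
  obtain ⟨e1, e2⟩ := fain_far_pt hς e u hvw hσ
  have h0 := one_sub_cosTh_nonneg (v := v) (w := w) hσ
  have h4 := (abs_le.1 (abs_cosTh_le (v := v) (w := w) hσ)).1
  have h5 : (1 - cosTh v w σ) ^ (1 / 2 : ℝ) ≤ 2 ^ (1 / 2 : ℝ) :=
    Real.rpow_le_rpow h0 (by linarith) (by norm_num)
  have hl := len_nonneg (v - w)
  have h6 := mul_le_mul_of_nonneg_left h5 hl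
  calc |farF ς e u (post v w σ) + farF ς e u (post' v w σ) - farF ς e u v - farF ς e u w|
      = |(farF ς e u (post v w σ) - farF ς e u v) +
          (farF ς e u (post' v w σ) - farF ς e u w)| := by congr 1; ring
    _ ≤ _ := abs_add_le _ _
    _ ≤ _ := by linarith

private lemma fain_int2 (H : Hyp d (1 + a) s b C Ca) (e : Fin d) {v w : Vec d} {ε : ℝ}
    (hε : 0 < ε) (X : ℝ) :
    Integrable (fun σ => kerB (1 + a) b ε v w σ *
      (max X |post v w σ e - post' v w σ e| - max X |v e - w e|)) (surf d) := by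
  have m1 : Measurable fun σ : Vec d => post v w σ e :=
    (measurable_pi_apply e).comp (fain_post_meas v w)
  have m2 : Measurable fun σ : Vec d => post' v w σ e :=
    (measurable_pi_apply e).comp (fain_post'_meas v w)
  refine inner_integrable (γ := 1 + a) (F0 := 2 * len (v - w)) H.bm H.bd H.β0 hε
    ((measurable_const.max (m1.sub m2).norm).sub measurable_const) ?_
  intro σ hσ
  have h1 : |post v w σ e - post' v w σ e| ≤ len (v - w) := by
    have := abs_coord_le (post v w σ - post' v w σ) e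
    rw [col_len hσ] at this
    exact this
  have h2 : |v e - w e| ≤ len (v - w) := abs_coord_le (v - w) e
  have h3 : abs (max X |post v w σ e - post' v w σ e| - max X |v e - w e|) ≤
      abs (|post v w σ e - post' v w σ e| - |v e - w e|) := by
    rw [max_comm X, max_comm X]
    exact abs_max_sub_max_le_abs _ _ _
  refine h3.trans ?_
  have h4 := abs_nonneg (post v w σ e - post' v w σ e)
  have h5 := abs_nonneg (v e - w e)
  rw [abs_le]
  constructor <;> linarith

theorem ainc_far (HL : HypL d (1 + a) s b C Ca cb) (U : UE s a m q) (e : Fin d) :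
    ∃ θ₁ ε₀ K : ℝ, 0 < θ₁ ∧ 0 < ε₀ ∧ 0 ≤ K ∧ ∀ ς : ℝ, ς = 1 ∨ ς = -1 → ∀ ε : ℝ, 0 < ε → ε ≤ ε₀ →
      ∀ u v w : Vec d, v ≠ w →
        -(K * len (v - w) ^ (2 + a)) ≤ ainc (1 + a) b ε (farF ς e u) v w ∧
        (|v e - w e| ≤ θ₁ * len (v - w) →
          -(K * (len (v - w) ^ (3 + a) / RR v w)) ≤ ainc (1 + a) b ε (farF ς e u) v w) := by
  obtain ⟨θ₁, ε₀, hθ, hε₀, hkl⟩ := kl_thin HL e
  have h1 := U.has
  have h2 := U.ha1
  have h3 := U.hs
  obtain ⟨A, hA, hk⟩ := fain_ker HL.H (τ := 1 / 2) (by linarith) (by norm_num)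
  refine ⟨θ₁, ε₀, 2200 * A, hθ, hε₀, by positivity, fun ς hς ε hε hεε u v w hvw => ?_⟩
  have hlp : 0 < len (v - w) := len_pos (sub_ne_zero.2 hvw)
  have hR := RR_pos v w
  have hR1 := one_le_RR v w
  have p2 : len (v - w) ^ (2 + a) = len (v - w) * len (v - w) ^ (1 + a) := by
    rw [show 2 + a = 1 + (1 + a) by ring, Real.rpow_add hlp, Real.rpow_one]
  have p3 : len (v - w) ^ (3 + a) = len (v - w) * (len (v - w) * len (v - w) ^ (1 + a)) := by
    rw [← p2, show 3 + a = 1 + (2 + a) by ring, Real.rpow_add hlp, Real.rpow_one]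
  have hP : 0 ≤ len (v - w) ^ (1 + a) := Real.rpow_nonneg hlp.le _
  have hab := fain_abs HL.H hk hε hvw (M := 7 * len (v - w)) (by positivity)
    (f := farF ς e u) (fun σ hσ => fain_far_pt hς e u hvw hσ)
  have hlo := (abs_le.1 hab).1
  have hAP : 0 ≤ A * (len (v - w) * len (v - w) ^ (1 + a)) := by positivity
  refine ⟨?_, fun hth => ?_⟩
  · rw [p2]
    nlinarith
  · rcases lt_or_ge (RR v w) (4 * len (v - w)) with h4 | h4
    · have h5 : len (v - w) * (len (v - w) * len (v - w) ^ (1 + a)) / RR v w ≥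
          (len (v - w) * len (v - w) ^ (1 + a)) / 4 := by
        rw [ge_iff_le, div_le_div_iff₀ (by norm_num) hR]
        have h6 : 0 ≤ len (v - w) * len (v - w) ^ (1 + a) := by positivity
        nlinarith
      rw [p3]
      have h6 := mul_le_mul_of_nonneg_left h5 hA
      nlinarith
    · obtain ⟨hi, hb⟩ := hk ε hε v w hvw
      set X : ℝ := |2 * u e - v e - w e| with hX
      set c : ℝ := (omU u v + omU u w) / 4 with hc
      have hc0 : 0 ≤ c := by
        have := omU_nonneg u v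
        have := omU_nonneg u w
        rw [hc]
        linarith
      have hq0 : 0 ≤ 2200 * (len (v - w) / RR v w) * len (v - w) := by positivity
      have i1 := fain_int1 HL.H hς e u hvw hε
      have i2 := fain_int2 HL.H e (v := v) (w := w) hε X
      have hge : ∫ σ, (c * (kerB (1 + a) b ε v w σ *
          (max X |post v w σ e - post' v w σ e| - max X |v e - w e|)) -
          (2200 * (len (v - w) / RR v w) * len (v - w)) *
            (kerB (1 + a) b ε v w σ * (1 - cosTh v w σ) ^ (1 / 2 : ℝ))) ∂(surf d) ≤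
          ainc (1 + a) b ε (farF ς e u) v w := by
        unfold ainc
        refine integral_mono_ae ((i2.const_mul c).sub (hi.const_mul _)) i1 ?_
        filter_upwards [surf_ae] with σ hσ
        have hk0 := kerB_nonneg (γ := 1 + a) HL.H.bd hε (v := v) (w := w) hσ
        have g1 := far_inc hς e u hvw hσ h4
        have g2 := fain_len hvw hσ
        have g3 : 2200 * (len (v - w) / RR v w) * len (post v w σ - v) ≤
            2200 * (len (v - w) / RR v w) * (len (v - w) * (1 - cosTh v w σ) ^ (1 / 2 : ℝ)) :=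
          mul_le_mul_of_nonneg_left g2 (by positivity)
        have g4 := mul_le_mul_of_nonneg_left ((sub_le_sub_left g3 _).trans g1) hk0
        refine le_trans (le_of_eq ?_) g4
        rw [hX, hc]
        ring
      rw [integral_sub (i2.const_mul c) (hi.const_mul _), integral_const_mul,
        integral_const_mul] at hge
      have g5 := hkl v w hvw hth X (abs_nonneg _) ε hε hεε
      have g6 := mul_nonneg hc0 g5
      have g7 := mul_le_mul_of_nonneg_left hb hq0
      have g8 : 2200 * (len (v - w) / RR v w) * len (v - w) * (A * len (v - w) ^ (1 + a)) =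
          2200 * A * (len (v - w) ^ (3 + a) / RR v w) := by
        rw [p3]
        ring
      rw [g8] at g7
      linarith

theorem ainc_nea (HL : HypL d (1 + a) s b C Ca cb) (U : UE s a m q) (e : Fin d) :
    ∃ K : ℝ, 0 ≤ K ∧ ∀ ς : ℝ, ς = 1 ∨ ς = -1 → ∀ sg : ℝ, 0 < sg → sg ≤ 1 → ∀ ε : ℝ, 0 < ε →
      ∀ u v w : Vec d, v ≠ w →
        |ainc (1 + a) b ε (neaF ς a sg e u) v w| ≤
          K * x0 a sg ^ a * (len (v - w) ^ (1 + a) * len (v - w) ^ m) := by
  have h0 := U.hs
  have h1 := U.hm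
  have h2 := U.hma
  have h3 := U.ha1
  obtain ⟨A, hA, hk⟩ := fain_ker HL.H (τ := m / 2) (by linarith) (by linarith)
  refine ⟨12 * A, by positivity, fun ς hς sg hsg hsg1 ε hε u v w hvw => ?_⟩
  have hx : 0 ≤ x0 a sg ^ a := Real.rpow_nonneg (Real.rpow_nonneg hsg.le _) _
  have hlm : 0 ≤ len (v - w) ^ m := Real.rpow_nonneg (len_nonneg _) _
  have hm : 0 < m := by linarith
  have hab := fain_abs HL.H hk hε hvw (M := 6 * x0 a sg ^ a * len (v - w) ^ m) (by positivity)
    (f := neaF ς a sg e u) (fun σ hσ => by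
      have h4 := col_pow hm hvw hσ
      have h5 : 6 * x0 a sg ^ a * len (post v w σ - v) ^ m ≤
          6 * x0 a sg ^ a * (len (v - w) ^ m * (1 - cosTh v w σ) ^ (m / 2)) :=
        mul_le_mul_of_nonneg_left h4 (by positivity)
      constructor
      · refine (nea_holder U hς e hsg hsg1 u _ _).trans (h5.trans (le_of_eq (by ring)))
      · refine (nea_holder U hς e hsg hsg1 u _ _).trans ?_
        rw [col_post']
        exact h5.trans (le_of_eq (by ring)))
  exact hab.trans (le_of_eq (by ring))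

end Pool.Agent.H85.UP
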