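import Pool.Agent.H85.UP.Defs

/-!
# Module FHh: the profile `Hh` (real analysis)

`0 < a < 1`, `0 < sg ≤ 1`, `x0 = sg^(-1/(1-a)) ≥ 1`, `Hh(x) = sg x₊ + min(x₊^a, x0^a)`.
* `hh_low`: `x^a ≤ Hh x` for `0 ≤ x`: if `x ≤ x0` then `min = x^a`; if `x > x0` then `sg x ≥ x^a`, since `x^(1-a) ≥ x0^(1-a) = 1/sg`.
* `hh_le`: `Hh x ≤ sg x₊ + x0^a`.
* `nr_holder`: `N(x) = min(x₊^a, x0^a)`: `|N x - N y| ≤ 2 x0^a |x-y|^m` for `0 < m ≤ a`: `|N x - N y| ≤ |x₊-y₊|^a ≤ |x-y|^a` (subadditivity of `t^a`, `p1_sub_rpow` in PL/Pov1 is a model), which is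
  `≤ |x-y|^m` for `|x-y| ≤ 1`; for `|x-y| ≥ 1` use `|N x - N y| ≤ x0^a`. `x0 ≥ 1`.
* `nr_le`: `N x ≤ x₊^a`, `N x ≤ x0^a`, `0 ≤ N x`, `N 0 = 0`.
-/

set_option autoImplicit false

open MeasureTheory Set Filter Topology

namespace Pool.Agent.H85.UP

variable {a m sg : ℝ}

/-- the near profile -/
noncomputable def nrP (a sg x : ℝ) : ℝ := min (max x 0 ^ a) (x0 a sg ^ a)

theorem hh_eq (a sg x : ℝ) : Hh a sg x = sg * max x 0 + nrP a sg x := rfl

theorem x0_ge (ha1 : a < 1) (hsg : 0 < sg) (hsg1 : sg ≤ 1) : 1 ≤ x0 a sg := by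
  unfold x0
  refine Real.one_le_rpow_of_pos_of_le_one_of_nonpos hsg hsg1 ?_
  have : 0 < 1 / (1 - a) := by
    apply div_pos one_pos
    linarith
  linarith

private theorem x0_nonneg (hsg : 0 < sg) : 0 ≤ x0 a sg := Real.rpow_nonneg hsg.le _

private theorem sub_rpow_le {u v : ℝ} (hu : 0 ≤ u) (huv : u ≤ v) (ha : 0 < a) (ha1 : a ≤ 1) :
    v ^ a - u ^ a ≤ (v - u) ^ a := by
  have h := Real.rpow_add_le_add_rpow hu (sub_nonneg.2 huv) ha.le ha1
  have e : u + (v - u) = v := by ring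
  rw [e] at h
  linarith

private theorem abs_rpow_sub {u v : ℝ} (hu : 0 ≤ u) (hv : 0 ≤ v) (ha : 0 < a) (ha1 : a ≤ 1) :
    |u ^ a - v ^ a| ≤ |u - v| ^ a := by
  rcases le_total u v with h | h
  · have h1 : u ^ a ≤ v ^ a := Real.rpow_le_rpow hu h ha.le
    rw [abs_of_nonpos (by linarith), abs_of_nonpos (by linarith), neg_sub, neg_sub]
    exact sub_rpow_le hu h ha ha1
  · have h1 : v ^ a ≤ u ^ a := Real.rpow_le_rpow hv h ha.le
    rw [abs_of_nonneg (by linarith), abs_of_nonneg (by linarith)]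
    exact sub_rpow_le hv h ha ha1

theorem nr_nonneg (hsg : 0 < sg) (x : ℝ) : 0 ≤ nrP a sg x :=
  le_min (Real.rpow_nonneg (le_max_right _ _) _) (Real.rpow_nonneg (x0_nonneg hsg) _)

theorem nr_le (x : ℝ) : nrP a sg x ≤ max x 0 ^ a ∧ nrP a sg x ≤ x0 a sg ^ a :=
  ⟨min_le_left _ _, min_le_right _ _⟩

theorem nr_zero (ha : 0 < a) (hsg : 0 < sg) {x : ℝ} (hx : x ≤ 0) : nrP a sg x = 0 := by
  unfold nrP
  rw [max_eq_right hx, Real.zero_rpow ha.ne']
  exact min_eq_left (Real.rpow_nonneg (x0_nonneg hsg) _)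

theorem nr_cont (ha : 0 < a) : Continuous (nrP a sg) := by
  unfold nrP
  exact ((continuous_id.max continuous_const).rpow_const fun _ => Or.inr ha.le).min continuous_const

theorem nr_holder (ha : 0 < a) (ha1 : a < 1) (hm : 0 < m) (hma : m ≤ a) (hsg : 0 < sg) (hsg1 : sg ≤ 1) (x y : ℝ) :
    |nrP a sg x - nrP a sg y| ≤ 2 * x0 a sg ^ a * |x - y| ^ m := by
  have hx0 : 1 ≤ x0 a sg ^ a := Real.one_le_rpow (x0_ge ha1 hsg hsg1) ha.le
  have h0 : 0 ≤ |x - y| := abs_nonneg _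
  have hm0 : 0 ≤ |x - y| ^ m := Real.rpow_nonneg h0 _
  rcases le_total |x - y| 1 with h | h
  · have h1 : |nrP a sg x - nrP a sg y| ≤ |x - y| ^ a := by
      unfold nrP
      refine (abs_min_sub_min_le_max _ _ _ _).trans ?_
      rw [sub_self, abs_zero]
      refine max_le ?_ (Real.rpow_nonneg h0 _)
      refine (abs_rpow_sub (le_max_right _ _) (le_max_right _ _) ha ha1.le).trans ?_
      refine Real.rpow_le_rpow (abs_nonneg _) ?_ ha.le
      refine (abs_max_sub_max_le_max _ _ _ _).trans ?_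
      rw [sub_self, abs_zero]
      exact max_le le_rfl h0
    have h2 : |x - y| ^ a ≤ |x - y| ^ m := by
      rcases h0.eq_or_lt with h3 | h3
      · rw [← h3, Real.zero_rpow ha.ne', Real.zero_rpow hm.ne']
      · exact Real.rpow_le_rpow_of_exponent_ge h3 h hma
    calc |nrP a sg x - nrP a sg y| ≤ 1 * |x - y| ^ m := by rw [one_mul]; exact h1.trans h2
      _ ≤ 2 * x0 a sg ^ a * |x - y| ^ m := mul_le_mul_of_nonneg_right (by linarith) hm0
  · have h1 : |nrP a sg x - nrP a sg y| ≤ x0 a sg ^ a := by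
      have hx1 := nr_nonneg (a := a) hsg x
      have hy1 := nr_nonneg (a := a) hsg y
      have hx2 := (nr_le (a := a) (sg := sg) x).2
      have hy2 := (nr_le (a := a) (sg := sg) y).2
      rw [abs_le]
      constructor <;> linarith
    have h2 : 1 ≤ |x - y| ^ m := Real.one_le_rpow h hm.le
    calc |nrP a sg x - nrP a sg y| ≤ 2 * x0 a sg ^ a * 1 := by linarith
      _ ≤ 2 * x0 a sg ^ a * |x - y| ^ m := mul_le_mul_of_nonneg_left h2 (by linarith)

theorem hh_cont (ha : 0 < a) : Continuous (Hh a sg) := by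
  have h : Hh a sg = fun x => sg * max x 0 + nrP a sg x := funext fun x => hh_eq a sg x
  rw [h]
  exact (continuous_const.mul (continuous_id.max continuous_const)).add (nr_cont ha)

theorem hh_nonneg (hsg : 0 < sg) (x : ℝ) : 0 ≤ Hh a sg x := by
  rw [hh_eq]
  exact add_nonneg (mul_nonneg hsg.le (le_max_right _ _)) (nr_nonneg hsg x)

theorem hh_zero (ha : 0 < a) (hsg : 0 < sg) {x : ℝ} (hx : x ≤ 0) : Hh a sg x = 0 := by
  rw [hh_eq, nr_zero ha hsg hx, max_eq_right hx]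
  ring

theorem hh_low (ha : 0 < a) (ha1 : a < 1) (hsg : 0 < sg) (hsg1 : sg ≤ 1) {x : ℝ} (hx : 0 ≤ x) :
    x ^ a ≤ Hh a sg x := by
  rw [hh_eq, max_eq_left hx]
  rcases le_or_gt x (x0 a sg) with h | h
  · have h1 : nrP a sg x = x ^ a := by
      unfold nrP
      rw [max_eq_left hx]
      exact min_eq_left (Real.rpow_le_rpow hx h ha.le)
    rw [h1]
    have := mul_nonneg hsg.le hx
    linarith
  · have hx0 : 0 < x0 a sg := lt_of_lt_of_le one_pos (x0_ge ha1 hsg hsg1)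
    have hxp : 0 < x := hx0.trans h
    have h1 : x = x ^ a * x ^ (1 - a) := by
      rw [← Real.rpow_add hxp]
      have : a + (1 - a) = 1 := by ring
      rw [this, Real.rpow_one]
    have h2 : sg⁻¹ ≤ x ^ (1 - a) := by
      have h3 : x0 a sg ^ (1 - a) = sg⁻¹ := by
        unfold x0
        rw [← Real.rpow_mul hsg.le]
        have h4 : -(1 / (1 - a)) * (1 - a) = -1 := by
          have : (1 - a) ≠ 0 := by linarith
          field_simp
        rw [h4, Real.rpow_neg_one]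
      rw [← h3]
      exact Real.rpow_le_rpow hx0.le h.le (by linarith)
    have h5 : x ^ a ≤ sg * x := by
      calc x ^ a = sg * (x ^ a * sg⁻¹) := by field_simp
        _ ≤ sg * (x ^ a * x ^ (1 - a)) := by
            refine mul_le_mul_of_nonneg_left ?_ hsg.le
            exact mul_le_mul_of_nonneg_left h2 (Real.rpow_nonneg hx _)
        _ = sg * x := by rw [← h1]
    have := nr_nonneg (a := a) hsg x
    linarith

theorem hh_le (x : ℝ) : Hh a sg x ≤ sg * max x 0 + x0 a sg ^ a := by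
  rw [hh_eq]
  have := (nr_le (a := a) (sg := sg) x).2
  linarith

end Pool.Agent.H85.UP
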