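import Pool.Agent.H85.UP.FOm
import Pool.Agent.H85.UP.FHh
import Pool.Agent.H48.PV.WtU

/-!
# Module FDef: far part and near part

`farF ς e u w = omU u w (ς (u_e - w_e))₊`, `neaF ς a sg e u w = omU u w nrP(ς (u_e-w_e))`, `ς = ±1`; `PP = sg farF 1 + neaF 1`, `PM = sg farF (-1) + neaF (-1)`.
* `far_lip`: `r = jb u`, `y = jb w ≤ y' = jb w'` (symmetry), `P w = (ς(u_e-w_e))₊ ≤ |u_e|+|w_e| ≤ r + y`, `|P w' - P w| ≤ len (w-w')`.
  `f w' - f w = omU u w' (P w' - P w) + (omU u w' - omU u w) P w`. `ω = y²/(r²+y²)`: `ω'²-ω² ≤ 2(ω'-ω)`, `ω'-ω = r²(y'-y)(y'+y)/((r²+y²)(r²+y'²)) ≤ r (y'-y)/(r²+y²)` (`2 r y' ≤ r²+y'²`),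
  `(r+y) · 2 r (y'-y)/(r²+y²) ≤ 3 (y'-y)` since `r²+ry ≤ (3/2)(r²+y²)`. Total `≤ 4 len (w-w')`.
* `nea_holder`: `|neaF w - neaF w'| ≤ 6 x0^a len (w-w')^m`: `|omU u w - omU u w'| ≤ min(1, 4 len) ≤ 4 len^m` (`omU_lip2`, `omU_le_one`, `omU_nonneg`), `nrP ≤ x0^a`, `nr_holder`.
* `psi_pg`, `psi_meas`, `psi_hol`: for `ψ = z PO u + PE u`, `|z| ≤ 1/2`: `PG` and measurable from `po_pgwG`; `ψ = (1/2+z) PP u + (1/2-z) PM u`; for `jb w, jb w' ≤ R₁`, `len (w-w') ≤ 2R₁`: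
  `sg |farF w - farF w'| ≤ 7 len (w-w') ≤ 7 (2R₁)^(1-m) len^m ≤ 14 R₁ len^m`.
-/

set_option autoImplicit false

open MeasureTheory Set Filter Topology Pool.Agent.H25.Kin Pool.Agent.H48.PL Pool.Agent.H48.PW

namespace Pool.Agent.H85.UP

variable {d : ℕ} {s a m q sg : ℝ}

/-- the far part -/
noncomputable def farF (ς : ℝ) (e : Fin d) (u w : Vec d) : ℝ := omU u w * max (ς * (u e - w e)) 0

/-- the near part -/
noncomputable def neaF (ς a sg : ℝ) (e : Fin d) (u w : Vec d) : ℝ := omU u w * nrP a sg (ς * (u e - w e))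

theorem PP_eq (e : Fin d) (a sg : ℝ) (u w : Vec d) :
    PP e a sg u w = sg * farF 1 e u w + neaF 1 a sg e u w := by
  unfold PP farF neaF
  rw [hh_eq, one_mul]
  ring

theorem PM_eq (e : Fin d) (a sg : ℝ) (u w : Vec d) :
    PM e a sg u w = sg * farF (-1) e u w + neaF (-1) a sg e u w := by
  unfold PM farF neaF
  rw [hh_eq, neg_one_mul, neg_sub]
  ring

theorem psi_eq (e : Fin d) (a sg z : ℝ) (u w : Vec d) :
    z * PO e a sg u w + PE e a sg u w = (1 / 2 + z) * PP e a sg u w + (1 / 2 - z) * PM e a sg u w := by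
  unfold PO PE
  ring

/-- the increment of the cut-off, weighted -/
private theorem cut_incr {r y y' : ℝ} (hr : 0 < r) (hy : 0 < y) (hyy : y ≤ y') :
    0 ≤ (y' ^ 2 / (r ^ 2 + y' ^ 2)) ^ 2 - (y ^ 2 / (r ^ 2 + y ^ 2)) ^ 2 ∧
    ((y' ^ 2 / (r ^ 2 + y' ^ 2)) ^ 2 - (y ^ 2 / (r ^ 2 + y ^ 2)) ^ 2) * (r + y) ≤ 6 * (y' - y) := by
  have hy' : 0 < y' := lt_of_lt_of_le hy hyy
  have hA : 0 < r ^ 2 + y ^ 2 := by positivity
  have hB : 0 < r ^ 2 + y' ^ 2 := by positivity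
  have hd : 0 ≤ y' - y := sub_nonneg.2 hyy
  have h1 : y ^ 2 / (r ^ 2 + y ^ 2) ≤ 1 := (div_le_one hA).2 (by nlinarith)
  have h2 : y' ^ 2 / (r ^ 2 + y' ^ 2) ≤ 1 := (div_le_one hB).2 (by nlinarith)
  have h3 : 0 ≤ y ^ 2 / (r ^ 2 + y ^ 2) := by positivity
  have h3' : 0 ≤ y' ^ 2 / (r ^ 2 + y' ^ 2) := by positivity
  have h4 : y' ^ 2 / (r ^ 2 + y' ^ 2) - y ^ 2 / (r ^ 2 + y ^ 2) =
      (y' - y) * (r ^ 2 * (y' + y) / ((r ^ 2 + y ^ 2) * (r ^ 2 + y' ^ 2))) := by
    field_simp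
    ring
  have h5 : 0 ≤ r ^ 2 * (y' + y) / ((r ^ 2 + y ^ 2) * (r ^ 2 + y' ^ 2)) := by positivity
  have h6 : 0 ≤ y' ^ 2 / (r ^ 2 + y' ^ 2) - y ^ 2 / (r ^ 2 + y ^ 2) := by
    rw [h4]
    exact mul_nonneg hd h5
  have h7 : r ^ 2 * (y' + y) / ((r ^ 2 + y ^ 2) * (r ^ 2 + y' ^ 2)) * (r + y) ≤ 2 := by
    rw [div_mul_eq_mul_div, div_le_iff₀ (by positivity)]
    have h8 : r * (y' + y) ≤ r ^ 2 + y' ^ 2 := by nlinarith [sq_nonneg (r - y')]
    have h9 : r * (r + y) ≤ 2 * (r ^ 2 + y ^ 2) := by nlinarith [sq_nonneg (r - y)]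
    calc r ^ 2 * (y' + y) * (r + y) = (r * (y' + y)) * (r * (r + y)) := by ring
      _ ≤ (r ^ 2 + y' ^ 2) * (2 * (r ^ 2 + y ^ 2)) := mul_le_mul h8 h9 (by positivity) hB.le
      _ = 2 * ((r ^ 2 + y ^ 2) * (r ^ 2 + y' ^ 2)) := by ring
  have h10 : (y' ^ 2 / (r ^ 2 + y' ^ 2)) ^ 2 - (y ^ 2 / (r ^ 2 + y ^ 2)) ^ 2 =
      (y' ^ 2 / (r ^ 2 + y' ^ 2) - y ^ 2 / (r ^ 2 + y ^ 2)) *
        (y' ^ 2 / (r ^ 2 + y' ^ 2) + y ^ 2 / (r ^ 2 + y ^ 2)) := by ring
  rw [h10]
  refine ⟨mul_nonneg h6 (by linarith), ?_⟩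
  have h11 : (y' ^ 2 / (r ^ 2 + y' ^ 2) - y ^ 2 / (r ^ 2 + y ^ 2)) *
        (y' ^ 2 / (r ^ 2 + y' ^ 2) + y ^ 2 / (r ^ 2 + y ^ 2)) ≤
      (y' ^ 2 / (r ^ 2 + y' ^ 2) - y ^ 2 / (r ^ 2 + y ^ 2)) * 2 :=
    mul_le_mul_of_nonneg_left (by linarith) h6
  calc (y' ^ 2 / (r ^ 2 + y' ^ 2) - y ^ 2 / (r ^ 2 + y ^ 2)) *
        (y' ^ 2 / (r ^ 2 + y' ^ 2) + y ^ 2 / (r ^ 2 + y ^ 2)) * (r + y)
      ≤ (y' ^ 2 / (r ^ 2 + y' ^ 2) - y ^ 2 / (r ^ 2 + y ^ 2)) * 2 * (r + y) :=
        mul_le_mul_of_nonneg_right h11 (by linarith)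
    _ = 2 * ((y' - y) * (r ^ 2 * (y' + y) / ((r ^ 2 + y ^ 2) * (r ^ 2 + y' ^ 2)) * (r + y))) := by
        rw [h4]; ring
    _ ≤ 2 * ((y' - y) * 2) := by
        refine mul_le_mul_of_nonneg_left (mul_le_mul_of_nonneg_left h7 hd) (by norm_num)
    _ ≤ 6 * (y' - y) := by linarith

private theorem omU_def (u w : Vec d) : omU u w = (jb w ^ 2 / (jb u ^ 2 + jb w ^ 2)) ^ 2 := by
  unfold omU
  rw [RR_sq]

private theorem coord_le {ς : ℝ} (hς : ς = 1 ∨ ς = -1) (e : Fin d) (u w w' : Vec d) :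
    |ς * (u e - w e) - ς * (u e - w' e)| ≤ len (w - w') := by
  have h := abs_coord_le (w - w') e
  rw [Pi.sub_apply] at h
  rcases hς with rfl | rfl
  · have : (1 : ℝ) * (u e - w e) - 1 * (u e - w' e) = -(w e - w' e) := by ring
    rw [this, abs_neg]
    exact h
  · have : (-1 : ℝ) * (u e - w e) - (-1) * (u e - w' e) = w e - w' e := by ring
    rw [this]
    exact h

private theorem prof_bd {ς : ℝ} (hς : ς = 1 ∨ ς = -1) (e : Fin d) (u w : Vec d) :
    max (ς * (u e - w e)) 0 ≤ jb u + jb w := by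
  have h1 := (abs_coord_le u e).trans (len_le_jb u)
  have h2 := (abs_coord_le w e).trans (len_le_jb w)
  have h3 := jb_pos u
  have h4 := jb_pos w
  refine max_le ?_ (by linarith)
  have h5 := abs_le.1 h1
  have h6 := abs_le.1 h2
  rcases hς with rfl | rfl <;> linarith [h5.1, h5.2, h6.1, h6.2]

private theorem len_swap (w w' : Vec d) : len (w' - w) = len (w - w') := by
  rw [← len_neg, neg_sub]

private theorem far_lip_aux {ς : ℝ} (hς : ς = 1 ∨ ς = -1) (e : Fin d) (u w w' : Vec d) (hw : jb w ≤ jb w') :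
    |farF ς e u w - farF ς e u w'| ≤ 7 * len (w - w') := by
  have hl := len_nonneg (w - w')
  obtain ⟨h1, h2⟩ := cut_incr (jb_pos u) (jb_pos w) hw
  rw [← omU_def, ← omU_def] at h1 h2
  have h3 := prof_bd hς e u w
  have h3' : 0 ≤ max (ς * (u e - w e)) 0 := le_max_right _ _
  have h4 : |max (ς * (u e - w e)) 0 - max (ς * (u e - w' e)) 0| ≤ len (w - w') := by
    refine (abs_max_sub_max_le_max _ _ _ _).trans ?_
    rw [sub_self, abs_zero]
    exact max_le (coord_le hς e u w w') hl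
  have h5 := omU_nonneg u w'
  have h6 := omU_le_one u w'
  have h7 : jb w' - jb w ≤ len (w - w') := by
    have h := jb_lip w w'
    rw [abs_le] at h
    linarith [h.1]
  have h8 : (omU u w' - omU u w) * max (ς * (u e - w e)) 0 ≤ 6 * len (w - w') := by
    calc (omU u w' - omU u w) * max (ς * (u e - w e)) 0 ≤ (omU u w' - omU u w) * (jb u + jb w) :=
          mul_le_mul_of_nonneg_left h3 h1
      _ ≤ 6 * (jb w' - jb w) := h2
      _ ≤ 6 * len (w - w') := by linarith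
  have h9 : |omU u w' * (max (ς * (u e - w e)) 0 - max (ς * (u e - w' e)) 0)| ≤ len (w - w') := by
    rw [abs_mul, abs_of_nonneg h5]
    calc omU u w' * |max (ς * (u e - w e)) 0 - max (ς * (u e - w' e)) 0| ≤ 1 * len (w - w') :=
          mul_le_mul h6 h4 (abs_nonneg _) zero_le_one
      _ = len (w - w') := one_mul _
  have h10 : farF ς e u w - farF ς e u w' =
      omU u w' * (max (ς * (u e - w e)) 0 - max (ς * (u e - w' e)) 0) -
        (omU u w' - omU u w) * max (ς * (u e - w e)) 0 := by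
    unfold farF
    ring
  have h11 : 0 ≤ (omU u w' - omU u w) * max (ς * (u e - w e)) 0 := mul_nonneg h1 h3'
  rw [h10]
  rw [abs_le] at h9 ⊢
  constructor <;> linarith [h9.1, h9.2]

theorem far_lip {ς : ℝ} (hς : ς = 1 ∨ ς = -1) (e : Fin d) (u w w' : Vec d) :
    |farF ς e u w - farF ς e u w'| ≤ 7 * len (w - w') := by
  rcases le_total (jb w) (jb w') with h | h
  · exact far_lip_aux hς e u w w' h
  · have h1 := far_lip_aux hς e u w' w h
    rw [abs_sub_comm, len_swap] at h1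
    exact h1

theorem nea_holder (U : UE s a m q) {ς : ℝ} (hς : ς = 1 ∨ ς = -1) (e : Fin d) (hsg : 0 < sg) (hsg1 : sg ≤ 1)
    (u w w' : Vec d) : |neaF ς a sg e u w - neaF ς a sg e u w'| ≤ 6 * x0 a sg ^ a * len (w - w') ^ m := by
  have ha : 0 < a := by linarith [U.hs, U.has]
  have ha1 : a < 1 := by linarith [U.hs, U.ha1]
  have hm : 0 < m := by linarith [U.hs, U.hm]
  have hm1 : m ≤ 1 := by linarith [U.hma]
  have hl := len_nonneg (w - w')
  have hx0 : 1 ≤ x0 a sg ^ a := Real.one_le_rpow (x0_ge ha1 hsg hsg1) ha.le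
  have h1 := nr_holder (m := m) ha ha1 hm U.hma hsg hsg1 (ς * (u e - w e)) (ς * (u e - w' e))
  have h2 : |ς * (u e - w e) - ς * (u e - w' e)| ^ m ≤ len (w - w') ^ m :=
    Real.rpow_le_rpow (abs_nonneg _) (coord_le hς e u w w') hm.le
  have h3 : |nrP a sg (ς * (u e - w e)) - nrP a sg (ς * (u e - w' e))| ≤ 2 * x0 a sg ^ a * len (w - w') ^ m :=
    h1.trans (mul_le_mul_of_nonneg_left h2 (by linarith))
  have h4 : |omU u w - omU u w'| ≤ 4 * len (w - w') ^ m := by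
    rcases le_total (len (w - w')) 1 with h | h
    · have h5 : len (w - w') ≤ len (w - w') ^ m := by
        rcases hl.eq_or_lt with h6 | h6
        · rw [← h6, Real.zero_rpow hm.ne']
        · have h7 := Real.rpow_le_rpow_of_exponent_ge h6 h hm1
          rwa [Real.rpow_one] at h7
      exact (omU_lip2 u w w').trans (by linarith)
    · have h5 : 1 ≤ len (w - w') ^ m := Real.one_le_rpow h hm.le
      have h6 := omU_nonneg u w
      have h7 := omU_nonneg u w'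
      have h8 := omU_le_one u w
      have h9 := omU_le_one u w'
      rw [abs_le]
      constructor <;> linarith
  have h5 := nr_nonneg (a := a) hsg (ς * (u e - w' e))
  have h6 := (nr_le (a := a) (sg := sg) (ς * (u e - w' e))).2
  have h7 := omU_nonneg u w
  have h8 := omU_le_one u w
  have hlm : 0 ≤ len (w - w') ^ m := Real.rpow_nonneg hl _
  have h9 : neaF ς a sg e u w - neaF ς a sg e u w' =
      omU u w * (nrP a sg (ς * (u e - w e)) - nrP a sg (ς * (u e - w' e))) +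
        (omU u w - omU u w') * nrP a sg (ς * (u e - w' e)) := by
    unfold neaF
    ring
  rw [h9]
  refine (abs_add_le _ _).trans ?_
  rw [abs_mul, abs_mul, abs_of_nonneg h7, abs_of_nonneg h5]
  have h10 : omU u w * |nrP a sg (ς * (u e - w e)) - nrP a sg (ς * (u e - w' e))| ≤
      1 * (2 * x0 a sg ^ a * len (w - w') ^ m) := mul_le_mul h8 h3 (abs_nonneg _) zero_le_one
  have h11 : |omU u w - omU u w'| * nrP a sg (ς * (u e - w' e)) ≤ 4 * len (w - w') ^ m * x0 a sg ^ a :=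
    mul_le_mul h4 h6 h5 (by linarith)
  calc omU u w * |nrP a sg (ς * (u e - w e)) - nrP a sg (ς * (u e - w' e))| +
        |omU u w - omU u w'| * nrP a sg (ς * (u e - w' e))
      ≤ 1 * (2 * x0 a sg ^ a * len (w - w') ^ m) + 4 * len (w - w') ^ m * x0 a sg ^ a := add_le_add h10 h11
    _ = 6 * x0 a sg ^ a * len (w - w') ^ m := by ring

private theorem pair_cont (u : Vec d) : Continuous fun w : Vec d => (u, w) :=
  Continuous.prodMk continuous_const continuous_id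

private theorem om_cont (u : Vec d) : Continuous fun w : Vec d => omU u w := by
  have h := (omU_cont (d := d)).comp (pair_cont u)
  exact h

private theorem arg_cont (ς : ℝ) (e : Fin d) (u : Vec d) : Continuous fun w : Vec d => ς * (u e - w e) :=
  continuous_const.mul (continuous_const.sub (continuous_apply e))

theorem far_cont (ς : ℝ) (e : Fin d) (u : Vec d) : Continuous (farF ς e u) := by
  unfold farF
  exact (om_cont u).mul ((arg_cont ς e u).max continuous_const)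

theorem nea_cont (ha : 0 < a) (ς sg : ℝ) (e : Fin d) (u : Vec d) : Continuous (neaF ς a sg e u) := by
  unfold neaF
  exact (om_cont u).mul ((nr_cont ha).comp (arg_cont ς e u))

theorem psi_pg (U : UE s a m q) (e : Fin d) (hsg : 0 < sg) (hsg1 : sg ≤ 1) (z : ℝ) (u : Vec d) :
    PG (fun w => z * PO e a sg u w + PE e a sg u w) ∧ Continuous (fun w => z * PO e a sg u w + PE e a sg u w) := by
  have ha : 0 < a := by linarith [U.hs, U.has]
  have ha1 : a < 1 := by linarith [U.hs, U.ha1]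
  have hO := Pool.Agent.H48.PV.PO_PGW ha ha1 hsg hsg1 e
  have hE := Pool.Agent.H48.PV.PE_PGW ha ha1 hsg hsg1 e
  constructor
  · have hA : 0 ≤ x0 a sg ^ a := Real.rpow_nonneg (le_trans zero_le_one (x0_ge ha1 hsg hsg1)) _
    refine ⟨1, (|z| + 1) * ((2 + x0 a sg ^ a) * ((d : ℝ) + 1)), fun w => ?_⟩
    obtain ⟨h1, h2⟩ := Pool.Agent.H48.PV.PO_abs ha ha1 hsg hsg1 e u w
    have h3 := jb_le_w w
    have h4 : (2 + x0 a sg ^ a) * jb w ≤ (2 + x0 a sg ^ a) * (((d : ℝ) + 1) * (1 + ‖w‖)) :=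
      mul_le_mul_of_nonneg_left h3 (by linarith)
    rw [pow_one, Real.norm_eq_abs]
    refine (abs_add_le _ _).trans ?_
    rw [abs_mul]
    calc |z| * |PO e a sg u w| + |PE e a sg u w|
        ≤ |z| * ((2 + x0 a sg ^ a) * (((d : ℝ) + 1) * (1 + ‖w‖))) +
          (2 + x0 a sg ^ a) * (((d : ℝ) + 1) * (1 + ‖w‖)) :=
          add_le_add (mul_le_mul_of_nonneg_left (h1.trans h4) (abs_nonneg _)) (h2.trans h4)
      _ = (|z| + 1) * ((2 + x0 a sg ^ a) * ((d : ℝ) + 1)) * (1 + ‖w‖) := by ring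
  · have h1 := hO.1.comp (pair_cont u)
    have h2 := hE.1.comp (pair_cont u)
    exact (continuous_const.mul h1).add h2

theorem psi_hol (U : UE s a m q) (e : Fin d) (hsg : 0 < sg) (hsg1 : sg ≤ 1) {z : ℝ} (hz : |z| ≤ 1 / 2) (u : Vec d)
    {R₁ : ℝ} (hR : 1 ≤ R₁) {w w' : Vec d} (hw : jb w ≤ R₁) (hw' : jb w' ≤ R₁) :
    |(z * PO e a sg u w + PE e a sg u w) - (z * PO e a sg u w' + PE e a sg u w')| ≤
      (14 * R₁ + 6 * x0 a sg ^ a) * len (w - w') ^ m := by
  have ha1 : a < 1 := by linarith [U.hs, U.ha1]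
  have hm : 0 < m := by linarith [U.hs, U.hm]
  have hm1 : m < 1 := by linarith [U.hma]
  have hl := len_nonneg (w - w')
  have hlm : 0 ≤ len (w - w') ^ m := Real.rpow_nonneg hl _
  have h2R : len (w - w') ≤ 2 * R₁ := by
    have h1 := len_sub_le w w'
    have h2 := len_le_jb w
    have h3 := len_le_jb w'
    linarith
  -- the linear bound becomes a Hoelder bound on bounded sets
  have hlin : 7 * len (w - w') ≤ 14 * R₁ * len (w - w') ^ m := by
    rcases hl.eq_or_lt with h6 | h6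
    · rw [← h6, Real.zero_rpow hm.ne']
      simp
    · have h7 : len (w - w') = len (w - w') ^ (1 - m) * len (w - w') ^ m := by
        rw [← Real.rpow_add h6]
        have : 1 - m + m = 1 := by ring
        rw [this, Real.rpow_one]
      have h8 : len (w - w') ^ (1 - m) ≤ 2 * R₁ := by
        calc len (w - w') ^ (1 - m) ≤ (2 * R₁) ^ (1 - m) := Real.rpow_le_rpow hl h2R (by linarith)
          _ ≤ (2 * R₁) ^ (1 : ℝ) := Real.rpow_le_rpow_of_exponent_le (by linarith) (by linarith)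
          _ = 2 * R₁ := Real.rpow_one _
      calc 7 * len (w - w') = 7 * (len (w - w') ^ (1 - m) * len (w - w') ^ m) := by rw [← h7]
        _ ≤ 7 * (2 * R₁ * len (w - w') ^ m) :=
            mul_le_mul_of_nonneg_left (mul_le_mul_of_nonneg_right h8 hlm) (by norm_num)
        _ = 14 * R₁ * len (w - w') ^ m := by ring
  have hside : ∀ ς : ℝ, (ς = 1 ∨ ς = -1) →
      |(sg * farF ς e u w + neaF ς a sg e u w) - (sg * farF ς e u w' + neaF ς a sg e u w')| ≤
        (14 * R₁ + 6 * x0 a sg ^ a) * len (w - w') ^ m := by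
    intro ς hς
    have h1 := far_lip hς e u w w'
    have h2 := nea_holder U hς e hsg hsg1 u w w'
    have h3 : (sg * farF ς e u w + neaF ς a sg e u w) - (sg * farF ς e u w' + neaF ς a sg e u w') =
        sg * (farF ς e u w - farF ς e u w') + (neaF ς a sg e u w - neaF ς a sg e u w') := by ring
    rw [h3]
    refine (abs_add_le _ _).trans ?_
    rw [abs_mul, abs_of_pos hsg]
    have h4 : sg * |farF ς e u w - farF ς e u w'| ≤ 1 * (7 * len (w - w')) :=
      mul_le_mul hsg1 h1 (abs_nonneg _) zero_le_one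
    calc sg * |farF ς e u w - farF ς e u w'| + |neaF ς a sg e u w - neaF ς a sg e u w'|
        ≤ 14 * R₁ * len (w - w') ^ m + 6 * x0 a sg ^ a * len (w - w') ^ m := by linarith
      _ = (14 * R₁ + 6 * x0 a sg ^ a) * len (w - w') ^ m := by ring
  have hP := hside 1 (Or.inl rfl)
  have hM := hside (-1) (Or.inr rfl)
  rw [← PP_eq, ← PP_eq] at hP
  rw [← PM_eq, ← PM_eq] at hM
  rw [psi_eq, psi_eq]
  have hz' := abs_le.1 hz
  have hz1 : 0 ≤ 1 / 2 + z := by linarith [hz'.1]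
  have hz2 : 0 ≤ 1 / 2 - z := by linarith [hz'.2]
  have h5 : ((1 / 2 + z) * PP e a sg u w + (1 / 2 - z) * PM e a sg u w) -
      ((1 / 2 + z) * PP e a sg u w' + (1 / 2 - z) * PM e a sg u w') =
      (1 / 2 + z) * (PP e a sg u w - PP e a sg u w') + (1 / 2 - z) * (PM e a sg u w - PM e a sg u w') := by ring
  rw [h5]
  refine (abs_add_le _ _).trans ?_
  rw [abs_mul, abs_mul, abs_of_nonneg hz1, abs_of_nonneg hz2]
  have h6 := mul_le_mul_of_nonneg_left hP hz1
  have h7 := mul_le_mul_of_nonneg_left hM hz2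
  calc (1 / 2 + z) * |PP e a sg u w - PP e a sg u w'| + (1 / 2 - z) * |PM e a sg u w - PM e a sg u w'|
      ≤ (1 / 2 + z) * ((14 * R₁ + 6 * x0 a sg ^ a) * len (w - w') ^ m) +
        (1 / 2 - z) * ((14 * R₁ + 6 * x0 a sg ^ a) * len (w - w') ^ m) := add_le_add h6 h7
    _ = (14 * R₁ + 6 * x0 a sg ^ a) * len (w - w') ^ m := by ring

end Pool.Agent.H85.UP
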