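import Pool.Agent.H48.PL.JB

/-!
# Module GCol: geometry of a collision

`RR² = jb v² + jb w²` is conserved (`RR_sq`, `RR_post`), `post = c + (L/2)σ`, `post' = c - (L/2)σ`, `c = (v+w)/2`, `L = len (v-w)` (definitions in H25/Kin/BDefs).
* `col_t`: `jb v² - RR²/2 = (jb v² - jb w²)/2 = dot (v-w) (v+w)/2`, `len (v+w) ≤ 2 RR` (`nsq (v+w) ≤ 2 nsq v + 2 nsq w ≤ 2 RR²`, Cauchy-Schwarz as in JB `len_add_le`).
* `col_dt`: `|jb x² - jb y²| = |jb x - jb y| (jb x + jb y)`, `jb_lip`, `jb_post_le`, `jb_le_RR_left`.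
* `col_len_post`: `nsq_post_sub`; `col_post'`: `post' - w = -(post - v)`.
* `col_dot_e`: `(v-w)_e` in terms of the direction: `|post_e - post'_e| = L |σ_e|`.
-/

set_option autoImplicit false

open MeasureTheory Set Filter Topology Pool.Agent.H25.Kin Pool.Agent.H48.PL

namespace Pool.Agent.H85.UP

variable {d : ℕ} {v w σ : Vec d}

private theorem gcol_sq {x y R L : ℝ} (hx : 0 ≤ x) (hy : 0 ≤ y) (hxR : x ≤ R) (hyR : y ≤ R)
    (h : |x - y| ≤ L) : |x ^ 2 - y ^ 2| ≤ 2 * R * L := by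
  have e : x ^ 2 - y ^ 2 = (x + y) * (x - y) := by ring
  rw [e, abs_mul, abs_of_nonneg (add_nonneg hx hy)]
  have hL : 0 ≤ L := (abs_nonneg _).trans h
  calc (x + y) * |x - y| ≤ (x + y) * L := mul_le_mul_of_nonneg_left h (by linarith)
    _ ≤ 2 * R * L := mul_le_mul_of_nonneg_right (by linarith) hL

theorem col_t (v w : Vec d) : |jb v ^ 2 - RR v w ^ 2 / 2| ≤ len (v - w) * RR v w := by
  have h := gcol_sq (jb_pos v).le (jb_pos w).le (jb_le_RR_left v w) (jb_le_RR_right v w)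
    (jb_lip v w)
  have e : jb v ^ 2 - RR v w ^ 2 / 2 = (jb v ^ 2 - jb w ^ 2) / 2 := by
    rw [RR_sq]
    ring
  rw [e, abs_div, abs_of_pos (show (0 : ℝ) < 2 by norm_num)]
  linarith

theorem col_t' (v w : Vec d) : jb w ^ 2 = RR v w ^ 2 / 2 - (jb v ^ 2 - RR v w ^ 2 / 2) := by
  rw [RR_sq]
  ring

theorem col_post_t (hσ : nsq σ = 1) :
    jb (post' v w σ) ^ 2 = RR v w ^ 2 / 2 - (jb (post v w σ) ^ 2 - RR v w ^ 2 / 2) ∧
    |jb (post v w σ) ^ 2 - RR v w ^ 2 / 2| ≤ len (v - w) * RR v w := by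
  have h1 := col_t' (post v w σ) (post' v w σ)
  have h2 := col_t (post v w σ) (post' v w σ)
  rw [RR_post hσ] at h1 h2
  rw [len_post hσ] at h2
  exact ⟨h1, h2⟩

theorem col_len (hσ : nsq σ = 1) : len (post v w σ - post' v w σ) = len (v - w) :=
  len_post hσ

theorem col_sum (v w σ : Vec d) (e : Fin d) : post v w σ e + post' v w σ e = v e + w e :=
  congrFun (post_add_post' v w σ) e

theorem col_diff (v w σ : Vec d) (e : Fin d) : post v w σ e - post' v w σ e = len (v - w) * σ e :=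
  congrFun (post_sub_post' v w σ) e

theorem col_dt (hσ : nsq σ = 1) :
    |jb (post v w σ) ^ 2 - jb v ^ 2| ≤ 2 * RR v w * len (post v w σ - v) :=
  gcol_sq (jb_pos _).le (jb_pos v).le (jb_post_le hσ) (jb_le_RR_left v w) (jb_lip _ v)

theorem col_len_post (hvw : v ≠ w) (hσ : nsq σ = 1) :
    len (post v w σ - v) = len (v - w) * ((1 - cosTh v w σ) / 2) ^ (1 / 2 : ℝ) := by
  have h := nsq_post_sub hvw hσ
  unfold len at h ⊢
  rw [h, Real.sqrt_mul (sq_nonneg' _), ← Real.sqrt_eq_rpow]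

theorem col_post' (v w σ : Vec d) : len (post' v w σ - w) = len (post v w σ - v) := by
  have e : post' v w σ - w = -(post v w σ - v) := by
    rw [post'_eq, post_eq]
    abel
  rw [e, len_neg]

theorem col_coord (hσ : nsq σ = 1) (e : Fin d) : |post v w σ e| ≤ RR v w ∧ |post' v w σ e| ≤ RR v w ∧
    |(v e + w e) / 2| ≤ RR v w ∧ |v e - w e| ≤ len (v - w) ∧ |post v w σ e - v e| ≤ len (post v w σ - v) := by
  refine ⟨?_, ?_, ?_, ?_, ?_⟩
  · exact (abs_coord_le _ e).trans ((len_le_jb _).trans (jb_post_le hσ))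
  · exact (abs_coord_le _ e).trans ((len_le_jb _).trans (jb_post'_le hσ))
  · have h1 := (abs_coord_le v e).trans ((len_le_jb v).trans (jb_le_RR_left v w))
    have h2 := (abs_coord_le w e).trans ((len_le_jb w).trans (jb_le_RR_right v w))
    rw [abs_le] at h1 h2 ⊢
    constructor <;> linarith [h1.1, h1.2, h2.1, h2.2]
  · exact abs_coord_le (v - w) e
  · exact abs_coord_le (post v w σ - v) e

/-- powers of the distance: for `0 < m ≤ 1`, `len (post - v)^m ≤ L^m y^(m/2)`, `y = 1 - cosTh` -/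
theorem col_pow {m : ℝ} (hm : 0 < m) (hvw : v ≠ w) (hσ : nsq σ = 1) :
    len (post v w σ - v) ^ m ≤ len (v - w) ^ m * (1 - cosTh v w σ) ^ (m / 2) := by
  have h0 := one_sub_cosTh_nonneg (v := v) (w := w) hσ
  have hL := len_nonneg (v - w)
  rw [col_len_post hvw hσ, Real.mul_rpow hL (by positivity), ← Real.rpow_mul (by linarith)]
  have e : (1 : ℝ) / 2 * m = m / 2 := by ring
  rw [e]
  refine mul_le_mul_of_nonneg_left ?_ (Real.rpow_nonneg hL m)
  exact Real.rpow_le_rpow (by linarith) (by linarith) (by linarith)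

end Pool.Agent.H85.UP
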