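import Mathlib

/-!
# Module GEv: even and odd increments of a `C²` function

`G` is `C²` on `[A-ρ, A+ρ]`, `|G'| ≤ κ₁`, `|G''| ≤ κ₂` there. Even part `Ge(t) = G(A+t)+G(A-t)`, odd part `Go(t) = G(A+t)-G(A-t)`, `|t|, |t'| ≤ ρ`.
Proof. `Ge'(τ) = G'(A+τ)-G'(A-τ)`, `|Ge'(τ)| ≤ κ₂ · 2|τ|` (mean value inequality for `G'`), and on the segment between `t` and `t'` one has
`|τ| ≤ |t|+|t'|`: `|Ge(t')-Ge(t)| ≤ 2κ₂(|t|+|t'|)|t'-t|` (mean value inequality `Convex.norm_image_sub_le_of_norm_hasDerivWithin_le` on `uIcc t t'`).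
`|Go'| ≤ 2κ₁`, `Go(0) = 0`.
-/

set_option autoImplicit false

open Set

namespace Pool.Agent.H85.UP

private lemma gev_mem {A ρ u : ℝ} (hu : |u| ≤ ρ) : A + u ∈ Icc (A - ρ) (A + ρ) := by
  obtain ⟨a, b⟩ := abs_le.1 hu
  exact ⟨by linarith, by linarith⟩

private lemma gev_memn {A ρ u : ℝ} (hu : |u| ≤ ρ) : A - u ∈ Icc (A - ρ) (A + ρ) := by
  obtain ⟨a, b⟩ := abs_le.1 hu
  exact ⟨by linarith, by linarith⟩

private lemma gev_seg {t t' u : ℝ} (hu : u ∈ uIcc t t') : |u| ≤ max |t| |t'| := by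
  rcases mem_uIcc.1 hu with ⟨a, b⟩ | ⟨a, b⟩
  · rw [abs_le]
    constructor
    · have := neg_abs_le t
      have := le_max_left |t| |t'|
      linarith
    · have := le_abs_self t'
      have := le_max_right |t| |t'|
      linarith
  · rw [abs_le]
    constructor
    · have := neg_abs_le t'
      have := le_max_right |t| |t'|
      linarith
    · have := le_abs_self t
      have := le_max_left |t| |t'|
      linarith

private lemma gev_dp {G G1 : ℝ → ℝ} {A ρ : ℝ}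
    (h1 : ∀ x ∈ Icc (A - ρ) (A + ρ), HasDerivAt G (G1 x) x) {u : ℝ} (hu : |u| ≤ ρ) :
    HasDerivAt (fun s => G (A + s)) (G1 (A + u)) u := by
  have h := (h1 _ (gev_mem hu)).comp u ((hasDerivAt_id u).const_add A)
  simpa [Function.comp_def] using h

private lemma gev_dm {G G1 : ℝ → ℝ} {A ρ : ℝ}
    (h1 : ∀ x ∈ Icc (A - ρ) (A + ρ), HasDerivAt G (G1 x) x) {u : ℝ} (hu : |u| ≤ ρ) :
    HasDerivAt (fun s => G (A - s)) (-G1 (A - u)) u := by
  have h := (h1 _ (gev_memn hu)).comp u ((hasDerivAt_id u).const_sub A)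
  simpa [Function.comp_def] using h

private lemma gev_mv {f f' : ℝ → ℝ} {C a b : ℝ} (hf : ∀ x ∈ uIcc a b, HasDerivAt f (f' x) x)
    (hb : ∀ x ∈ uIcc a b, |f' x| ≤ C) : |f b - f a| ≤ C * |b - a| :=
  Convex.norm_image_sub_le_of_norm_hasDerivWithin_le (fun x hx => (hf x hx).hasDerivWithinAt)
    (fun x hx => hb x hx) (convex_uIcc a b) left_mem_uIcc right_mem_uIcc

private lemma gev_odd {G G1 : ℝ → ℝ} {A ρ κ₁ : ℝ}
    (h1 : ∀ x ∈ Icc (A - ρ) (A + ρ), HasDerivAt G (G1 x) x)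
    (b1 : ∀ x ∈ Icc (A - ρ) (A + ρ), |G1 x| ≤ κ₁) {t t' : ℝ} (ht : |t| ≤ ρ) (ht' : |t'| ≤ ρ) :
    |(G (A + t') - G (A - t')) - (G (A + t) - G (A - t))| ≤ 2 * κ₁ * |t' - t| := by
  refine gev_mv (f := fun s => G (A + s) - G (A - s)) (f' := fun s => G1 (A + s) - -G1 (A - s))
    (fun u hu => ?_) (fun u hu => ?_)
  · have hur : |u| ≤ ρ := (gev_seg hu).trans (max_le ht ht')
    exact (gev_dp h1 hur).sub (gev_dm h1 hur)
  · have hur : |u| ≤ ρ := (gev_seg hu).trans (max_le ht ht')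
    have e1 := b1 _ (gev_mem (A := A) hur)
    have e2 := b1 _ (gev_memn (A := A) hur)
    have e3 : |G1 (A + u) - -G1 (A - u)| ≤ |G1 (A + u)| + |G1 (A - u)| := by
      rw [sub_neg_eq_add]
      exact abs_add_le _ _
    linarith

theorem ev_od {G G1 G2 : ℝ → ℝ} {A ρ κ₁ κ₂ : ℝ}
    (h1 : ∀ x ∈ Icc (A - ρ) (A + ρ), HasDerivAt G (G1 x) x)
    (h2 : ∀ x ∈ Icc (A - ρ) (A + ρ), HasDerivAt G1 (G2 x) x)
    (b1 : ∀ x ∈ Icc (A - ρ) (A + ρ), |G1 x| ≤ κ₁) (b2 : ∀ x ∈ Icc (A - ρ) (A + ρ), |G2 x| ≤ κ₂)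
    {t t' : ℝ} (ht : |t| ≤ ρ) (ht' : |t'| ≤ ρ) :
    |(G (A + t') + G (A - t')) - (G (A + t) + G (A - t))| ≤ 2 * κ₂ * (|t| + |t'|) * |t' - t| ∧
    |G (A + t) - G (A - t)| ≤ 2 * κ₁ * |t| ∧
    |(G (A + t') - G (A - t')) - (G (A + t) - G (A - t))| ≤ 2 * κ₁ * |t' - t| := by
  have hρ : 0 ≤ ρ := (abs_nonneg t).trans ht
  have hA : A ∈ Icc (A - ρ) (A + ρ) := ⟨by linarith, by linarith⟩
  have hκ₂ : 0 ≤ κ₂ := (abs_nonneg _).trans (b2 A hA)
  refine ⟨?_, ?_, gev_odd h1 b1 ht ht'⟩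
  · refine gev_mv (f := fun s => G (A + s) + G (A - s)) (f' := fun s => G1 (A + s) + -G1 (A - s))
      (fun u hu => ?_) (fun u hu => ?_)
    · have hur : |u| ≤ ρ := (gev_seg hu).trans (max_le ht ht')
      exact (gev_dp h1 hur).add (gev_dm h1 hur)
    · have hus := gev_seg hu
      have hur : |u| ≤ ρ := hus.trans (max_le ht ht')
      have hsum : |u| ≤ |t| + |t'| :=
        hus.trans (max_le (by linarith [abs_nonneg t']) (by linarith [abs_nonneg t]))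
      have e : |G1 (A + u) - G1 (A - u)| ≤ κ₂ * |(A + u) - (A - u)| := by
        refine gev_mv (f := G1) (f' := G2) (fun x hx => ?_) (fun x hx => ?_)
        · have hx' : x ∈ Icc (A - ρ) (A + ρ) :=
            (convex_Icc (A - ρ) (A + ρ)).ordConnected.uIcc_subset (gev_memn hur) (gev_mem hur) hx
          exact h2 x hx'
        · have hx' : x ∈ Icc (A - ρ) (A + ρ) :=
            (convex_Icc (A - ρ) (A + ρ)).ordConnected.uIcc_subset (gev_memn hur) (gev_mem hur) hx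
          exact b2 x hx'
      have e2 : |(A + u) - (A - u)| = 2 * |u| := by
        rw [show (A + u) - (A - u) = 2 * u by ring, abs_mul, abs_two]
      rw [e2] at e
      show |G1 (A + u) + -G1 (A - u)| ≤ 2 * κ₂ * (|t| + |t'|)
      rw [← sub_eq_add_neg]
      have e3 : κ₂ * (2 * |u|) ≤ κ₂ * (2 * (|t| + |t'|)) :=
        mul_le_mul_of_nonneg_left (by linarith) hκ₂
      linarith
  · have h := gev_odd (t := 0) (t' := t) h1 b1 (by rw [abs_zero]; exact hρ) ht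
    rw [add_zero, sub_zero, sub_self, sub_zero, sub_zero] at h
    exact h

end Pool.Agent.H85.UP
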