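import Pool.Agent.H85.UP.FDef
import Pool.Agent.H85.UP.GEv
import Pool.Agent.H85.UP.GCol

/-!
# Module FInc: the increment of the far part for `4 L ≤ RR`

`P w = (ς(u_e-w_e))₊`, `W(τ) = (τ/(r²+τ))²`, `r = jb u`, `f = farF ς e u`, `f w = W(jb w²) P w` (`RR u w² = r²+jb w²`). `A = RR²/2`, `t = jb v² - A`, `t' = jb post² - A` (GCol), `|t|,|t'| ≤ L RR ≤ RR²/4 = ρ`, `|t'-t| ≤ 2 RR l`, `l = len (post-v)`.
`f v + f w = (1/2) We(t) (P v+P w) + (1/2) Wo(t)(P v-P w)`, `We(t) = W(A+t)+W(A-t)`, `Wo(t) = W(A+t)-W(A-t)`. Hence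
`Δ = f post + f post' - f v - f w = (1/2) We(t) [(P post+P post')-(P v+P w)]` (I) `+ (1/2)(We(t')-We(t))(P post+P post')` (II) `+ (1/2) Wo(t')[(P post-P post')-(P v-P w)]` (III) `+ (1/2)(Wo(t')-Wo(t))(P v-P w)` (IV).
(I): `max(x-y,0)+max(x+y,0) = x + max|x||y|` with `x = ς(u_e-c_e)`, `y = ς(v_e-w_e)/2`, `c_e = (v_e+w_e)/2`: `P v + P w = x + max |x| |v_e-w_e|/2`; the same `x` for `post, post'` (`col_sum`). `|x| = |2u_e-v_e-w_e|/2`, `We(t) = omU u v + omU u w`: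
  (I) `= (1/4)(omU u v+omU u w)(max |2u_e-v_e-w_e| |post_e-post'_e| - max |2u_e-v_e-w_e| |v_e-w_e|)`.
On `[RR²/4, 3RR²/4]`, `r²+τ ≥ S²/4`, `S² = r²+RR²`: `W' = 2τr²/(r²+τ)³`, `|W'| ≤ 2r²/(r²+τ)² ≤ κ₁ = 32 r²/S⁴`; `W'' = 2r²(r²-2τ)/(r²+τ)⁴`, `|W''| ≤ 4r²/(r²+τ)³ ≤ κ₂ = 256 r²/S⁶`. `ev_od`:
(II) `≤ (1/2) 2κ₂ (2L RR)(2RR l) 2(r+RR) = 8 κ₂ L RR² l (r+RR) = 2048 r² RR² (r+RR) L l/S⁶ ≤ 2048 (L/RR) l`, as `r²RR³(r+RR) ≤ S⁶` (`P post + P post' ≤ 2(r+RR)`, `col_coord`);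
(III) `≤ (1/2) 2κ₁ L RR · 2l = 64 r² RR L l/S⁴ ≤ 64 (L/RR) l` (`|P x - P y| ≤ |x_e-y_e|`); (IV) `≤ (1/2) 2κ₁ 2RR l · L ≤ 64 (L/RR) l`. `K = 2200`.
-/

set_option autoImplicit false

open MeasureTheory Set Filter Topology Pool.Agent.H25.Kin Pool.Agent.H48.PL

namespace Pool.Agent.H85.UP

variable {d : ℕ}

private noncomputable def wF (r τ : ℝ) : ℝ := (τ / (r ^ 2 + τ)) ^ 2

private noncomputable def wF1 (r τ : ℝ) : ℝ := 2 * τ * r ^ 2 / (r ^ 2 + τ) ^ 3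

private noncomputable def wF2 (r τ : ℝ) : ℝ := 2 * r ^ 2 * (r ^ 2 - 2 * τ) / (r ^ 2 + τ) ^ 4

private lemma wF_der {r τ : ℝ} (h : 0 < r ^ 2 + τ) : HasDerivAt (wF r) (wF1 r τ) τ := by
  have h1 : HasDerivAt (fun τ : ℝ => r ^ 2 + τ) 1 τ := (hasDerivAt_id τ).const_add _
  have h2 : HasDerivAt (fun τ : ℝ => τ / (r ^ 2 + τ)) ((1 * (r ^ 2 + τ) - τ * 1) / (r ^ 2 + τ) ^ 2) τ :=
    (hasDerivAt_id τ).fun_div h1 h.ne'
  have h3 := h2.fun_pow 2
  refine h3.congr_deriv ?_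
  unfold wF1
  have h4 := h.ne'
  rw [Nat.cast_ofNat, show (2 - 1 : ℕ) = 1 from rfl, pow_one]
  field_simp
  ring

private lemma wF1_der {r τ : ℝ} (h : 0 < r ^ 2 + τ) : HasDerivAt (wF1 r) (wF2 r τ) τ := by
  have h1 : HasDerivAt (fun τ : ℝ => r ^ 2 + τ) 1 τ := (hasDerivAt_id τ).const_add _
  have h2 : HasDerivAt (fun τ : ℝ => 2 * τ * r ^ 2) (2 * r ^ 2) τ := by
    have := ((hasDerivAt_id τ).const_mul (2 : ℝ)).mul_const (r ^ 2)
    simpa using this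
  have h3 := h2.fun_div (h1.fun_pow 3) (pow_ne_zero 3 h.ne')
  refine h3.congr_deriv ?_
  unfold wF2
  have h4 := h.ne'
  field_simp
  ring

private lemma wF1_le {r R x : ℝ} (hr : 0 < r) (hR : 0 < R)
    (hx : x ∈ Icc (R ^ 2 / 2 - R ^ 2 / 4) (R ^ 2 / 2 + R ^ 2 / 4)) :
    |wF1 r x| ≤ 32 * r ^ 2 / (r ^ 2 + R ^ 2) ^ 2 := by
  have h0 := hx.1
  have hR2 : 0 < R ^ 2 := by positivity
  have hr2 : 0 < r ^ 2 := by positivity
  have h1 : 0 < x := by linarith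
  have h3 : 0 < r ^ 2 + x := by linarith
  have h2 : (r ^ 2 + R ^ 2) / 4 ≤ r ^ 2 + x := by linarith
  have h4 : 0 ≤ wF1 r x := by unfold wF1; positivity
  rw [abs_of_nonneg h4]
  have h5 : wF1 r x ≤ 2 * r ^ 2 / (r ^ 2 + x) ^ 2 := by
    unfold wF1
    rw [div_le_div_iff₀ (by positivity) (by positivity)]
    have : 2 * r ^ 2 * (r ^ 2 + x) ^ 2 * x ≤ 2 * r ^ 2 * (r ^ 2 + x) ^ 2 * (r ^ 2 + x) :=
      mul_le_mul_of_nonneg_left (by linarith) (by positivity)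
    calc _ = 2 * r ^ 2 * (r ^ 2 + x) ^ 2 * x := by ring
      _ ≤ _ := this
      _ = _ := by ring
  refine h5.trans ?_
  have h8 : ((r ^ 2 + R ^ 2) / 4) ^ 2 ≤ (r ^ 2 + x) ^ 2 := pow_le_pow_left₀ (by positivity) h2 2
  rw [div_le_div_iff₀ (by positivity) (by positivity)]
  have h9 := mul_le_mul_of_nonneg_left h8 (by positivity : 0 ≤ 32 * r ^ 2)
  calc _ = 32 * r ^ 2 * ((r ^ 2 + R ^ 2) / 4) ^ 2 := by ring
    _ ≤ _ := h9

private lemma wF2_le {r R x : ℝ} (hr : 0 < r) (hR : 0 < R)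
    (hx : x ∈ Icc (R ^ 2 / 2 - R ^ 2 / 4) (R ^ 2 / 2 + R ^ 2 / 4)) :
    |wF2 r x| ≤ 256 * r ^ 2 / (r ^ 2 + R ^ 2) ^ 3 := by
  have h0 := hx.1
  have hR2 : 0 < R ^ 2 := by positivity
  have hr2 : 0 < r ^ 2 := by positivity
  have h1 : 0 < x := by linarith
  have h3 : 0 < r ^ 2 + x := by linarith
  have h2 : (r ^ 2 + R ^ 2) / 4 ≤ r ^ 2 + x := by linarith
  have h5 : |wF2 r x| ≤ 4 * r ^ 2 / (r ^ 2 + x) ^ 3 := by
    unfold wF2
    rw [abs_div, abs_mul, abs_of_nonneg (by positivity : (0 : ℝ) ≤ 2 * r ^ 2),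
      abs_of_nonneg (by positivity : (0 : ℝ) ≤ (r ^ 2 + x) ^ 4), div_le_div_iff₀ (by positivity) (by positivity)]
    have h6 : |r ^ 2 - 2 * x| ≤ 2 * (r ^ 2 + x) := by
      rw [abs_le]
      constructor <;> linarith
    have h7 : 0 ≤ 2 * r ^ 2 * (r ^ 2 + x) ^ 3 := by positivity
    calc 2 * r ^ 2 * |r ^ 2 - 2 * x| * (r ^ 2 + x) ^ 3 = 2 * r ^ 2 * (r ^ 2 + x) ^ 3 * |r ^ 2 - 2 * x| := by ring
      _ ≤ 2 * r ^ 2 * (r ^ 2 + x) ^ 3 * (2 * (r ^ 2 + x)) := mul_le_mul_of_nonneg_left h6 h7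
      _ = _ := by ring
  refine h5.trans ?_
  have h8 : ((r ^ 2 + R ^ 2) / 4) ^ 3 ≤ (r ^ 2 + x) ^ 3 := pow_le_pow_left₀ (by positivity) h2 3
  rw [div_le_div_iff₀ (by positivity) (by positivity)]
  have h9 := mul_le_mul_of_nonneg_left h8 (by positivity : 0 ≤ 256 * r ^ 2)
  calc _ = 256 * r ^ 2 * ((r ^ 2 + R ^ 2) / 4) ^ 3 := by ring
    _ ≤ _ := h9

private lemma wF_ev {r R t t' : ℝ} (hr : 0 < r) (hR : 0 < R) (ht : |t| ≤ R ^ 2 / 4) (ht' : |t'| ≤ R ^ 2 / 4) :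
    |(wF r (R ^ 2 / 2 + t') + wF r (R ^ 2 / 2 - t')) - (wF r (R ^ 2 / 2 + t) + wF r (R ^ 2 / 2 - t))| ≤
      2 * (256 * r ^ 2 / (r ^ 2 + R ^ 2) ^ 3) * (|t| + |t'|) * |t' - t| ∧
    |wF r (R ^ 2 / 2 + t) - wF r (R ^ 2 / 2 - t)| ≤ 2 * (32 * r ^ 2 / (r ^ 2 + R ^ 2) ^ 2) * |t| ∧
    |(wF r (R ^ 2 / 2 + t') - wF r (R ^ 2 / 2 - t')) - (wF r (R ^ 2 / 2 + t) - wF r (R ^ 2 / 2 - t))| ≤
      2 * (32 * r ^ 2 / (r ^ 2 + R ^ 2) ^ 2) * |t' - t| := by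
  have hx0 : ∀ x ∈ Icc (R ^ 2 / 2 - R ^ 2 / 4) (R ^ 2 / 2 + R ^ 2 / 4), 0 < r ^ 2 + x := by
    intro x hx
    have h0 := hx.1
    have hR2 : 0 < R ^ 2 := by positivity
    have hr2 : 0 < r ^ 2 := by positivity
    linarith
  exact ev_od (fun x hx => wF_der (hx0 x hx)) (fun x hx => wF1_der (hx0 x hx)) (fun x hx => wF1_le hr hR hx)
    (fun x hx => wF2_le hr hR hx) ht ht'

private lemma tII {r R L l x y : ℝ} (hr : 0 < r) (hR : 0 < R) (hL0 : 0 ≤ L) (hl0 : 0 ≤ l)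
    (hx : |x| ≤ 2 * (256 * r ^ 2 / (r ^ 2 + R ^ 2) ^ 3) * (2 * (L * R)) * (2 * R * l)) (hy : |y| ≤ 2 * (r + R)) :
    |x * y| ≤ 4096 * (L / R) * l := by
  rw [abs_mul]
  refine (mul_le_mul hx hy (abs_nonneg _) (by positivity)).trans ?_
  have h2 : r ^ 2 * R ^ 3 * (r + R) ≤ (r ^ 2 + R ^ 2) ^ 3 := by
    have h3 : 0 ≤ r ^ 2 * R ^ 2 * (r - R) ^ 2 := by positivity
    have h3' : 0 ≤ r ^ 3 * R ^ 3 := by positivity
    have h4 : 0 ≤ r ^ 6 + 2 * (r ^ 4 * R ^ 2) + (r ^ 2 * R ^ 4) + R ^ 6 := by positivity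
    nlinarith
  have h5 : 2 * (256 * r ^ 2 / (r ^ 2 + R ^ 2) ^ 3) * (2 * (L * R)) * (2 * R * l) * (2 * (r + R)) =
      4096 * (L / R) * l * (r ^ 2 * R ^ 3 * (r + R) / (r ^ 2 + R ^ 2) ^ 3) := by
    have hD : (r ^ 2 + R ^ 2) ^ 3 ≠ 0 := by positivity
    rw [div_eq_mul_inv (256 * r ^ 2), div_eq_mul_inv L, div_eq_mul_inv (r ^ 2 * R ^ 3 * (r + R))]
    have hR' : R * R⁻¹ = 1 := mul_inv_cancel₀ hR.ne'
    calc _ = 4096 * (L * 1) * l * (r ^ 2 * R ^ 2 * (r + R) * ((r ^ 2 + R ^ 2) ^ 3)⁻¹) := by ring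
      _ = 4096 * (L * (R * R⁻¹)) * l * (r ^ 2 * R ^ 2 * (r + R) * ((r ^ 2 + R ^ 2) ^ 3)⁻¹) := by rw [hR']
      _ = _ := by ring
  rw [h5]
  have h6 : r ^ 2 * R ^ 3 * (r + R) / (r ^ 2 + R ^ 2) ^ 3 ≤ 1 := by
    rw [div_le_one (by positivity)]
    exact h2
  exact mul_le_of_le_one_right (by positivity) h6

private lemma tIII {r R L l x y c : ℝ} (hr : 0 < r) (hR : 0 < R) (hL0 : 0 ≤ L) (hl0 : 0 ≤ l) (hc : 0 ≤ c)
    (hx : |x| * |y| ≤ 2 * (32 * r ^ 2 / (r ^ 2 + R ^ 2) ^ 2) * (R * c)) (he : c = 2 * (L * l)) :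
    |x * y| ≤ 128 * (L / R) * l := by
  rw [abs_mul]
  refine hx.trans ?_
  have hrR : r ^ 2 * R ^ 2 / (r ^ 2 + R ^ 2) ^ 2 ≤ 1 := by
    rw [div_le_one (by positivity)]
    have : 0 ≤ r ^ 4 + r ^ 2 * R ^ 2 + R ^ 4 := by positivity
    nlinarith
  have h5 : 2 * (32 * r ^ 2 / (r ^ 2 + R ^ 2) ^ 2) * (R * c) =
      128 * (L / R) * l * (r ^ 2 * R ^ 2 / (r ^ 2 + R ^ 2) ^ 2) := by
    rw [he, div_eq_mul_inv (32 * r ^ 2), div_eq_mul_inv L, div_eq_mul_inv (r ^ 2 * R ^ 2)]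
    have hR' : R * R⁻¹ = 1 := mul_inv_cancel₀ hR.ne'
    calc _ = 128 * (L * 1) * l * (r ^ 2 * R * ((r ^ 2 + R ^ 2) ^ 2)⁻¹) := by ring
      _ = 128 * (L * (R * R⁻¹)) * l * (r ^ 2 * R * ((r ^ 2 + R ^ 2) ^ 2)⁻¹) := by rw [hR']
      _ = _ := by ring
  rw [h5]
  exact mul_le_of_le_one_right (by positivity) hrR

private lemma wF_core {r R L l t t' Pv Pw Qv Qw : ℝ} (hr : 0 < r) (hR : 0 < R) (hL0 : 0 ≤ L) (hl0 : 0 ≤ l)
    (hL : 4 * L ≤ R) (ht : |t| ≤ L * R) (ht' : |t'| ≤ L * R) (htt : |t' - t| ≤ 2 * R * l)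
    (hQ : |Qv + Qw| ≤ 2 * (r + R)) (hD : |(Qv - Qw) - (Pv - Pw)| ≤ 2 * l) (hP : |Pv - Pw| ≤ L) :
    (wF r (R ^ 2 / 2 + t) + wF r (R ^ 2 / 2 - t)) / 2 * ((Qv + Qw) - (Pv + Pw)) - 2200 * (L / R) * l ≤
      wF r (R ^ 2 / 2 + t') * Qv + wF r (R ^ 2 / 2 - t') * Qw - wF r (R ^ 2 / 2 + t) * Pv -
        wF r (R ^ 2 / 2 - t) * Pw := by
  have hLR : L * R ≤ R ^ 2 / 4 := by nlinarith
  obtain ⟨e1, _, e3⟩ := wF_ev hr hR (ht.trans hLR) (ht'.trans hLR)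
  obtain ⟨_, e2, _⟩ := wF_ev hr hR (ht'.trans hLR) (ht'.trans hLR)
  generalize wF r (R ^ 2 / 2 + t') = a' at *
  generalize wF r (R ^ 2 / 2 - t') = b' at *
  generalize wF r (R ^ 2 / 2 + t) = a at *
  generalize wF r (R ^ 2 / 2 - t) = b at *
  have hII : |((a' + b') - (a + b)) * (Qv + Qw)| ≤ 4096 * (L / R) * l := by
    refine tII hr hR hL0 hl0 ?_ hQ
    refine e1.trans ?_
    refine mul_le_mul ?_ htt (abs_nonneg _) (by positivity)
    refine mul_le_mul_of_nonneg_left ?_ (by positivity)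
    linarith
  have hIII : |(a' - b') * ((Qv - Qw) - (Pv - Pw))| ≤ 128 * (L / R) * l := by
    refine tIII hr hR hL0 hl0 (c := 2 * (L * l)) (by positivity) ?_ rfl
    have h1 : |a' - b'| ≤ 2 * (32 * r ^ 2 / (r ^ 2 + R ^ 2) ^ 2) * (L * R) :=
      e2.trans (mul_le_mul_of_nonneg_left ht' (by positivity))
    refine (mul_le_mul h1 hD (abs_nonneg _) (by positivity)).trans (le_of_eq ?_)
    ring
  have hIV : |((a' - b') - (a - b)) * (Pv - Pw)| ≤ 128 * (L / R) * l := by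
    refine tIII hr hR hL0 hl0 (c := 2 * (L * l)) (by positivity) ?_ rfl
    have h1 : |(a' - b') - (a - b)| ≤ 2 * (32 * r ^ 2 / (r ^ 2 + R ^ 2) ^ 2) * (2 * R * l) :=
      e3.trans (mul_le_mul_of_nonneg_left htt (by positivity))
    refine (mul_le_mul h1 hP (abs_nonneg _) (by positivity)).trans (le_of_eq ?_)
    ring
  have n1 := neg_abs_le (((a' + b') - (a + b)) * (Qv + Qw))
  have n2 := neg_abs_le ((a' - b') * ((Qv - Qw) - (Pv - Pw)))
  have n3 := neg_abs_le (((a' - b') - (a - b)) * (Pv - Pw))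
  have h7 : 0 ≤ (L / R) * l := by positivity
  linarith

private lemma max_sum (x y : ℝ) : max (x + y) 0 + max (x - y) 0 = x + max |x| |y| := by
  rcases le_total |x| |y| with h | h
  · rw [max_eq_right h]
    rcases le_total 0 y with hy | hy
    · rw [abs_of_nonneg hy] at h ⊢
      have h1 := abs_le.1 h
      rw [max_eq_left (by linarith), max_eq_right (by linarith)]
      ring
    · rw [abs_of_nonpos hy] at h ⊢
      have h1 := abs_le.1 h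
      rw [max_eq_right (by linarith), max_eq_left (by linarith)]
      ring
  · rw [max_eq_left h]
    rcases le_total 0 x with hx | hx
    · rw [abs_of_nonneg hx] at h ⊢
      have h1 := abs_le.1 h
      rw [max_eq_left (by linarith), max_eq_left (by linarith)]
      ring
    · rw [abs_of_nonpos hx] at h ⊢
      have h1 := abs_le.1 h
      rw [max_eq_right (by linarith), max_eq_right (by linarith)]
      ring

private lemma sum_max {ς : ℝ} (hς : ς = 1 ∨ ς = -1) (U p q : ℝ) :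
    max (ς * (U - p)) 0 + max (ς * (U - q)) 0 =
      ς * (2 * U - p - q) / 2 + max |2 * U - p - q| |p - q| / 2 := by
  have h := max_sum (ς * (2 * U - p - q) / 2) (ς * (q - p) / 2)
  have e1 : ς * (2 * U - p - q) / 2 + ς * (q - p) / 2 = ς * (U - p) := by ring
  have e2 : ς * (2 * U - p - q) / 2 - ς * (q - p) / 2 = ς * (U - q) := by ring
  rw [e1, e2] at h
  rw [h]
  have hs : |ς| = 1 := by
    rcases hς with h | h <;> rw [h] <;> norm_num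
  rw [abs_div, abs_mul, hs, abs_div, abs_mul, hs, one_mul, one_mul, abs_sub_comm q p, abs_of_pos (by norm_num : (0:ℝ) < 2),
    max_div_div_right (by norm_num : (0:ℝ) ≤ 2)]

private lemma max_lip {ς : ℝ} (hς : ς = 1 ∨ ς = -1) (U p q : ℝ) :
    |max (ς * (U - p)) 0 - max (ς * (U - q)) 0| ≤ |p - q| := by
  refine (abs_max_sub_max_le_abs _ _ _).trans ?_
  have hs : |ς| = 1 := by
    rcases hς with h | h <;> rw [h] <;> norm_num
  have : ς * (U - p) - ς * (U - q) = ς * (q - p) := by ring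
  rw [this, abs_mul, hs, one_mul, abs_sub_comm]

private lemma far_eq (ς : ℝ) (e : Fin d) (u w : Vec d) {τ : ℝ} (h : jb w ^ 2 = τ) :
    farF ς e u w = wF (jb u) τ * max (ς * (u e - w e)) 0 := by
  unfold farF omU wF
  rw [RR_sq, h]

theorem far_inc {ς : ℝ} (hς : ς = 1 ∨ ς = -1) (e : Fin d) (u : Vec d) {v w σ : Vec d} (hvw : v ≠ w)
    (hσ : nsq σ = 1) (hL : 4 * len (v - w) ≤ RR v w) :
    (omU u v + omU u w) / 4 * (max |2 * u e - v e - w e| |post v w σ e - post' v w σ e| -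
        max |2 * u e - v e - w e| |v e - w e|) - 2200 * (len (v - w) / RR v w) * len (post v w σ - v) ≤
      farF ς e u (post v w σ) + farF ς e u (post' v w σ) - farF ς e u v - farF ς e u w := by
  obtain ⟨c1, c2⟩ := col_post_t (v := v) (w := w) hσ
  have c3 := col_t v w
  have c4 := col_t' v w
  have c5 := col_sum v w σ e
  have c6 := col_dt (v := v) (w := w) hσ
  obtain ⟨c7, c8, c9, c10, c11⟩ := col_coord (v := v) (w := w) hσ e
  set t := jb v ^ 2 - RR v w ^ 2 / 2 with ht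
  set t' := jb (post v w σ) ^ 2 - RR v w ^ 2 / 2 with ht'
  have hw' : post' v w σ e - w e = -(post v w σ e - v e) := by linarith
  have hu : |u e| ≤ jb u := (abs_coord_le u e).trans (len_le_jb u)
  have hς1 : |ς| = 1 := by
    rcases hς with h | h <;> rw [h] <;> norm_num
  have hmax : ∀ p : ℝ, |p| ≤ RR v w → |max (ς * (u e - p)) 0| ≤ jb u + RR v w := by
    intro p hp
    rw [abs_of_nonneg (le_max_right _ _)]
    refine max_le ?_ (by linarith [jb_pos u, RR_pos v w])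
    refine (le_abs_self _).trans ?_
    rw [abs_mul, hς1, one_mul]
    exact (abs_sub _ _).trans (add_le_add hu hp)
  have core := wF_core (r := jb u) (R := RR v w) (L := len (v - w)) (l := len (post v w σ - v)) (t := t) (t' := t')
    (Pv := max (ς * (u e - v e)) 0) (Pw := max (ς * (u e - w e)) 0)
    (Qv := max (ς * (u e - post v w σ e)) 0) (Qw := max (ς * (u e - post' v w σ e)) 0)
    (jb_pos u) (RR_pos v w) (len_nonneg _) (len_nonneg _) hL c3 c2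
    (by
      have : t' - t = jb (post v w σ) ^ 2 - jb v ^ 2 := by rw [ht, ht']; ring
      rw [this]
      exact c6)
    (by
      refine (abs_add_le _ _).trans ?_
      have := hmax _ c7
      have := hmax _ c8
      linarith)
    (by
      have h1 := max_lip hς (u e) (post v w σ e) (v e)
      have h2 := max_lip hς (u e) (post' v w σ e) (w e)
      rw [hw', abs_neg] at h2
      have h3 : max (ς * (u e - post v w σ e)) 0 - max (ς * (u e - post' v w σ e)) 0 -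
          (max (ς * (u e - v e)) 0 - max (ς * (u e - w e)) 0) =
          (max (ς * (u e - post v w σ e)) 0 - max (ς * (u e - v e)) 0) -
          (max (ς * (u e - post' v w σ e)) 0 - max (ς * (u e - w e)) 0) := by ring
      rw [h3]
      refine (abs_sub _ _).trans ?_
      linarith)
    ((max_lip hς (u e) (v e) (w e)).trans c10)
  have f1 : farF ς e u v = wF (jb u) (RR v w ^ 2 / 2 + t) * max (ς * (u e - v e)) 0 :=
    far_eq ς e u v (by rw [ht]; ring)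
  have f2 : farF ς e u w = wF (jb u) (RR v w ^ 2 / 2 - t) * max (ς * (u e - w e)) 0 :=
    far_eq ς e u w c4
  have f3 : farF ς e u (post v w σ) = wF (jb u) (RR v w ^ 2 / 2 + t') * max (ς * (u e - post v w σ e)) 0 :=
    far_eq ς e u _ (by rw [ht']; ring)
  have f4 : farF ς e u (post' v w σ) = wF (jb u) (RR v w ^ 2 / 2 - t') * max (ς * (u e - post' v w σ e)) 0 :=
    far_eq ς e u _ c1
  have g1 : omU u v = wF (jb u) (RR v w ^ 2 / 2 + t) := by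
    unfold omU wF
    rw [RR_sq]
    have : RR v w ^ 2 / 2 + t = jb v ^ 2 := by rw [ht]; ring
    rw [this]
  have g2 : omU u w = wF (jb u) (RR v w ^ 2 / 2 - t) := by
    unfold omU wF
    rw [RR_sq, c4]
  rw [f1, f2, f3, f4, g1, g2]
  have s1 := sum_max hς (u e) (v e) (w e)
  have s2 := sum_max hς (u e) (post v w σ e) (post' v w σ e)
  have s3 : 2 * u e - post v w σ e - post' v w σ e = 2 * u e - v e - w e := by linarith
  rw [s3] at s2
  rw [s1, s2] at core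
  refine le_trans (le_of_eq ?_) core
  ring

end Pool.Agent.H85.UP
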