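import Pool.Agent.H85.UP.Defs
import Pool.Agent.H48.PL.JB

/-!
# Module FOm: the cut-off `omU`

`r = jb v`, `y = jb w`, `RR² = r²+y²`, `omU v w = (y²/(r²+y²))²`.
* `omU_RR`: `omU RR = y⁴/RR³ ≤ y` (`y ≤ RR`); `omU_RR2`: `omU RR² = y⁴/RR² ≤ y²`; `omU_RRm`: `omU RR^m ≤ y^m` for `0 ≤ m ≤ 1`: `(y/RR)⁴ ≤ (y/RR)^m`.
* `omU_min`: `min 1 (y/r)⁴ ≤ 4 omU`: if `y ≤ r` then `(r²+y²)² ≤ 4 r⁴`; if `r ≤ y` then `(r²+y²)² ≤ 4 y⁴`. (`min 1 x ^ 4`, `x = jb w/jb v`.)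
* `omU_lip2`: Lipschitz in `w`: `ω = y²/(r²+y²)`, `ω(y')-ω(y) = r²(y'-y)(y'+y)/((r²+y²)(r²+y'²))`; for `y ≤ y'`: `ω' ² - ω² ≤ 2(ω'-ω) ≤ 2 r²(y'-y) 2y'/((r²+y²)(r²+y'²)) ≤ 2 (y'-y)/...`;
  `r y' ≤ (r²+y'²)/2` gives `≤ 2 r (y'-y)/(r²+y²) ≤ 2(y'-y)` since `r ≤ r² ≤ r²+y²` (`1 ≤ r`). So `|omU v w - omU v w'| ≤ 4 len (w-w')`.
* `omU_lip1`: in the first variable, weighted: if `len (u - v) ≤ jb v/2` then `|omU u w - omU v w| RR v w ≤ K jb w len (u-v)/jb v`. `r' = jb u ∈ [r/2, 3r/2]`, `|r'-r| ≤ len (u-v)`.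
  `ω(r)-ω(r') = y²(r'-r)(r'+r)/((r²+y²)(r'²+y²))`, `r'²+y² ≥ (r²+y²)/4`, `ω(r)+ω(r') ≤ 5 y²/(r²+y²)`: `|ω²-ω'²| ≤ 5 y²/(RR²) · y² |r'-r| (5r/2) · 4/RR⁴ = 50 y⁴ r|r'-r|/RR⁶`,
  times `RR`: `50 y⁴ r |r'-r|/RR⁵ ≤ 50 y |r'-r|/r` because `y³ r² ≤ RR⁵`.
* `omU_cmp`: under the same condition `omU u w ≤ 16 omU v w`.
-/

set_option autoImplicit false

open MeasureTheory Set Filter Topology Pool.Agent.H25.Kin Pool.Agent.H48.PL

namespace Pool.Agent.H85.UP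

variable {d : ℕ}

private lemma omU_eq (v w : Vec d) : omU v w = (jb w ^ 2 / (jb v ^ 2 + jb w ^ 2)) ^ 2 := by
  unfold omU
  rw [RR_sq]

private lemma omU_x (v w : Vec d) :
    ∃ x : ℝ, 0 < x ∧ x ≤ 1 ∧ jb w = x * RR v w ∧ omU v w = x ^ 4 := by
  have hR := RR_pos v w
  have hy := jb_pos w
  refine ⟨jb w / RR v w, div_pos hy hR, ?_, ?_, ?_⟩
  · rw [div_le_one hR]
    exact jb_le_RR_right v w
  · field_simp
  · unfold omU
    rw [← div_pow, ← pow_mul]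

theorem omU_nonneg (v w : Vec d) : 0 ≤ omU v w := by
  unfold omU
  positivity

theorem omU_le_one (v w : Vec d) : omU v w ≤ 1 := by
  obtain ⟨x, h0, h1, -, hx⟩ := omU_x v w
  rw [hx]
  exact pow_le_one₀ h0.le h1

theorem omU_cont : Continuous fun p : Vec d × Vec d => omU p.1 p.2 := by
  unfold omU
  exact (((jb_cont.comp continuous_snd).pow 2).div (RR_cont.pow 2)
    (fun p => (pow_pos (RR_pos p.1 p.2) 2).ne')).pow 2

theorem omU_RR (v w : Vec d) : omU v w * RR v w ≤ jb w := by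
  obtain ⟨x, h0, h1, hy, hx⟩ := omU_x v w
  have hR := RR_pos v w
  rw [hx, hy]
  have h2 : x ^ 4 ≤ x ^ 1 := pow_le_pow_of_le_one h0.le h1 (by norm_num)
  rw [pow_one] at h2
  exact mul_le_mul_of_nonneg_right h2 hR.le

theorem omU_RR2 (v w : Vec d) : omU v w * RR v w ^ 2 ≤ jb w ^ 2 := by
  obtain ⟨x, h0, h1, hy, hx⟩ := omU_x v w
  have hR := RR_pos v w
  rw [hx, hy, mul_pow]
  have h2 : x ^ 4 ≤ x ^ 2 := pow_le_pow_of_le_one h0.le h1 (by norm_num)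
  exact mul_le_mul_of_nonneg_right h2 (by positivity)

theorem omU_RRm {m : ℝ} (hm : 0 ≤ m) (hm1 : m ≤ 1) (v w : Vec d) : omU v w * RR v w ^ m ≤ jb w ^ m := by
  obtain ⟨x, h0, h1, hy, hx⟩ := omU_x v w
  have hR := RR_pos v w
  rw [hx, hy, Real.mul_rpow h0.le hR.le]
  have h2 : x ^ 4 ≤ x ^ m := by
    rw [← Real.rpow_natCast]
    exact Real.rpow_le_rpow_of_exponent_ge h0 h1 (by push_cast; linarith)
  exact mul_le_mul_of_nonneg_right h2 (Real.rpow_nonneg hR.le _)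

theorem omU_min (v w : Vec d) : min 1 (jb w / jb v) ^ 4 ≤ 4 * omU v w := by
  have hr := jb_pos v
  have hy := jb_pos w
  rw [omU_eq, div_pow, ← pow_mul]
  generalize jb v = r at *
  generalize jb w = y at *
  have ha : 0 < r ^ 2 + y ^ 2 := by positivity
  rcases le_total y r with h | h
  · have h1 : y / r ≤ 1 := (div_le_one hr).2 h
    rw [min_eq_right h1, div_pow, mul_div_assoc', div_le_div_iff₀ (by positivity) (by positivity)]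
    have h2 : y ^ 2 ≤ r ^ 2 := pow_le_pow_left₀ hy.le h 2
    have h3 : (r ^ 2 + y ^ 2) ^ 2 ≤ 4 * r ^ 4 := by nlinarith [sq_nonneg y, sq_nonneg r]
    have h4 : 0 ≤ y ^ 4 := by positivity
    calc y ^ 4 * (r ^ 2 + y ^ 2) ^ 2 ≤ y ^ 4 * (4 * r ^ 4) := mul_le_mul_of_nonneg_left h3 h4
      _ = 4 * y ^ (2 * 2) * r ^ 4 := by ring
  · have h1 : 1 ≤ y / r := (one_le_div hr).2 h
    rw [min_eq_left h1, one_pow, mul_div_assoc', le_div_iff₀ (by positivity), one_mul]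
    have h2 : r ^ 2 ≤ y ^ 2 := pow_le_pow_left₀ hr.le h 2
    calc (r ^ 2 + y ^ 2) ^ 2 ≤ (2 * y ^ 2) ^ 2 := pow_le_pow_left₀ ha.le (by linarith) 2
      _ = 4 * y ^ (2 * 2) := by ring

private lemma frac_lip {r y y' : ℝ} (hr : 1 ≤ r) (hy : 1 ≤ y) (hy' : 1 ≤ y') :
    |(y ^ 2 / (r ^ 2 + y ^ 2)) ^ 2 - (y' ^ 2 / (r ^ 2 + y' ^ 2)) ^ 2| ≤ 4 * |y - y'| := by
  have ha : 0 < r ^ 2 + y ^ 2 := by positivity
  have hb : 0 < r ^ 2 + y' ^ 2 := by positivity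
  have e : y ^ 2 / (r ^ 2 + y ^ 2) - y' ^ 2 / (r ^ 2 + y' ^ 2) =
      r ^ 2 * (y + y') * (y - y') / ((r ^ 2 + y ^ 2) * (r ^ 2 + y' ^ 2)) := by
    field_simp
    ring
  have h1 : y ≤ r ^ 2 + y ^ 2 := by nlinarith
  have h2 : y' ≤ r ^ 2 + y' ^ 2 := by nlinarith
  have h3 : r ^ 2 * (y + y') ≤ 2 * ((r ^ 2 + y ^ 2) * (r ^ 2 + y' ^ 2)) := by
    have h4 : r ^ 2 ≤ r ^ 2 + y ^ 2 := by nlinarith
    have h5 : r ^ 2 ≤ r ^ 2 + y' ^ 2 := by nlinarith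
    have h6 : r ^ 2 * y' ≤ (r ^ 2 + y ^ 2) * (r ^ 2 + y' ^ 2) :=
      mul_le_mul h4 h2 (by linarith) ha.le
    have h7 : r ^ 2 * y ≤ (r ^ 2 + y' ^ 2) * (r ^ 2 + y ^ 2) :=
      mul_le_mul h5 h1 (by linarith) hb.le
    nlinarith
  have h8 : |y ^ 2 / (r ^ 2 + y ^ 2) - y' ^ 2 / (r ^ 2 + y' ^ 2)| ≤ 2 * |y - y'| := by
    rw [e, abs_div, abs_mul, abs_of_pos (mul_pos ha hb), abs_of_nonneg (a := r ^ 2 * (y + y')) (by positivity),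
      div_le_iff₀ (mul_pos ha hb)]
    calc r ^ 2 * (y + y') * |y - y'| ≤ 2 * ((r ^ 2 + y ^ 2) * (r ^ 2 + y' ^ 2)) * |y - y'| :=
          mul_le_mul_of_nonneg_right h3 (abs_nonneg _)
      _ = _ := by ring
  have h9 : 0 ≤ y ^ 2 / (r ^ 2 + y ^ 2) := by positivity
  have h10 : 0 ≤ y' ^ 2 / (r ^ 2 + y' ^ 2) := by positivity
  have h11 : y ^ 2 / (r ^ 2 + y ^ 2) ≤ 1 := (div_le_one ha).2 (by nlinarith)
  have h12 : y' ^ 2 / (r ^ 2 + y' ^ 2) ≤ 1 := (div_le_one hb).2 (by nlinarith)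
  have e2 : (y ^ 2 / (r ^ 2 + y ^ 2)) ^ 2 - (y' ^ 2 / (r ^ 2 + y' ^ 2)) ^ 2 =
      (y ^ 2 / (r ^ 2 + y ^ 2) - y' ^ 2 / (r ^ 2 + y' ^ 2)) *
        (y ^ 2 / (r ^ 2 + y ^ 2) + y' ^ 2 / (r ^ 2 + y' ^ 2)) := by ring
  rw [e2, abs_mul, abs_of_nonneg (add_nonneg h9 h10)]
  calc |y ^ 2 / (r ^ 2 + y ^ 2) - y' ^ 2 / (r ^ 2 + y' ^ 2)| *
        (y ^ 2 / (r ^ 2 + y ^ 2) + y' ^ 2 / (r ^ 2 + y' ^ 2)) ≤ (2 * |y - y'|) * 2 :=
        mul_le_mul h8 (by linarith) (by linarith) (by positivity)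
    _ = _ := by ring

theorem omU_lip2 (v w w' : Vec d) : |omU v w - omU v w'| ≤ 4 * len (w - w') := by
  rw [omU_eq, omU_eq]
  refine (frac_lip (one_le_jb v) (one_le_jb w) (one_le_jb w')).trans ?_
  have := jb_lip w w'
  linarith

private lemma jb_half {u v : Vec d} (h : len (u - v) ≤ jb v / 2) : jb v / 2 ≤ jb u ∧ jb u ≤ 3 / 2 * jb v := by
  have h1 := abs_le.1 (jb_lip u v)
  constructor
  · linarith [h1.1]
  · linarith [h1.2]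

private lemma base_cmp {u v : Vec d} (w : Vec d) (h : len (u - v) ≤ jb v / 2) :
    (jb v ^ 2 + jb w ^ 2) / 4 ≤ jb u ^ 2 + jb w ^ 2 := by
  obtain ⟨h1, -⟩ := jb_half h
  have hv := jb_pos v
  have h2 : (jb v / 2) ^ 2 ≤ jb u ^ 2 := pow_le_pow_left₀ (by positivity) h1 2
  nlinarith [sq_nonneg (jb w)]

private lemma core1 {a b y D r R : ℝ} (hr : 0 < r) (hy : 0 < y) (hR : 0 < R) (hRa : R ^ 2 = a)
    (hra : r ^ 2 ≤ a) (hya : y ^ 2 ≤ a) (hb : a / 4 ≤ b) (hD : |b - a| ≤ D * (5 / 2 * r)) (hD0 : 0 ≤ D) :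
    |(y ^ 2 / b) ^ 2 - (y ^ 2 / a) ^ 2| * R ≤ 50 * (y * (D / r)) := by
  have ha : 0 < a := by rw [← hRa]; positivity
  have hb0 : 0 < b := by linarith
  have e : (y ^ 2 / b) ^ 2 - (y ^ 2 / a) ^ 2 = -(y ^ 4 * ((b - a) * (a + b)) / (a ^ 2 * b ^ 2)) := by
    field_simp
    ring
  have h1 : (a + b) / b ^ 2 ≤ 20 / a := by
    rw [div_le_div_iff₀ (by positivity) ha]
    nlinarith
  have h2 : |(y ^ 2 / b) ^ 2 - (y ^ 2 / a) ^ 2| ≤ 50 * (y ^ 4 * D * r / a ^ 3) := by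
    rw [e, abs_neg, abs_div, abs_mul, abs_mul, abs_of_pos (a := y ^ 4) (by positivity),
      abs_of_pos (a := a + b) (by positivity), abs_of_pos (a := a ^ 2 * b ^ 2) (by positivity)]
    have e3 : y ^ 4 * (|b - a| * (a + b)) / (a ^ 2 * b ^ 2) =
        (y ^ 4 * |b - a| / a ^ 2) * ((a + b) / b ^ 2) := by
      field_simp
    have e4 : 50 * (y ^ 4 * D * r / a ^ 3) = (y ^ 4 * (D * (5 / 2 * r)) / a ^ 2) * (20 / a) := by
      field_simp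
      ring
    rw [e3, e4]
    apply mul_le_mul _ h1 (by positivity) (by positivity)
    apply div_le_div_of_nonneg_right _ (by positivity)
    exact mul_le_mul_of_nonneg_left hD (by positivity)
  refine (mul_le_mul_of_nonneg_right h2 hR.le).trans ?_
  have hyR : y ≤ R := abs_le_of_sq_le_sq' (by rw [hRa]; exact hya) hR.le |>.2
  have hrR : r ≤ R := abs_le_of_sq_le_sq' (by rw [hRa]; exact hra) hR.le |>.2
  have e5 : 50 * (y ^ 4 * D * r / a ^ 3) * R = 50 * (y * (D / r)) * (y ^ 3 * r ^ 2 / R ^ 5) := by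
    rw [← hRa]
    field_simp
  rw [e5]
  have h6 : y ^ 3 * r ^ 2 / R ^ 5 ≤ 1 := by
    rw [div_le_one (by positivity)]
    calc y ^ 3 * r ^ 2 ≤ R ^ 3 * R ^ 2 :=
          mul_le_mul (pow_le_pow_left₀ hy.le hyR 3) (pow_le_pow_left₀ hr.le hrR 2) (by positivity)
            (by positivity)
      _ = R ^ 5 := by ring
  exact mul_le_of_le_one_right (by positivity) h6

theorem omU_lip1 {u v : Vec d} (w : Vec d) (h : len (u - v) ≤ jb v / 2) :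
    |omU u w - omU v w| * RR v w ≤ 50 * (jb w * (len (u - v) / jb v)) := by
  rw [omU_eq, omU_eq]
  have hv := jb_pos v
  have hw := jb_pos w
  have hu := jb_pos u
  obtain ⟨h1, h2⟩ := jb_half h
  refine core1 hv hw (RR_pos v w) (RR_sq v w) (by nlinarith) (by nlinarith) (base_cmp w h) ?_ (len_nonneg _)
  have e : jb u ^ 2 + jb w ^ 2 - (jb v ^ 2 + jb w ^ 2) = (jb u - jb v) * (jb u + jb v) := by ring
  rw [e, abs_mul, abs_of_pos (a := jb u + jb v) (by positivity)]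
  exact mul_le_mul (jb_lip u v) (by linarith) (by positivity) (len_nonneg _)

theorem omU_cmp {u v : Vec d} (w : Vec d) (h : len (u - v) ≤ jb v / 2) : omU u w ≤ 16 * omU v w := by
  rw [omU_eq, omU_eq]
  have h1 := base_cmp w h
  have hv := jb_pos v
  have hw := jb_pos w
  have ha : 0 < jb v ^ 2 + jb w ^ 2 := by positivity
  have hb : 0 < jb u ^ 2 + jb w ^ 2 := by linarith
  have h2 : jb w ^ 2 / (jb u ^ 2 + jb w ^ 2) ≤ 4 * (jb w ^ 2 / (jb v ^ 2 + jb w ^ 2)) := by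
    rw [mul_div_assoc', div_le_div_iff₀ hb ha]
    nlinarith [sq_nonneg (jb w)]
  calc (jb w ^ 2 / (jb u ^ 2 + jb w ^ 2)) ^ 2 ≤ (4 * (jb w ^ 2 / (jb v ^ 2 + jb w ^ 2))) ^ 2 :=
        pow_le_pow_left₀ (by positivity) h2 2
    _ = _ := by ring

end Pool.Agent.H85.UP
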