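import Pool.Agent.H85.UP.GInc
import Pool.Agent.H85.UP.GZd
import Pool.Agent.H48.PL.WkI
import Pool.Agent.H48.PL.Ang
import Pool.Agent.H82.CM.LowK

/-!
# Module GAin: the collision operator tested with `TG e u`

* `ainc_TG`: `|F(post)+F(post')-F(v)-F(w)| ≤ 1100 jb u (L/RR) len (post - v)` (`TG_inc`), `len (post - v) = L (y/2)^(1/2)`, `y = 1 - cosTh` (`col_len_post`);
  `ker_small` with `τ = 1/2 > s`, `u = 2` (template: `ainc_bd` in PL/Hw.lean): `∫ kerB y^(1/2) ≤ A L^(1+a) 2^(1/2-s)`. So `|ainc| ≤ 1100 jb u (L²/RR) A L^(1+a) 2^(1/2-s)`.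
* `fib_TG`: `weak_ge_of`, `weak_le_of` (PL/WkI) with `L p = ∓ 4 K jb v zd p` (`zd_low`; `TG e v` is `PG` and continuous from `TG_PGW`; integrability `ZS_int`), `∫ g g zd = ZS univ` (`ZS_eq`); template: `hw_bound` in PL/Hw.lean.
-/

set_option autoImplicit false

open MeasureTheory Set Filter Topology Pool.Agent.H25.Kin Pool.Agent.H82.BK Pool.Agent.H82.CM Pool.Agent.H48.PL

namespace Pool.Agent.H85.UP

variable {d : ℕ} {s a m q C Ca cb : ℝ} {b : ℝ → ℝ}

theorem ainc_TG (HL : HypL d (1 + a) s b C Ca cb) (U : UE s a m q) :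
    ∃ K : ℝ, 0 ≤ K ∧ ∀ e : Fin d, ∀ ε : ℝ, 0 < ε → ∀ u v w : Vec d, v ≠ w →
      |ainc (1 + a) b ε (TG e u) v w| ≤ K * (jb u * (len (v - w) ^ (3 + a) / RR v w)) := by
  have hs := HL.H.hs
  have hs2 : s < 1 / 2 := by
    have h1 := U.has
    have h2 := U.ha1
    linarith
  obtain ⟨A1, hA1, hk⟩ := ker_small HL.H (τ := 1 / 2) hs2 (by norm_num)
  refine ⟨1100 * (A1 * 2 ^ (1 / 2 - s)), by positivity, fun e ε hε u v w hvw => ?_⟩
  obtain ⟨hi, hb⟩ := hk ε hε v w hvw 2 two_pos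
  have hS : (surf d).restrict {σ : Vec d | 1 - cosTh v w σ ≤ 2} = surf d := by
    refine Measure.restrict_eq_self_of_ae_mem ?_
    filter_upwards [surf_ae] with σ hσ
    have h4 := (abs_le.1 (abs_cosTh_le (v := v) (w := w) hσ)).1
    show 1 - cosTh v w σ ≤ 2
    linarith
  unfold IntegrableOn at hi
  rw [hS] at hi hb
  have hl0 : 0 < len (v - w) := len_pos (sub_ne_zero.2 hvw)
  have hR0 := RR_pos v w
  have hj := jb_pos u
  set M : ℝ := 1100 * jb u * (len (v - w) / RR v w) * len (v - w) with hM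
  have hM0 : 0 ≤ M := by positivity
  have hle : ‖ainc (1 + a) b ε (TG e u) v w‖ ≤
      ∫ σ, M * (kerB (1 + a) b ε v w σ * (1 - cosTh v w σ) ^ (1 / 2 : ℝ)) ∂(surf d) := by
    unfold ainc
    refine norm_integral_le_of_norm_le (hi.const_mul M) ?_
    filter_upwards [surf_ae] with σ hσ
    have hk0 := kerB_nonneg (γ := 1 + a) HL.H.bd hε (v := v) (w := w) hσ
    have hy := one_sub_cosTh_nonneg (v := v) (w := w) hσ
    have e1 := TG_inc e u hvw hσ
    have e2 := col_len_post hvw hσ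
    have e4 : ((1 - cosTh v w σ) / 2) ^ (1 / 2 : ℝ) ≤ (1 - cosTh v w σ) ^ (1 / 2 : ℝ) :=
      Real.rpow_le_rpow (by linarith) (by linarith) (by norm_num)
    rw [norm_mul, Real.norm_eq_abs, Real.norm_eq_abs, abs_of_nonneg hk0]
    have e3 : |TG e u (post v w σ) + TG e u (post' v w σ) - TG e u v - TG e u w| ≤
        M * (1 - cosTh v w σ) ^ (1 / 2 : ℝ) := by
      calc |TG e u (post v w σ) + TG e u (post' v w σ) - TG e u v - TG e u w|
          ≤ 1100 * jb u * (len (v - w) / RR v w) * len (post v w σ - v) := e1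
        _ = 1100 * jb u * (len (v - w) / RR v w) *
            (len (v - w) * ((1 - cosTh v w σ) / 2) ^ (1 / 2 : ℝ)) := by rw [e2]
        _ ≤ 1100 * jb u * (len (v - w) / RR v w) *
            (len (v - w) * (1 - cosTh v w σ) ^ (1 / 2 : ℝ)) := by gcongr
        _ = _ := by rw [hM]; ring
    calc kerB (1 + a) b ε v w σ * |TG e u (post v w σ) + TG e u (post' v w σ) - TG e u v - TG e u w|
        ≤ kerB (1 + a) b ε v w σ * (M * (1 - cosTh v w σ) ^ (1 / 2 : ℝ)) :=
          mul_le_mul_of_nonneg_left e3 hk0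
      _ = _ := by ring
  rw [integral_const_mul, Real.norm_eq_abs] at hle
  have e5 : len (v - w) ^ (3 + a) = len (v - w) * len (v - w) * len (v - w) ^ (1 + a) := by
    rw [show (3 + a) = 2 + (1 + a) by ring, Real.rpow_add hl0, Real.rpow_two, sq]
  calc |ainc (1 + a) b ε (TG e u) v w|
      ≤ M * ∫ σ, kerB (1 + a) b ε v w σ * (1 - cosTh v w σ) ^ (1 / 2 : ℝ) ∂(surf d) := hle
    _ ≤ M * (A1 * len (v - w) ^ (1 + a) * 2 ^ (1 / 2 - s)) := mul_le_mul_of_nonneg_left hb hM0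
    _ = _ := by
      rw [hM, e5]
      ring

theorem fib_TG (HL : HypL d (1 + a) s b C Ca cb) (U : UE s a m q) :
    ∃ K : ℝ, 0 ≤ K ∧ ∀ (e : Fin d) (θ η : ℝ) (g : Vec d → ℝ), Nice g → (∀ v, 0 ≤ g v) → ∀ v : Vec d,
      |∫ w, TG e v w * boltzQ (1 + a) b g w| ≤ K * (jb v ^ (1 : ℝ) * ZS e θ η a q g univ) := by
  obtain ⟨K, hK, hk⟩ := ainc_TG HL U
  refine ⟨2 * K, by positivity, fun e θ η g hg hg0 v => ?_⟩
  have hP := TG_PGW (d := d) e
  have hc : Continuous (TG e v) := hP.cont.comp (continuous_const.prodMk continuous_id)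
  have hPG : PG (TG e v) := by
    obtain ⟨N, B, hB, h⟩ := hP.le
    refine ⟨N, B * (1 + ‖v‖) ^ N, fun w => ?_⟩
    rw [Real.norm_eq_abs]
    refine (h v w).trans (le_of_eq ?_)
    ring
  have hi := ZS_int U e θ η hg.rd hg.smooth.continuous
  have hj := jb_pos v
  have e0 : ∀ c : ℝ, (fun p : Vec d × Vec d => g p.1 * g p.2 * (c * zd e θ η a q p)) =
      fun p => c * (g p.1 * g p.2 * zd e θ η a q p) := by
    intro c
    funext p
    ring
  have hLi : ∀ c : ℝ, Integrable (fun p : Vec d × Vec d => g p.1 * g p.2 * (c * zd e θ η a q p)) := by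
    intro c
    rw [e0]
    exact hi.const_mul c
  have hLe : ∀ c : ℝ, ∫ p : Vec d × Vec d, g p.1 * g p.2 * (c * zd e θ η a q p) =
      c * ZS e θ η a q g univ := by
    intro c
    rw [e0, integral_const_mul, ZS_eq]
  have hbd : ∀ ε : ℝ, 0 < ε → ∀ x w : Vec d, x ≠ w →
      |ainc (1 + a) b ε (TG e v) x w| ≤ (4 * K * jb v) * zd e θ η a q (x, w) := by
    intro ε hε x w hxw
    have h1 := hk e ε hε v x w hxw
    have h2 := zd_low U e θ η (x, w)
    have h3 : K * (jb v * (len (x - w) ^ (3 + a) / RR x w)) ≤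
        K * (jb v * (4 * zd e θ η a q (x, w))) := by
      refine mul_le_mul_of_nonneg_left (mul_le_mul_of_nonneg_left h2 hj.le) hK
    refine h1.trans (h3.trans (le_of_eq ?_))
    ring
  have u1 := weak_le_of HL.H hg hg0 hPG hc.measurable
    (L := fun p => (4 * K * jb v) * zd e θ η a q p) (hLi (4 * K * jb v)) one_pos
    (fun ε hε _ x w hxw => (abs_le.1 (hbd ε hε x w hxw)).2)
  have u2 := weak_ge_of HL.H hg hg0 hPG hc.measurable
    (L := fun p => (-(4 * K * jb v)) * zd e θ η a q p) (hLi (-(4 * K * jb v)))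
    one_pos (fun ε hε _ x w hxw => by
      have h1 := (abs_le.1 (hbd ε hε x w hxw)).1
      show (-(4 * K * jb v)) * zd e θ η a q (x, w) ≤ _
      linarith)
  rw [hLe (4 * K * jb v)] at u1
  rw [hLe (-(4 * K * jb v))] at u2
  have e1 : ∫ w, TG e v w * boltzQ (1 + a) b g w = ∫ w, boltzQ (1 + a) b g w * TG e v w := by
    refine integral_congr_ae (Eventually.of_forall fun w => ?_)
    exact mul_comm _ _
  rw [e1, Real.rpow_one, abs_le]
  constructor <;> linarith

end Pool.Agent.H85.UP
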