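import Pool.Agent.H85.UP.GTim
import Pool.Agent.H48.PL.Equi

/-!
# Module GClo: closure of the functional `Z` (`z_time` of Blk)

Put `S = thinS e θ ∪ ncS η` and (integrals over `[r,t]` in time and over `x`) `Zu = ZS univ`, `Z1 = ZS S`, `Z2 = ZS Sᶜ`: `Zu = Z1 + Z2` (`ZS_add` for every `(τ,x)`, integrability `XG_int`, `ZSt_ii`),
`c Z1 ≤ K M + K Z2` (hypothesis `hJ`), `c' Z2 ≤ 8M² + 16M²(t-r)/l + K' η' Zu` (`pair_timeG`). So `Zu ≤ K M/c + (K/c+1) Z2 ≤ A + B(t-r)/l + D η' Zu`, `D = (K/c+1)K'/c'`.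
Take `η' = 1/(2D+1)`, `l = l₀` from `equi` with exponent `1 < 2` (`fs_of`, `glob_bounds`), absorb (`Zu` is a real number `≥ 0`). Template: PL/Clos (`X_bound`). The constant
`K'' = |2(K M/c)| + 2((K/c+1)/c')(8M²) + 2((K/c+1)/c')(16M²/l)` depends on `M` and the operator only.
-/

set_option autoImplicit false

open MeasureTheory Set Filter Topology Pool.Agent.H25.Kin Pool.Agent.H82.BK Pool.Agent.H82.CM
open Pool.Agent.H48.PL Pool.Agent.H25.PT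

namespace Pool.Agent.H85.UP

variable {d : ℕ} {s a m q C Ca cb : ℝ} {b : ℝ → ℝ}

private lemma zs_int (U : UE s a m q) (e : Fin d) (θ η : ℝ) {T γ : ℝ}
    {f : ℝ → Vec d → Vec d → ℝ} (hf : IsBoltzmannSol γ b T f) {A : Set (Vec d × Vec d)}
    (hA : MeasurableSet A) {τ : ℝ} (hτ : τ ∈ Ico 0 T) :
    Integrable (fun x => ZS e θ η a q (f τ x) A) (muD d) := by
  refine XG_int (a := 1) zero_le_one le_rfl hf ((zw_meas e θ η a q).indicator hA)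
    (fun p => indicator_nonneg (fun p _ => zw_nonneg e θ η a q p) p) (fun p => ?_) hτ
  by_cases hp : p ∈ A
  · rw [indicator_of_mem hp]
    exact zw_le_one U e θ η p
  · rw [indicator_of_notMem hp]
    exact zero_le_one

private lemma absorb {Zu Z1 Z2 M c K c' K' η l τ : ℝ} (hc : 0 < c) (hK : 0 ≤ K) (hc' : 0 < c')
    (hK' : 0 ≤ K') (hl : 0 < l) (hτ : 0 ≤ τ) (hZu : 0 ≤ Zu)
    (hη : η = 1 / (2 * ((K / c + 1) * K' / c') + 1))
    (h1 : Zu = Z1 + Z2) (h2 : c * Z1 ≤ K * M + K * Z2)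
    (h3 : c' * Z2 ≤ 8 * M ^ 2 + 16 * M ^ 2 / l * τ + K' * η * Zu) :
    Zu ≤ (|2 * (K * M / c)| + 2 * ((K / c + 1) / c') * (8 * M ^ 2) +
      2 * ((K / c + 1) / c') * (16 * M ^ 2 / l)) * (1 + τ) := by
  obtain ⟨B, hB⟩ : ∃ B : ℝ, B = K / c + 1 := ⟨_, rfl⟩
  rw [← hB] at hη ⊢
  have hKc : 0 ≤ K / c := div_nonneg hK hc.le
  have hB0 : 0 < B := by rw [hB]; linarith
  have g1 : Z1 ≤ K * M / c + K / c * Z2 := by
    have : Z1 ≤ (K * M + K * Z2) / c := by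
      rw [le_div_iff₀ hc]; linarith
    refine this.trans (le_of_eq ?_)
    ring
  have g2 : Zu ≤ K * M / c + B * Z2 := by
    have : B * Z2 = K / c * Z2 + Z2 := by rw [hB]; ring
    linarith
  have g4 : Z2 ≤ (8 * M ^ 2 + 16 * M ^ 2 / l * τ + K' * η * Zu) / c' := by
    rw [le_div_iff₀ hc']; linarith
  have g5 : B * Z2 ≤ B / c' * (8 * M ^ 2 + 16 * M ^ 2 / l * τ + K' * η * Zu) := by
    refine (mul_le_mul_of_nonneg_left g4 hB0.le).trans (le_of_eq ?_)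
    ring
  have g6 : B / c' * (K' * η * Zu) ≤ Zu / 2 := by
    have hD0 : 0 ≤ B * K' / c' := by positivity
    have h6 : B * K' / c' * η ≤ 1 / 2 := by
      rw [hη, mul_one_div, div_le_div_iff₀ (by positivity) (by norm_num)]
      linarith
    have h7 : B * K' / c' * η * Zu ≤ 1 / 2 * Zu := mul_le_mul_of_nonneg_right h6 hZu
    calc B / c' * (K' * η * Zu) = B * K' / c' * η * Zu := by ring
      _ ≤ 1 / 2 * Zu := h7
      _ = Zu / 2 := by ring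
  have g7 : Zu ≤ 2 * (K * M / c) + 2 * (B / c') * (8 * M ^ 2) +
      2 * (B / c') * (16 * M ^ 2 / l) * τ := by
    have e2 : B / c' * (8 * M ^ 2 + 16 * M ^ 2 / l * τ + K' * η * Zu) =
      B / c' * (8 * M ^ 2) + B / c' * (16 * M ^ 2 / l) * τ + B / c' * (K' * η * Zu) := by ring
    linarith
  have a1 := le_abs_self (2 * (K * M / c))
  have a2 := abs_nonneg (2 * (K * M / c))
  have a3 : 0 ≤ 2 * (B / c') * (8 * M ^ 2) := by positivity
  have a4 : 0 ≤ 2 * (B / c') * (16 * M ^ 2 / l) := by positivity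
  have a5 := mul_nonneg (add_nonneg a2 a3) hτ
  nlinarith

theorem z_timeG (HL : HypL d (1 + a) s b C Ca cb) (U : UE s a m q) (e : Fin d) {θ η c K : ℝ}
    (hθ : 0 < θ) (hη : 0 < η) (hη1 : η ≤ 1 / 2) (hc : 0 < c) (hK : 0 ≤ K)
    (hJ : ∀ (M T : ℝ) (f : ℝ → Vec d → Vec d → ℝ), IsBoltzmannSol (1 + a) b T f → GB M (f 0) →
      ∀ r t : ℝ, 0 < r → r ≤ t → t < T →
      c * ∫ τ in r..t, (∫ x, ZS e θ η a q (f τ x) (thinS e θ ∪ ncS η) ∂(muD d)) ≤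
        K * M + K * ∫ τ in r..t, (∫ x, ZS e θ η a q (f τ x) (thinS e θ ∪ ncS η)ᶜ ∂(muD d)))
    (M : ℝ) : ∃ K' : ℝ, 0 ≤ K' ∧ ∀ (T : ℝ) (f : ℝ → Vec d → Vec d → ℝ), IsBoltzmannSol (1 + a) b T f →
      Planar e T f → GB M (f 0) → ∀ r t : ℝ, 0 < r → r ≤ t → t < T →
      ∫ τ in r..t, (∫ x, ZS e θ η a q (f τ x) univ ∂(muD d)) ≤ K' * (1 + (t - r)) := by
  have hSm : MeasurableSet (thinS e θ ∪ ncS (d := d) η) := (thinS_meas e θ).union (ncS_meas η)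
  obtain ⟨c', K₁, hc', hK₁, hD⟩ := pair_timeG HL U e hθ hη hη1
  obtain ⟨η', hη'⟩ : ∃ η' : ℝ, η' = 1 / (2 * ((K / c + 1) * K₁ / c') + 1) := ⟨_, rfl⟩
  have hη'0 : 0 < η' := by rw [hη']; positivity
  obtain ⟨l, hl, hl1, hE⟩ := equi e M (q := 1) zero_le_one one_lt_two hη'0
  refine ⟨|2 * (K * M / c)| + 2 * ((K / c + 1) / c') * (8 * M ^ 2) +
      2 * ((K / c + 1) / c') * (16 * M ^ 2 / l), by positivity, ?_⟩
  intro T f hf hpl h0 r t hr hrt htT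
  have hτ : ∀ τ ∈ Icc r t, τ ∈ Ico 0 T := fun τ hτ => ⟨hr.le.trans hτ.1, hτ.2.trans_lt htT⟩
  have h2 := hJ M T f hf h0 r t hr hrt htT
  have h3 := hD M T f hf hpl h0 l η' hl hl1 (fun t' ht' x => by
    have hg := glob_bounds HL.H hf h0 (t := t') ⟨ht'.1.le, ht'.2⟩
    exact hE l hl le_rfl (f t') _ (fs_of hf hpl ht') hg.mass hg.energy hg.entropy x) r t hr hrt htT
  have i1 := ZSt_ii U e θ η hf hSm hr.le hrt htT
  have i2 := ZSt_ii U e θ η hf hSm.compl hr.le hrt htT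
  have h1 : ∫ τ in r..t, (∫ x, ZS e θ η a q (f τ x) univ ∂(muD d)) =
      (∫ τ in r..t, (∫ x, ZS e θ η a q (f τ x) (thinS e θ ∪ ncS η) ∂(muD d))) +
        ∫ τ in r..t, (∫ x, ZS e θ η a q (f τ x) (thinS e θ ∪ ncS η)ᶜ ∂(muD d)) := by
    rw [← intervalIntegral.integral_add i1 i2]
    refine intervalIntegral.integral_congr fun τ hτ' => ?_
    rw [uIcc_of_le hrt] at hτ'
    have hτ1 := hτ τ hτ'
    have hτ2 : τ ∈ Ioo 0 T := ⟨hr.trans_le hτ'.1, hτ'.2.trans_lt htT⟩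
    show ∫ x, ZS e θ η a q (f τ x) univ ∂(muD d) =
      (∫ x, ZS e θ η a q (f τ x) (thinS e θ ∪ ncS η) ∂(muD d)) +
        ∫ x, ZS e θ η a q (f τ x) (thinS e θ ∪ ncS η)ᶜ ∂(muD d)
    rw [← integral_add (zs_int U e θ η hf hSm hτ1) (zs_int U e θ η hf hSm.compl hτ1)]
    refine integral_congr_ae (Eventually.of_forall fun x => ?_)
    exact (ZS_add U e θ η (hf.nice hτ2 x).rd (hf.nice hτ2 x).cont
      (fun v => hf.nonneg τ hτ1 x v) hSm).symm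
  have hZu : 0 ≤ ∫ τ in r..t, (∫ x, ZS e θ η a q (f τ x) univ ∂(muD d)) :=
    intervalIntegral.integral_nonneg hrt fun τ hτ' =>
      integral_nonneg fun x => ZS_nonneg e θ η a q (fun v => hf.nonneg τ (hτ τ hτ') x v) univ
  exact absorb hc hK hc' hK₁ hl (sub_nonneg.2 hrt) hZu hη' h1 h2 h3

end Pool.Agent.H85.UP
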