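import Pool.Agent.H85.UP.Defs

/-!
# Module GMu: the weight `mu0` and the antisymmetric weight `TG`

`mu0 v w = jb v jb w / RR v w`, `TG e v w = (v e - w e) mu0 v w`, `RR² = jb v² + jb w²`, `1 ≤ jb`.
* `mu0_pos`, `mu0_le_left`: `jb w ≤ RR`; `mu0_le_right`; `mu0_comm` (`RR_comm`).
* `TG_abs`: `|v_e - w_e| ≤ len ≤ 2 RR`, so `|TG| ≤ 2 jb v jb w ≤ 2 jb v² jb w²`.
* `VTG_le`: `(v_e-w_e)² ≤ nsq (v-w) ≤ 2 RR²` (`nsq_sub_le_RR`), `V_e TG ≤ 2 RR jb v jb w ≤ 4 jb v² jb w²` (`RR_le`, `jb ≥ 1`).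
* `TG_lip`: `F = TG e u`, `r = jb u`, `y = jb w`, `y' = jb w'`, by symmetry in `w, w'` assume `y ≤ y'`. `g(y) = r y/√(r²+y²)`,
  `F w' - F w = (u_e - w_e)(g(y') - g(y)) - (w'_e - w_e) g(y')`, `0 ≤ g(y') ≤ r`, `0 ≤ g(y') - g(y) ≤ r (y'-y)/√(r²+y²)` (`1/√(r²+y'²) ≤ 1/√(r²+y²)`; `g` is increasing),
  `|u_e - w_e| ≤ r + y ≤ 2 √(r²+y²)` and `|y'-y| ≤ len (w'-w)` (`jb_lip`), so `|F w' - F w| ≤ 2 r |y'-y| + r |w'_e-w_e| ≤ 3 r len (w-w')`.
* `VTG_low`: if `(v,w)` is neither thin nor in `ncS η`, then `|V_e| > θ L`, `len v > η len w`, `len w > η len v`, hence (`jb² = 1 + nsq`, `η ≤ 1`) `jb v ≥ η jb w`, `jb w ≥ η jb v`,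
  and `jb v jb w ≥ η max² ≥ (η/2) RR²`; `V_e TG = V_e² jb v jb w/RR ≥ θ² L² (η/2) RR`.
* `TG_PGW`: continuity is clear (`RR ≥ 1`), growth from `TG_abs` and `jb_le_w`.
-/

set_option autoImplicit false

open MeasureTheory Set Filter Topology Pool.Agent.H25.Kin Pool.Agent.H48.PL

namespace Pool.Agent.H85.UP

variable {d : ℕ}

theorem mu0_pos (v w : Vec d) : 0 < mu0 v w := by
  exact div_pos (mul_pos (jb_pos v) (jb_pos w)) (RR_pos v w)

theorem mu0_le_left (v w : Vec d) : mu0 v w ≤ jb v := by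
  unfold mu0
  rw [div_le_iff₀ (RR_pos v w)]
  exact mul_le_mul_of_nonneg_left (jb_le_RR_right v w) (jb_pos v).le

theorem mu0_le_right (v w : Vec d) : mu0 v w ≤ jb w := by
  unfold mu0
  rw [div_le_iff₀ (RR_pos v w), mul_comm (jb v)]
  exact mul_le_mul_of_nonneg_left (jb_le_RR_left v w) (jb_pos w).le

theorem mu0_comm (v w : Vec d) : mu0 v w = mu0 w v := by
  unfold mu0
  rw [RR_comm v w, mul_comm (jb v)]

theorem TG_anti (e : Fin d) (v w : Vec d) : TG e w v = -TG e v w := by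
  unfold TG
  rw [mu0_comm w v]
  ring

theorem TG_abs (e : Fin d) (v w : Vec d) : |TG e v w| ≤ 2 * (jb v ^ 2 * jb w ^ 2) := by
  have h1 := one_le_jb v
  have h2 := one_le_jb w
  have hR := RR_pos v w
  have h3 : |v e - w e| ≤ 2 * RR v w := (abs_coord_le (v - w) e).trans (len_le_RR v w)
  have h4 : |TG e v w| ≤ 2 * (jb v * jb w) := by
    unfold TG
    rw [abs_mul, abs_of_pos (mu0_pos v w)]
    refine (mul_le_mul_of_nonneg_right h3 (mu0_pos v w).le).trans (le_of_eq ?_)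
    unfold mu0
    field_simp
  have h5 : 1 ≤ jb v * jb w := one_le_mul_of_one_le_of_one_le h1 h2
  nlinarith

theorem VTG_nonneg (e : Fin d) (v w : Vec d) : 0 ≤ (v e - w e) * TG e v w := by
  unfold TG
  rw [← mul_assoc]
  exact mul_nonneg (mul_self_nonneg _) (mu0_pos v w).le

theorem VTG_le (e : Fin d) (v w : Vec d) : (v e - w e) * TG e v w ≤ 4 * (jb v ^ 2 * jb w ^ 2) := by
  have h1 := one_le_jb v
  have h2 := one_le_jb w
  have hR := RR_pos v w
  have h3 : (v e - w e) ^ 2 ≤ 2 * RR v w ^ 2 := by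
    refine le_trans ?_ (nsq_sub_le_RR v w)
    rw [← len_sq, ← sq_abs (v e - w e)]
    exact pow_le_pow_left₀ (abs_nonneg _) (abs_coord_le (v - w) e) 2
  have h4 : (v e - w e) * TG e v w ≤ 2 * RR v w * (jb v * jb w) := by
    unfold TG
    rw [← mul_assoc, ← sq]
    refine (mul_le_mul_of_nonneg_right h3 (mu0_pos v w).le).trans (le_of_eq ?_)
    unfold mu0
    field_simp
  have h5 := RR_le v w
  have h6 : jb v + jb w ≤ 2 * (jb v * jb w) := by nlinarith
  have h7 : 0 ≤ jb v * jb w := by positivity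
  calc (v e - w e) * TG e v w ≤ 2 * RR v w * (jb v * jb w) := h4
    _ ≤ 2 * (2 * (jb v * jb w)) * (jb v * jb w) := by
        have := h5.trans h6
        gcongr
    _ = _ := by ring

private lemma tg_lip_aux (e : Fin d) (u : Vec d) {w w' : Vec d} (h : jb w ≤ jb w') :
    |TG e u w' - TG e u w| ≤ 3 * jb u * len (w - w') := by
  have hr := one_le_jb u
  have hy := one_le_jb w
  have hy' := one_le_jb w'
  have hR := RR_pos u w
  have hR' := RR_pos u w'
  have e1 := RR_sq u w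
  have e2 := RR_sq u w'
  have hRR : RR u w ≤ RR u w' := abs_le_of_sq_le_sq' (by rw [e1, e2]; nlinarith) hR'.le |>.2
  have g1 : mu0 u w ≤ mu0 u w' := by
    unfold mu0
    rw [div_le_div_iff₀ hR hR', mul_assoc, mul_assoc]
    refine mul_le_mul_of_nonneg_left ?_ (by linarith)
    refine abs_le_of_sq_le_sq' ?_ (by positivity) |>.2
    rw [mul_pow, mul_pow, e1, e2]
    have h1 : jb w ^ 2 ≤ jb w' ^ 2 := pow_le_pow_left₀ (by linarith) h 2
    nlinarith [mul_le_mul_of_nonneg_left h1 (sq_nonneg (jb u))]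
  have g2 : mu0 u w' - mu0 u w ≤ jb u * (jb w' - jb w) / RR u w := by
    have h1 : mu0 u w' ≤ jb u * jb w' / RR u w := by
      unfold mu0
      exact div_le_div_of_nonneg_left (by positivity) hR hRR
    have h2 : jb u * (jb w' - jb w) / RR u w = jb u * jb w' / RR u w - mu0 u w := by
      unfold mu0
      ring
    linarith
  have g3 := mu0_le_left u w'
  have g4 := mu0_pos u w'
  have h3 : |u e - w e| ≤ 2 * RR u w := (abs_coord_le (u - w) e).trans (len_le_RR u w)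
  have h4 : |w' e - w e| ≤ len (w - w') := by
    rw [len_comm]
    exact abs_coord_le (w' - w) e
  have h5 : jb w' - jb w ≤ len (w - w') := by
    rw [len_comm]
    exact (le_abs_self _).trans (jb_lip w' w)
  have e3 : TG e u w' - TG e u w =
      (u e - w e) * (mu0 u w' - mu0 u w) - (w' e - w e) * mu0 u w' := by
    unfold TG
    ring
  rw [e3]
  have k1 : |(u e - w e) * (mu0 u w' - mu0 u w)| ≤ 2 * jb u * (jb w' - jb w) := by
    rw [abs_mul, abs_of_nonneg (sub_nonneg.2 g1)]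
    calc |u e - w e| * (mu0 u w' - mu0 u w)
        ≤ 2 * RR u w * (jb u * (jb w' - jb w) / RR u w) :=
          mul_le_mul h3 g2 (sub_nonneg.2 g1) (by positivity)
      _ = _ := by field_simp
  have k2 : |(w' e - w e) * mu0 u w'| ≤ len (w - w') * jb u := by
    rw [abs_mul, abs_of_pos g4]
    exact mul_le_mul h4 g3 g4.le (len_nonneg _)
  have k3 : 2 * jb u * (jb w' - jb w) ≤ 2 * jb u * len (w - w') :=
    mul_le_mul_of_nonneg_left h5 (by linarith)
  calc _ ≤ _ := abs_sub _ _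
    _ ≤ 2 * jb u * len (w - w') + len (w - w') * jb u := add_le_add (k1.trans k3) k2
    _ = _ := by ring

theorem TG_lip (e : Fin d) (u w w' : Vec d) : |TG e u w - TG e u w'| ≤ 3 * jb u * len (w - w') := by
  rcases le_total (jb w) (jb w') with h | h
  · rw [abs_sub_comm]
    exact tg_lip_aux e u h
  · rw [len_comm]
    exact tg_lip_aux e u h

theorem TG_PGW (e : Fin d) : PGW (TG (d := d) e) := by
  constructor
  · have c1 : Continuous fun p : Vec d × Vec d => p.1 e - p.2 e := by fun_prop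
    exact c1.mul (((jb_cont.comp continuous_fst).mul (jb_cont.comp continuous_snd)).div RR_cont
      fun p => (RR_pos _ _).ne')
  · refine ⟨2, 2 * (((d : ℝ) + 1) ^ 2 * ((d : ℝ) + 1) ^ 2), by positivity, fun v w => ?_⟩
    have h1 : jb v ^ 2 ≤ (((d : ℝ) + 1) * (1 + ‖v‖)) ^ 2 :=
      pow_le_pow_left₀ (jb_pos v).le (jb_le_w v) 2
    have h2 : jb w ^ 2 ≤ (((d : ℝ) + 1) * (1 + ‖w‖)) ^ 2 :=
      pow_le_pow_left₀ (jb_pos w).le (jb_le_w w) 2
    calc |TG e v w| ≤ 2 * (jb v ^ 2 * jb w ^ 2) := TG_abs e v w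
      _ ≤ 2 * ((((d : ℝ) + 1) * (1 + ‖v‖)) ^ 2 * (((d : ℝ) + 1) * (1 + ‖w‖)) ^ 2) := by
          gcongr
      _ = _ := by ring

theorem VTG_low (e : Fin d) {θ η : ℝ} (hθ : 0 < θ) (hη : 0 < η) (hη1 : η ≤ 1 / 2) {v w : Vec d}
    (h : (v, w) ∉ thinS e θ ∪ ncS η) :
    θ ^ 2 * η / 2 * (len (v - w) ^ 2 * RR v w) ≤ (v e - w e) * TG e v w := by
  rw [mem_union, not_or] at h
  obtain ⟨h1, h2⟩ := h
  unfold thinS at h1
  unfold ncS at h2
  rw [mem_setOf_eq, not_le] at h1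
  rw [mem_setOf_eq, not_or, not_le, not_le] at h2
  obtain ⟨h2, h3⟩ := h2
  have hjv := jb_pos v
  have hjw := jb_pos w
  have hR := RR_pos v w
  have hv0 := len_nonneg v
  have hw0 := len_nonneg w
  have a1 : η * jb w ≤ jb v := by
    refine abs_le_of_sq_le_sq' ?_ hjv.le |>.2
    rw [mul_pow, jb_sq, jb_sq, ← len_sq, ← len_sq]
    have : (η * len w) ^ 2 ≤ len v ^ 2 := pow_le_pow_left₀ (by positivity) h2.le 2
    nlinarith
  have a2 : η * jb v ≤ jb w := by
    refine abs_le_of_sq_le_sq' ?_ hjw.le |>.2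
    rw [mul_pow, jb_sq, jb_sq, ← len_sq, ← len_sq]
    have : (η * len v) ^ 2 ≤ len w ^ 2 := pow_le_pow_left₀ (by positivity) h3.le 2
    nlinarith
  have a3 : η / 2 * RR v w ^ 2 ≤ jb v * jb w := by
    rw [RR_sq]
    rcases le_total (jb v) (jb w) with h | h
    · nlinarith [mul_le_mul_of_nonneg_right a1 hjw.le]
    · nlinarith [mul_le_mul_of_nonneg_right a2 hjv.le]
  have a4 : η / 2 * RR v w ≤ mu0 v w := by
    unfold mu0
    rw [le_div_iff₀ hR]
    refine le_trans (le_of_eq ?_) a3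
    ring
  have hL := len_nonneg (v - w)
  have a5 : θ ^ 2 * len (v - w) ^ 2 ≤ (v e - w e) ^ 2 := by
    rw [← sq_abs (v e - w e), ← mul_pow]
    exact pow_le_pow_left₀ (by positivity) h1.le 2
  have e1 : (v e - w e) * TG e v w = (v e - w e) ^ 2 * mu0 v w := by
    unfold TG
    ring
  rw [e1]
  calc θ ^ 2 * η / 2 * (len (v - w) ^ 2 * RR v w)
      = θ ^ 2 * len (v - w) ^ 2 * (η / 2 * RR v w) := by ring
    _ ≤ (v e - w e) ^ 2 * mu0 v w := mul_le_mul a5 a4 (by positivity) (sq_nonneg _)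

end Pool.Agent.H85.UP
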