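import Pool.Agent.H85.UP.GEv
import Pool.Agent.H85.UP.GCol
import Pool.Agent.H85.UP.GMu

/-!
# Module GInc: the increment of `TG e u` in a collision is of second order

CLAIM. `|F(post)+F(post')-F(v)-F(w)| ≤ 1100 jb u (L/RR) l`, `F = TG e u`, `L = len (v-w)`, `RR = RR v w`, `l = len (post - v)`.
Proof. (1) `RR < 4L`: `TG_lip` twice (`col_post'`): `≤ 6 jb u l ≤ 24 jb u (L/RR) l`.
(2) `4L ≤ RR`. `r = jb u`, `A = RR²/2`, `ρ = RR²/4`. `F w = (u_e - w_e) G(jb w²)`, `G(τ) = r √τ/√(r²+τ)` (`RR u w = √(r²+jb w²)`).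
`t = jb v² - A`, `t' = jb post² - A`: `jb w² = A - t`, `jb post'² = A - t'`, `|t|, |t'| ≤ L RR ≤ ρ`, `|t'-t| ≤ 2 RR l` (`col_t`, `col_t'`, `col_post_t`, `col_dt`).
With `c_e = (v_e+w_e)/2`, `h = (v_e-w_e)/2`, `h' = (post_e-post'_e)/2`, `v_e = c_e+h`, `w_e = c_e-h`, same for `post` (`col_sum`):
`F v + F w = (u_e-c_e) Ge(t) - h Go(t)`, `Ge(t) = G(A+t)+G(A-t)`, `Go(t) = G(A+t)-G(A-t)`, so
`Δ = (u_e-c_e)(Ge(t')-Ge(t)) - h'(Go(t')-Go(t)) - (h'-h) Go(t)`.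
On `[A-ρ,A+ρ] = [RR²/4, 3RR²/4]`: `r²+τ ≥ (r²+RR²)/4`, `√τ ≥ RR/2`, `√(r²+τ) ≥ S/2`, `S = √(r²+RR²)`.
`G1(τ) = r³/(2 √τ √(r²+τ)³)`, `G2(τ) = -r³(r²+4τ)/(4 √τ³ √(r²+τ)⁵)`. `|G1| ≤ κ₁ = 8 r³/(RR S³)`, `|G2| ≤ r³/(√τ³ √(r²+τ)³) ≤ κ₂ = 64 r³/(RR³ S³)`.
`|u_e-c_e| ≤ r+RR ≤ 2S` (`col_coord`, `abs_coord_le`, `len_le_jb`). `ev_od`:
first term `≤ 2S · 2κ₂ · 2L RR · 2RR l = 1024 r³ L l/(RR S²) ≤ 1024 r L l/RR`; second `≤ (L/2) · 2κ₁ · 2RR l = 16 r³ L l/S³ ≤ 16 r L l/RR` (`|h'| ≤ L/2` by `col_len`, `abs_coord_le`);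
third `≤ l · 2κ₁ L RR = 16 r³ L l/S³ ≤ 16 r L l/RR` (`|h'-h| = |post_e - v_e| ≤ l`).
-/

set_option autoImplicit false

open MeasureTheory Set Filter Topology Pool.Agent.H25.Kin Pool.Agent.H48.PL

namespace Pool.Agent.H85.UP

variable {d : ℕ}

private lemma dG {r x : ℝ} (hr : 0 < r) (hx : 0 < x) :
    HasDerivAt (fun τ : ℝ => r * √τ / √(r ^ 2 + τ)) (r ^ 3 / (2 * √x * √(r ^ 2 + x) ^ 3)) x := by
  have hy : 0 < r ^ 2 + x := by positivity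
  have hp : 0 < √x := Real.sqrt_pos.2 hx
  have hq : 0 < √(r ^ 2 + x) := Real.sqrt_pos.2 hy
  have hp2 : √x ^ 2 = x := Real.sq_sqrt hx.le
  have hq2 : √(r ^ 2 + x) ^ 2 = r ^ 2 + x := Real.sq_sqrt hy.le
  have h1 : HasDerivAt (fun τ : ℝ => r * √τ) (r * (1 / (2 * √x))) x :=
    (Real.hasDerivAt_sqrt hx.ne').const_mul r
  have h2 : HasDerivAt (fun τ : ℝ => √(r ^ 2 + τ)) (1 / (2 * √(r ^ 2 + x))) x := by
    have := ((hasDerivAt_id x).const_add (r ^ 2)).sqrt hy.ne'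
    simpa using this
  have h3 := h1.div h2 hq.ne'
  refine h3.congr_deriv ?_
  have e1 : r * (1 / (2 * √x)) * √(r ^ 2 + x) - r * √x * (1 / (2 * √(r ^ 2 + x))) =
      r ^ 3 / (2 * √x * √(r ^ 2 + x)) := by
    have e0 : r * (1 / (2 * √x)) * √(r ^ 2 + x) - r * √x * (1 / (2 * √(r ^ 2 + x))) =
        r * (√(r ^ 2 + x) ^ 2 - √x ^ 2) / (2 * √x * √(r ^ 2 + x)) := by
      field_simp
    rw [e0, hp2, hq2]
    congr 1
    ring
  rw [e1]
  field_simp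

private lemma dG1 {r x : ℝ} (hr : 0 < r) (hx : 0 < x) :
    HasDerivAt (fun τ : ℝ => r ^ 3 / (2 * √τ * √(r ^ 2 + τ) ^ 3))
      (-(r ^ 3 * (r ^ 2 + 4 * x)) / (4 * √x ^ 3 * √(r ^ 2 + x) ^ 5)) x := by
  have hy : 0 < r ^ 2 + x := by positivity
  have hp : 0 < √x := Real.sqrt_pos.2 hx
  have hq : 0 < √(r ^ 2 + x) := Real.sqrt_pos.2 hy
  have hp2 : √x ^ 2 = x := Real.sq_sqrt hx.le
  have hq2 : √(r ^ 2 + x) ^ 2 = r ^ 2 + x := Real.sq_sqrt hy.le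
  have h1 : HasDerivAt (fun τ : ℝ => 2 * √τ) (2 * (1 / (2 * √x))) x :=
    (Real.hasDerivAt_sqrt hx.ne').const_mul 2
  have h2 : HasDerivAt (fun τ : ℝ => √(r ^ 2 + τ)) (1 / (2 * √(r ^ 2 + x))) x := by
    have := ((hasDerivAt_id x).const_add (r ^ 2)).sqrt hy.ne'
    simpa using this
  have h4 := h1.mul (h2.pow 3)
  have hne : 2 * √x * √(r ^ 2 + x) ^ 3 ≠ 0 := by positivity
  have h5 := (hasDerivAt_const x (r ^ 3)).div h4 hne
  refine h5.congr_deriv ?_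
  have e0 : -(r ^ 3 * (r ^ 2 + 4 * x)) = -(r ^ 3 * (√(r ^ 2 + x) ^ 2 + 3 * √x ^ 2)) := by
    rw [hp2, hq2]; ring
  rw [e0]
  show ((0 : ℝ) * (2 * √x * √(r ^ 2 + x) ^ 3) - r ^ 3 * (2 * (1 / (2 * √x)) * √(r ^ 2 + x) ^ 3 +
    2 * √x * (((3 : ℕ) : ℝ) * √(r ^ 2 + x) ^ (3 - 1) * (1 / (2 * √(r ^ 2 + x)))))) /
      (2 * √x * √(r ^ 2 + x) ^ 3) ^ 2 = _
  simp only [zero_mul, zero_sub, Nat.cast_ofNat]
  field_simp
  ring

private lemma bd1 {r p q R S : ℝ} (hr : 0 < r) (hR : 0 < R) (hS : 0 < S) (hp : R / 2 ≤ p) (hq : S / 2 ≤ q) :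
    |r ^ 3 / (2 * p * q ^ 3)| ≤ 8 * r ^ 3 / (R * S ^ 3) := by
  have hp0 : 0 < p := lt_of_lt_of_le (by positivity) hp
  have hq0 : 0 < q := lt_of_lt_of_le (by positivity) hq
  rw [abs_of_pos (by positivity)]
  calc r ^ 3 / (2 * p * q ^ 3) ≤ r ^ 3 / (2 * (R / 2) * (S / 2) ^ 3) := by gcongr
    _ = 8 * r ^ 3 / (R * S ^ 3) := by field_simp; try ring

private lemma bd2 {r x p q R S : ℝ} (hr : 0 < r) (hx : 0 < x) (hR : 0 < R) (hS : 0 < S) (hp : R / 2 ≤ p)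
    (hq : S / 2 ≤ q) (hq2 : q ^ 2 = r ^ 2 + x) :
    |-(r ^ 3 * (r ^ 2 + 4 * x)) / (4 * p ^ 3 * q ^ 5)| ≤ 64 * r ^ 3 / (R ^ 3 * S ^ 3) := by
  have hp0 : 0 < p := lt_of_lt_of_le (by positivity) hp
  have hq0 : 0 < q := lt_of_lt_of_le (by positivity) hq
  rw [neg_div, abs_neg, abs_of_pos (by positivity)]
  calc r ^ 3 * (r ^ 2 + 4 * x) / (4 * p ^ 3 * q ^ 5) ≤ r ^ 3 * (4 * q ^ 2) / (4 * p ^ 3 * q ^ 5) := by
        gcongr
        rw [hq2]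
        nlinarith [sq_nonneg r]
    _ = r ^ 3 / (p ^ 3 * q ^ 3) := by field_simp
    _ ≤ r ^ 3 / ((R / 2) ^ 3 * (S / 2) ^ 3) := by gcongr
    _ = 64 * r ^ 3 / (R ^ 3 * S ^ 3) := by field_simp; try ring

private lemma abs_sub_le_abs_add (a b : ℝ) : |a - b| ≤ |a| + |b| := by
  rw [sub_eq_add_neg]
  refine (abs_add_le _ _).trans ?_
  rw [abs_neg]

/-- the profile -/
private noncomputable def Gf (r τ : ℝ) : ℝ := r * √τ / √(r ^ 2 + τ)

private lemma TG_Gf (e : Fin d) (u x : Vec d) : TG e u x = (u e - x e) * Gf (jb u) (jb x ^ 2) := by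
  unfold TG mu0 Gf
  have h1 : √(jb x ^ 2) = jb x := Real.sqrt_sq (jb_pos x).le
  have h2 : √(jb u ^ 2 + jb x ^ 2) = RR u x := by
    rw [← RR_sq]
    exact Real.sqrt_sq (RR_pos u x).le
  rw [h1, h2]

private lemma gi_a {r l q : ℝ} (hX : 0 ≤ r * q * l) (h6 : r * l ≤ 4 * (r * q * l)) :
    3 * r * l + 3 * r * l ≤ 1100 * r * q * l := by
  have e : 1100 * r * q * l = 1100 * (r * q * l) := by ring
  have e' : 3 * r * l + 3 * r * l = 6 * (r * l) := by ring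
  rw [e, e']
  linarith

private lemma gi_b {r q l a b c : ℝ} (hX : 0 ≤ r * q * l) (T1 : a ≤ 1024 * (r * q * l)) (T2 : b ≤ 16 * (r * q * l))
    (T3 : c ≤ 16 * (r * q * l)) : a + b + c ≤ 1100 * r * q * l := by
  have e : 1100 * r * q * l = 1100 * (r * q * l) := by ring
  rw [e]
  linarith

private lemma gi_c {L R : ℝ} (hR : 0 < R) (hc : 4 * L ≤ R) : L * R ≤ R ^ 2 / 4 := by
  have h := mul_le_mul_of_nonneg_right hc hR.le
  have e : R ^ 2 / 4 = R * R / 4 := by ring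
  have e' : 4 * L * R = 4 * (L * R) := by ring
  rw [e'] at h
  rw [e]
  linarith

private lemma gi_pos {r R S A : ℝ} (hR : 0 < R) (hS2 : S ^ 2 = r ^ 2 + R ^ 2) (hA : A = R ^ 2 / 2) :
    ∀ x ∈ Icc (A - R ^ 2 / 4) (A + R ^ 2 / 4), 0 < x ∧ R / 2 ≤ √x ∧ S / 2 ≤ √(r ^ 2 + x) := by
  intro x hx
  have hR2 : 0 < R ^ 2 := by positivity
  have hx1 : R ^ 2 / 4 ≤ x := by
    have := hx.1
    rw [hA] at this
    linarith
  have hr2 : 0 ≤ r ^ 2 := sq_nonneg r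
  refine ⟨by linarith, ?_, ?_⟩
  · apply Real.le_sqrt_of_sq_le
    rw [div_pow]
    linarith
  · apply Real.le_sqrt_of_sq_le
    rw [div_pow, hS2]
    linarith

private lemma gi_close {r R L l : ℝ} (hR : 0 < R) (hX : 0 ≤ r * (L / R) * l) (h0 : 0 ≤ r * l) (hc : R < 4 * L) :
    3 * r * l + 3 * r * l ≤ 1100 * r * (L / R) * l := by
  have h4 : 1 ≤ 4 * (L / R) := by
    rw [← mul_div_assoc, le_div_iff₀ hR]
    linarith
  refine gi_a hX ?_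
  calc r * l = 1 * (r * l) := (one_mul _).symm
    _ ≤ 4 * (L / R) * (r * l) := mul_le_mul_of_nonneg_right h4 h0
    _ = _ := by ring

private lemma gi_T1 {r R S L l : ℝ} (hR : 0 < R) (hS : 0 < S) (hX : 0 ≤ r * (L / R) * l) (h1 : r ^ 2 / S ^ 2 ≤ 1) :
    (2 * S) * (2 * (64 * r ^ 3 / (R ^ 3 * S ^ 3)) * (L * R + L * R) * (2 * R * l)) ≤
      1024 * (r * (L / R) * l) := by
  have e : (2 * S) * (2 * (64 * r ^ 3 / (R ^ 3 * S ^ 3)) * (L * R + L * R) * (2 * R * l)) =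
      (r ^ 2 / S ^ 2) * (1024 * (r * (L / R) * l)) := by
    field_simp
    ring
  rw [e]
  exact mul_le_of_le_one_left (by positivity) h1

private lemma gi_T {r R S : ℝ} (hS : 0 < S) (hR : 0 < R) (h1 : r ^ 2 / S ^ 2 ≤ 1) (h2 : R / S ≤ 1) :
    (r ^ 2 / S ^ 2) * (R / S) ≤ 1 :=
  mul_le_one₀ h1 (by positivity) h2

private lemma gi_T2 {r R S L l : ℝ} (hR : 0 < R) (hS : 0 < S) (hX : 0 ≤ r * (L / R) * l) (h1 : r ^ 2 / S ^ 2 ≤ 1)
    (h2 : R / S ≤ 1) :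
    (L / 2) * (2 * (8 * r ^ 3 / (R * S ^ 3)) * (2 * R * l)) ≤ 16 * (r * (L / R) * l) := by
  have e : (L / 2) * (2 * (8 * r ^ 3 / (R * S ^ 3)) * (2 * R * l)) =
      ((r ^ 2 / S ^ 2) * (R / S)) * (16 * (r * (L / R) * l)) := by
    field_simp
    ring
  rw [e]
  exact mul_le_of_le_one_left (by positivity) (gi_T hS hR h1 h2)

private lemma gi_T3 {r R S L l : ℝ} (hR : 0 < R) (hS : 0 < S) (hX : 0 ≤ r * (L / R) * l) (h1 : r ^ 2 / S ^ 2 ≤ 1)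
    (h2 : R / S ≤ 1) :
    l * (2 * (8 * r ^ 3 / (R * S ^ 3)) * (L * R)) ≤ 16 * (r * (L / R) * l) := by
  have e : l * (2 * (8 * r ^ 3 / (R * S ^ 3)) * (L * R)) =
      ((r ^ 2 / S ^ 2) * (R / S)) * (16 * (r * (L / R) * l)) := by
    field_simp
    ring
  rw [e]
  exact mul_le_of_le_one_left (by positivity) (gi_T hS hR h1 h2)

private lemma gi_b1 {a c r R S : ℝ} (hu : |a| ≤ r) (hc : |c| ≤ R) (hrS : r ≤ S) (hRS : R ≤ S) :
    |a - c| ≤ 2 * S := by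
  have := abs_sub_le_abs_add a c
  linarith

private lemma gi_r {r R S : ℝ} (hS : 0 < S) (hS2 : S ^ 2 = r ^ 2 + R ^ 2) :
    r ^ 2 / S ^ 2 ≤ 1 := by
  rw [div_le_one (by positivity), hS2]
  have := sq_nonneg R
  linarith

private lemma gi_key {a v w p q g1 g2 g3 g4 : ℝ} (h : p + q = v + w) :
    (a - p) * g1 + (a - q) * g2 - (a - v) * g3 - (a - w) * g4 =
        (a - (v + w) / 2) * ((g1 + g2) - (g3 + g4)) - ((p - q) / 2) * ((g1 - g2) - (g3 - g4)) -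
        (p - v) * (g3 - g4) := by
  obtain rfl : q = v + w - p := by linarith
  ring

private lemma gi_half {x L : ℝ} (h : |x| ≤ L) : |x / 2| ≤ L / 2 := by
  rw [abs_div, abs_two]
  exact div_le_div_of_nonneg_right h (by norm_num)

private lemma gi_g1 {k a a' b X Y : ℝ} (hk : 0 ≤ k) (hX : 0 ≤ X) (ha : a ≤ X) (ha' : a' ≤ X) (hb0 : 0 ≤ b) (hb : b ≤ Y) :
    2 * k * (a + a') * b ≤ 2 * k * (X + X) * Y :=
  mul_le_mul (mul_le_mul_of_nonneg_left (add_le_add ha ha') (by positivity)) hb hb0 (by positivity)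

/-- the three products together, on abstract reals -/
private lemma gi_all {r R S L l x y z G1 G2 G3 : ℝ} (hr : 0 < r) (hR : 0 < R) (hS : 0 < S) (hL : 0 ≤ L) (hl : 0 ≤ l)
    (hS2 : S ^ 2 = r ^ 2 + R ^ 2) (hRS : R ≤ S) (b1 : |x| ≤ 2 * S) (b2 : |y| ≤ L / 2) (b3 : |z| ≤ l)
    (g1 : |G1| ≤ 2 * (64 * r ^ 3 / (R ^ 3 * S ^ 3)) * (L * R + L * R) * (2 * R * l))
    (g2 : |G2| ≤ 2 * (8 * r ^ 3 / (R * S ^ 3)) * (2 * R * l))
    (g3 : |G3| ≤ 2 * (8 * r ^ 3 / (R * S ^ 3)) * (L * R)) :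
    |x * G1 - y * G2 - z * G3| ≤ 1100 * r * (L / R) * l := by
  have hX : 0 ≤ r * (L / R) * l := by positivity
  have hr2S2 := gi_r (r := r) hS hS2
  have hRS1 : R / S ≤ 1 := (div_le_one hS).2 hRS
  have T1 : |x * G1| ≤ 1024 * (r * (L / R) * l) := by
    rw [abs_mul]
    exact (mul_le_mul b1 g1 (abs_nonneg _) (by positivity)).trans (gi_T1 hR hS hX hr2S2)
  have T2 : |y * G2| ≤ 16 * (r * (L / R) * l) := by
    rw [abs_mul]
    exact (mul_le_mul b2 g2 (abs_nonneg _) (by positivity)).trans (gi_T2 hR hS hX hr2S2 hRS1)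
  have T3 : |z * G3| ≤ 16 * (r * (L / R) * l) := by
    rw [abs_mul]
    exact (mul_le_mul b3 g3 (abs_nonneg _) hl).trans (gi_T3 hR hS hX hr2S2 hRS1)
  refine (abs_sub_le_abs_add _ _).trans ?_
  refine (add_le_add (abs_sub_le_abs_add _ _) le_rfl).trans ?_
  exact gi_b hX T1 T2 T3

theorem TG_inc (e : Fin d) (u : Vec d) {v w σ : Vec d} (hvw : v ≠ w) (hσ : nsq σ = 1) :
    |TG e u (post v w σ) + TG e u (post' v w σ) - TG e u v - TG e u w| ≤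
      1100 * jb u * (len (v - w) / RR v w) * len (post v w σ - v) := by
  have hr : 0 < jb u := jb_pos u
  have hR : 0 < RR v w := RR_pos v w
  have hL : 0 ≤ len (v - w) := len_nonneg _
  have hl : 0 ≤ len (post v w σ - v) := len_nonneg _
  rcases lt_or_ge (RR v w) (4 * len (v - w)) with hc | hc
  · -- close velocities
    have h1 := TG_lip e u (post v w σ) v
    have h2 := TG_lip e u (post' v w σ) w
    rw [col_post' v w σ] at h2
    have h3 : |TG e u (post v w σ) + TG e u (post' v w σ) - TG e u v - TG e u w| ≤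
        3 * jb u * len (post v w σ - v) + 3 * jb u * len (post v w σ - v) := by
      have e1 : TG e u (post v w σ) + TG e u (post' v w σ) - TG e u v - TG e u w =
          (TG e u (post v w σ) - TG e u v) + (TG e u (post' v w σ) - TG e u w) := by ring
      rw [e1]
      exact (abs_add_le _ _).trans (add_le_add h1 h2)
    exact h3.trans (gi_close hR (by positivity) (by positivity) hc)
  · -- velocities far from each other
    obtain ⟨S, hSdef⟩ : ∃ S : ℝ, S = √(jb u ^ 2 + RR v w ^ 2) := ⟨_, rfl⟩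
    have hS2 : S ^ 2 = jb u ^ 2 + RR v w ^ 2 := by rw [hSdef]; exact Real.sq_sqrt (by positivity)
    have hS : 0 < S := by rw [hSdef]; exact Real.sqrt_pos.2 (by positivity)
    have hrS : jb u ≤ S := by
      rw [hSdef]; exact Real.le_sqrt_of_sq_le (le_add_of_nonneg_right (sq_nonneg _))
    have hRS : RR v w ≤ S := by
      rw [hSdef]; exact Real.le_sqrt_of_sq_le (le_add_of_nonneg_left (sq_nonneg _))
    have ht0 := col_t v w
    have ht0' := col_t' v w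
    obtain ⟨hp1, hp2⟩ := col_post_t (v := v) (w := w) hσ
    have hdt := col_dt (v := v) (w := w) hσ
    have hLR := gi_c hR hc
    have hpos := gi_pos (r := jb u) hR hS2 rfl
    have htt : |(jb (post v w σ) ^ 2 - RR v w ^ 2 / 2) - (jb v ^ 2 - RR v w ^ 2 / 2)| ≤
        2 * RR v w * len (post v w σ - v) := by
      rw [sub_sub_sub_cancel_right]
      exact hdt
    obtain ⟨g1, g2, g3⟩ := ev_od (G := Gf (jb u))
      (G1 := fun τ => jb u ^ 3 / (2 * √τ * √(jb u ^ 2 + τ) ^ 3))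
      (G2 := fun τ => -(jb u ^ 3 * (jb u ^ 2 + 4 * τ)) / (4 * √τ ^ 3 * √(jb u ^ 2 + τ) ^ 5))
      (A := RR v w ^ 2 / 2) (ρ := RR v w ^ 2 / 4) (κ₁ := 8 * jb u ^ 3 / (RR v w * S ^ 3))
      (κ₂ := 64 * jb u ^ 3 / (RR v w ^ 3 * S ^ 3))
      (fun x hx => dG hr (hpos x hx).1) (fun x hx => dG1 hr (hpos x hx).1)
      (fun x hx => bd1 hr hR hS (hpos x hx).2.1 (hpos x hx).2.2)
      (fun x hx => bd2 hr (hpos x hx).1 hR hS (hpos x hx).2.1 (hpos x hx).2.2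
        (Real.sq_sqrt (by have := (hpos x hx).1; positivity)))
      (t := jb v ^ 2 - RR v w ^ 2 / 2) (t' := jb (post v w σ) ^ 2 - RR v w ^ 2 / 2)
      (ht0.trans hLR) (hp2.trans hLR)
    -- coordinates
    obtain ⟨-, -, k3, -, k5⟩ := col_coord (v := v) (w := w) hσ e
    have hsum := col_sum v w σ e
    have hu : |u e| ≤ jb u := (abs_coord_le u e).trans (len_le_jb u)
    have hdiff : |post v w σ e - post' v w σ e| ≤ len (v - w) := by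
      have h1 := abs_coord_le (post v w σ - post' v w σ) e
      rw [col_len hσ] at h1
      exact h1
    have ep : RR v w ^ 2 / 2 + (jb (post v w σ) ^ 2 - RR v w ^ 2 / 2) = jb (post v w σ) ^ 2 := add_sub_cancel _ _
    have ev : RR v w ^ 2 / 2 + (jb v ^ 2 - RR v w ^ 2 / 2) = jb v ^ 2 := add_sub_cancel _ _
    rw [ep, ev, ← hp1, ← ht0'] at g1 g3
    rw [ev, ← ht0'] at g2
    rw [TG_Gf, TG_Gf, TG_Gf, TG_Gf, gi_key hsum]
    have hk1 : 0 ≤ 2 * (8 * jb u ^ 3 / (RR v w * S ^ 3)) := by positivity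
    exact gi_all hr hR hS hL hl hS2 hRS (gi_b1 hu k3 hrS hRS) (gi_half hdiff) k5
      (g1.trans (gi_g1 (by positivity) (by positivity) ht0 hp2 (abs_nonneg _) htt))
      (g3.trans (mul_le_mul_of_nonneg_left htt hk1)) (g2.trans (mul_le_mul_of_nonneg_left ht0 hk1))

end Pool.Agent.H85.UP
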