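import Pool.Agent.H48.PL.SliB

/-!
# Module GSli: the pair functional with a general antisymmetric weight, one time slice

Copy of PL/SliB (`pair_slice`, `pair_abs`; all private lemmas of SliB are about a general `Φ`, copy them) with `Th e s a α` replaced by `Φ` and
`Th_PGW → hΦ`, `Th_antisymm → hanti`, `VTh_nonneg → hV0`, `VTh_le → hV`, `Th_abs → hA`, and the exponent `qq s a α` replaced by a real number `q`
(`sli_first`, `sli_third` of PL/SliA are general already).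
-/

set_option autoImplicit false

open MeasureTheory Set Filter Topology Pool.Agent.H25.Kin Pool.Agent.H48.PL

namespace Pool.Agent.H85.UP

variable {d : ℕ} {e : Fin d} {F G : Vec d → Vec d → ℝ} {l K q η M' c : ℝ} {X Y : Vec d → ℝ}
  {Φ : Vec d → Vec d → ℝ}

/-- constant in time slices are `UC` -/
private lemma gsl_uc {F : Vec d → Vec d → ℝ} (hc : Continuous fun p : Vec d × Vec d => F p.1 p.2)
    (hd : RX F) : UC univ (fun _ : ℝ => F) where
  cont := by
    have h : Continuous (unc fun _ : ℝ => F) := hc.comp continuous_snd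
    exact h.continuousOn
  dec := by
    intro t _
    refine ⟨univ, univ_mem, fun N => ?_⟩
    obtain ⟨C, hC⟩ := hd N
    exact ⟨C, fun r _ x w => hC x w⟩

private lemma gsl_avg_c {F : Vec d → Vec d → ℝ}
    (hc : Continuous fun p : Vec d × Vec d => F p.1 p.2) (hd : RX F) {Φ : Vec d → Vec d → ℝ}
    (hΦ : PGW Φ) : Continuous fun p : Vec d × Vec d => ∫ w, Φ p.1 w * F p.2 w := by
  have h := avg_cont (gsl_uc hc hd) hΦ
  rw [univ_prod_univ, continuousOn_univ] at h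
  have h2 : Continuous fun p : Vec d × Vec d => ((0 : ℝ), p.2, p.1) := by fun_prop
  exact h.comp h2

private lemma gsl_zint_c {F : Vec d → Vec d → ℝ}
    (hc : Continuous fun p : Vec d × Vec d => F p.1 p.2) (hd : RX F) {Φ : Vec d → Vec d → ℝ}
    (hΦ : PGW Φ) (e : Fin d) {l : ℝ} (hl : 0 < l) {k : ℝ → ℝ} (hk : Measurable k) {B : ℝ}
    (hB : ∀ z ∈ Ioo (-(l / 2)) (l / 2), |k z| ≤ B) :
    Continuous fun p : Vec d × Vec d => ∫ z in Ioo (-(l / 2)) (l / 2),
      k z * ∫ w, Φ p.1 w * F (p.2 - Pi.single e z) w := by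
  have h := zint_cont (gsl_uc hc hd) hΦ e hl hk hB
  rw [univ_prod_univ, continuousOn_univ] at h
  have h2 : Continuous fun p : Vec d × Vec d => ((0 : ℝ), p.2, p.1) := by fun_prop
  exact h.comp h2

private lemma gsl_avg_b {F : Vec d → Vec d → ℝ} (hd : RX F) {Φ : Vec d → Vec d → ℝ} (hΦ : PGW Φ) :
    ∃ (N : ℕ) (C : ℝ), 0 ≤ C ∧ ∀ x v, |∫ w, Φ v w * F x w| ≤ C * (1 + ‖v‖) ^ N := by
  obtain ⟨N, M, K, hK, h⟩ := avg_le hΦ
  obtain ⟨C, hC⟩ := hd M
  exact ⟨N, K * max C 0, by positivity,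
    fun x v => h (F x) (max C 0) (fun w => (hC x w).trans (le_max_left _ _)) v⟩

private lemma gsl_zint_b {F : Vec d → Vec d → ℝ} (hd : RX F) {Φ : Vec d → Vec d → ℝ} (hΦ : PGW Φ)
    (e : Fin d) {l : ℝ} (hl : 0 < l) {k : ℝ → ℝ} {B : ℝ} (hB0 : 0 ≤ B)
    (hB : ∀ z ∈ Ioo (-(l / 2)) (l / 2), |k z| ≤ B) :
    ∃ (N : ℕ) (C : ℝ), 0 ≤ C ∧ ∀ x v : Vec d, |∫ z in Ioo (-(l / 2)) (l / 2),
      k z * ∫ w, Φ v w * F (x - Pi.single e z) w| ≤ C * (1 + ‖v‖) ^ N := by
  obtain ⟨N, C, hC, h⟩ := gsl_avg_b hd hΦ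
  refine ⟨N, B * C * l, by positivity, fun x v => ?_⟩
  have h1 := norm_setIntegral_le_of_norm_le_const (μ := (volume : Measure ℝ))
    (s := Ioo (-(l / 2)) (l / 2)) (C := B * (C * (1 + ‖v‖) ^ N))
    (f := fun z => k z * ∫ w, Φ v w * F (x - (Pi.single e z : Vec d)) w) (by simp) (by
      intro z hz
      rw [norm_mul]
      exact mul_le_mul (hB z hz) (h _ v) (norm_nonneg _) hB0)
  have h2 : (volume : Measure ℝ).real (Ioo (-(l / 2)) (l / 2)) = l := by
    rw [Real.volume_real_Ioo_of_le (by linarith)]; ring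
  rw [h2, Real.norm_eq_abs] at h1
  refine h1.trans (le_of_eq (by ring))

private lemma gsl_int {F : Vec d → Vec d → ℝ} (hc : Continuous fun p : Vec d × Vec d => F p.1 p.2)
    (hd : RX F) {J : Vec d × Vec d → ℝ} (hJ : Continuous J) {N : ℕ} {C : ℝ} (hC : 0 ≤ C)
    (hb : ∀ p : Vec d × Vec d, |J p| ≤ C * (1 + ‖p.1‖) ^ N) :
    Integrable (fun p : Vec d × Vec d => F p.2 p.1 * J p) (nu d) := by
  obtain ⟨D, hD⟩ := hd (N + (d + 1))
  have h2 : Continuous fun p : Vec d × Vec d => (p.2, p.1) := by fun_prop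
  have hcF : Continuous fun p : Vec d × Vec d => F p.2 p.1 := hc.comp h2
  refine integrable_nu (C := C * D) (hcF.mul hJ).aestronglyMeasurable fun q => ?_
  have hw : (0 : ℝ) < 1 + ‖q.1‖ := w_pos q.1
  have h3 : |F q.2 q.1| * (1 + ‖q.1‖) ^ N ≤ D * wt d q.1 := by
    unfold wt
    rw [← div_eq_mul_inv, le_div_iff₀ (pow_pos hw _)]
    have := hD q.2 q.1
    rw [pow_add] at this
    calc |F q.2 q.1| * (1 + ‖q.1‖) ^ N * (1 + ‖q.1‖) ^ (d + 1)
        = (1 + ‖q.1‖) ^ N * (1 + ‖q.1‖) ^ (d + 1) * |F q.2 q.1| := by ring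
      _ ≤ D := this
  calc |F q.2 q.1 * J q| = |F q.2 q.1| * |J q| := abs_mul _ _
    _ ≤ |F q.2 q.1| * (C * (1 + ‖q.1‖) ^ N) := by
        exact mul_le_mul_of_nonneg_left (hb q) (abs_nonneg _)
    _ = C * (|F q.2 q.1| * (1 + ‖q.1‖) ^ N) := by ring
    _ ≤ C * (D * wt d q.1) := mul_le_mul_of_nonneg_left h3 hC
    _ = C * D * wt d q.1 := by ring

/-- `jb v ^ 2` is continuous and of polynomial growth -/
private lemma gsl_jb2 : ∃ (N : ℕ) (C : ℝ), 0 ≤ C ∧ ∀ p : Vec d × Vec d,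
    |jb p.1 ^ 2| ≤ C * (1 + ‖p.1‖) ^ N := by
  refine ⟨2, ((d : ℝ) + 1) ^ 2, by positivity, fun p => ?_⟩
  have h1 := jb_le_w p.1
  have h0 := (jb_pos p.1).le
  rw [abs_of_nonneg (by positivity), ← mul_pow]
  exact pow_le_pow_left₀ h0 h1 2

private lemma gsl_rho (_h : FS e F G) :
    (fun x => ∫ v, F x v * jb v ^ (2 : ℝ)) = fun x => ∫ v, F x v * jb v ^ 2 := by
  funext x
  refine integral_congr_ae (Eventually.of_forall fun v => ?_)
  simp only [Real.rpow_two]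

private lemma gsl_int_jb (h : FS e F G) :
    Integrable (fun p : Vec d × Vec d => F p.2 p.1 * jb p.1 ^ 2) (nu d) := by
  obtain ⟨N, C, hC, hb⟩ := gsl_jb2 (d := d)
  exact gsl_int h.contF h.decF (by have := jb_cont (d := d); fun_prop) hC hb

private lemma gsl_loc (h : FS e F G) (hl : 0 < l) (hl1 : l ≤ 1)
    (hM : ∫ p, F p.2 p.1 * jb p.1 ^ 2 ∂(nu d) ≤ M') (x : Vec d) :
    loc e l (fun y => ∫ v, F y v * jb v ^ 2) x ≤ M' := by
  have hp : PlF e fun x => ∫ v, F x v * jb v ^ 2 := by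
    rw [← gsl_rho h]; exact pl_avg h
  have h1 := loc_le hp (fun x => integral_nonneg fun v =>
    mul_nonneg (h.nonneg x v) (by positivity)) hl hl1 x
  refine h1.trans (le_trans (le_of_eq ?_) hM)
  unfold nu
  rw [integral_prod_symm _ (gsl_int_jb h)]

private lemma gsl_M (h : FS e F G)
    (hM : ∫ p, F p.2 p.1 * jb p.1 ^ 2 ∂(nu d) ≤ M') : 0 ≤ M' := by
  refine le_trans (integral_nonneg fun p => ?_) hM
  exact mul_nonneg (h.nonneg _ _) (by positivity)

/-- a `z`-integral of velocity averages, bounded by `loc` -/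
private lemma gsl_zloc (h : FS e F G) (hl : 0 < l) (hl1 : l ≤ 1)
    (hM : ∫ p, F p.2 p.1 * jb p.1 ^ 2 ∂(nu d) ≤ M') {A : ℝ → ℝ} {B : ℝ} (hB : 0 ≤ B)
    (x : Vec d)
    (hA : ∀ z ∈ Ioo (-(l / 2)) (l / 2), |A z| ≤ B * ∫ w, F (x - Pi.single e z) w * jb w ^ 2) :
    |∫ z in Ioo (-(l / 2)) (l / 2), A z| ≤ B * M' := by
  have hp : PlF e fun x => ∫ v, F x v * jb v ^ 2 := by
    rw [← gsl_rho h]; exact pl_avg h
  have hcz : Continuous fun z : ℝ => ∫ w, F (x - Pi.single e z) w * jb w ^ 2 := by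
    have h3 : Continuous fun z : ℝ => x - (Pi.single e z : Vec d) := by
      refine continuous_const.sub ?_
      exact continuous_single (A := fun _ : Fin d => ℝ) e
    exact hp.cont.comp h3
  have hint : IntegrableOn (fun z : ℝ => B * ∫ w, F (x - Pi.single e z) w * jb w ^ 2)
      (Ioo (-(l / 2)) (l / 2)) := by
    have h4 := (hcz.const_mul B |>.const_mul 1).integrableOn_Icc (a := -(l / 2)) (b := l / 2)
      (μ := volume)
    refine (h4.mono_set Ioo_subset_Icc_self).congr_fun (fun z _ => ?_) measurableSet_Ioo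
    simp only [one_mul]
  have h1 := norm_integral_le_of_norm_le (μ := volume.restrict (Ioo (-(l / 2)) (l / 2)))
    (f := A) hint (by
      filter_upwards [ae_restrict_mem measurableSet_Ioo] with z hz
      exact hA z hz)
  rw [integral_const_mul] at h1
  exact h1.trans (mul_le_mul_of_nonneg_left (gsl_loc h hl hl1 hM x) hB)

/-- the bound `∫ F J dν` for `0 ≤ |J| ≤ B jb²` -/
private lemma gsl_FJ (h : FS e F G)
    (hM : ∫ p, F p.2 p.1 * jb p.1 ^ 2 ∂(nu d) ≤ M') {J : Vec d × Vec d → ℝ} {B : ℝ} (hB : 0 ≤ B)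
    (hJ : ∀ p, |J p| ≤ B * jb p.1 ^ 2) :
    |∫ p, F p.2 p.1 * J p ∂(nu d)| ≤ B * M' := by
  have h1 := norm_integral_le_of_norm_le (μ := nu d) (f := fun p => F p.2 p.1 * J p)
    ((gsl_int_jb h).const_mul B) (by
      refine Eventually.of_forall fun p => ?_
      have h0 := h.nonneg p.2 p.1
      rw [norm_mul, Real.norm_eq_abs, Real.norm_eq_abs, abs_of_nonneg h0]
      calc F p.2 p.1 * |J p| ≤ F p.2 p.1 * (B * jb p.1 ^ 2) :=
            mul_le_mul_of_nonneg_left (hJ p) h0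
        _ = B * (F p.2 p.1 * jb p.1 ^ 2) := by ring)
  rw [integral_const_mul] at h1
  exact h1.trans (mul_le_mul_of_nonneg_left hM hB)

/-- pointwise bound of a velocity average -/
private lemma gsl_avg_le (h : FS e F G) {Φ : Vec d → Vec d → ℝ} {B : ℝ}
    (v : Vec d) (hB : ∀ w, |Φ v w| ≤ B * jb w ^ 2) (x : Vec d) :
    |∫ w, Φ v w * F x w| ≤ B * ∫ w, F x w * jb w ^ 2 := by
  have hi : Integrable fun w => F x w * jb w ^ 2 := by
    have hrd : RD (F x) := fun N => by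
      obtain ⟨C, hC⟩ := h.decF N
      exact ⟨C, fun w => hC x w⟩
    have hpg : PG fun w : Vec d => jb w ^ 2 := by
      have := PG_jb (d := d) (r := 2)
      simpa only [Real.rpow_two] using this
    have h2 : Continuous fun w : Vec d => (x, w) := by fun_prop
    have hc1 : Continuous (F x) := h.contF.comp h2
    refine (hrd.mul_PG hpg).integrable (Continuous.aestronglyMeasurable ?_)
    have := jb_cont (d := d)
    fun_prop
  have h1 := norm_integral_le_of_norm_le (f := fun w => Φ v w * F x w) (hi.const_mul B) (by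
    refine Eventually.of_forall fun w => ?_
    have h0 := h.nonneg x w
    rw [norm_mul, Real.norm_eq_abs, Real.norm_eq_abs, abs_of_nonneg h0]
    calc |Φ v w| * F x w ≤ B * jb w ^ 2 * F x w := mul_le_mul_of_nonneg_right (hB w) h0
      _ = B * (F x w * jb w ^ 2) := by ring)
  rw [integral_const_mul] at h1
  exact h1

theorem pair_sliceG (hΦ : PGW Φ) (hanti : ∀ v w, Φ w v = -Φ v w)
    (hV0 : ∀ v w : Vec d, 0 ≤ (v e - w e) * Φ v w)
    (hV : ∀ v w : Vec d, (v e - w e) * Φ v w ≤ 4 * (jb v ^ 2 * jb w ^ 2))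
    (h : FS e F G) (hl : 0 < l) (hl1 : l ≤ 1)
    (hX : PlF e X) (hX0 : ∀ x, 0 ≤ X x) (hK : 0 ≤ K)
    (hG : ∀ x v, |∫ w, Φ v w * G x w| ≤ K * (jb v ^ q * X x))
    (hη : ∀ x, loc e l (fun y => ∫ v, F y v * jb v ^ q) x ≤ η)
    (hM : ∫ p, F p.2 p.1 * jb p.1 ^ 2 ∂(nu d) ≤ M') (hYm : Integrable Y (muD d))
    (hY : ∀ x, c * Y x ≤ ∫ v, F x v * ∫ w, (v e - w e) * Φ v w * F x w) :
    c * ∫ x, Y x ∂(muD d) ≤
      (∫ p, (G p.2 p.1 * pot e l Φ F p.2 p.1 +
        F p.2 p.1 * dpot e l Φ F G p.2 p.1) ∂(nu d)) +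
      4 * M' ^ 2 / l + K * η * ∫ x, X x ∂(muD d) := by
  have hVw := hΦ.vmul e
  have hM0 := gsl_M h hM
  have hk1 : ∀ z ∈ Ioo (-(l / 2)) (l / 2), |(1 : ℝ)| ≤ 1 := fun z _ => by simp
  have hkk : ∀ z ∈ Ioo (-(l / 2)) (l / 2), |kl l z| ≤ 1 / 2 := fun z hz => kl_abs hl hz
  -- integrability of the four pieces
  have i0 : Integrable (fun p : Vec d × Vec d =>
      G p.2 p.1 * pot e l Φ F p.2 p.1) (nu d) := by
    obtain ⟨N, C, hC, hb⟩ := gsl_zint_b h.decF hΦ e hl (by norm_num : (0 : ℝ) ≤ 1 / 2) hkk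
    exact gsl_int h.contG h.decG (gsl_zint_c h.contF h.decF hΦ e hl (kl_meas l) hkk) hC
      fun p => hb p.2 p.1
  have i1 : Integrable (fun p : Vec d × Vec d => F p.2 p.1 *
      ∫ w, (p.1 e - w e) * Φ p.1 w * F p.2 w) (nu d) := by
    obtain ⟨N, C, hC, hb⟩ := gsl_avg_b h.decF hVw
    exact gsl_int h.contF h.decF (gsl_avg_c h.contF h.decF hVw) hC fun p => hb p.2 p.1
  have i2 : Integrable (fun p : Vec d × Vec d => F p.2 p.1 *
      ∫ z in Ioo (-(l / 2)) (l / 2), ∫ w, (p.1 e - w e) * Φ p.1 w *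
        F (p.2 - Pi.single e z) w) (nu d) := by
    obtain ⟨N, C, hC, hb⟩ := gsl_zint_b h.decF hVw e hl (by norm_num : (0 : ℝ) ≤ 1) hk1
    have hc := gsl_zint_c h.contF h.decF hVw e hl measurable_const hk1
    simp only [one_mul] at hb hc
    exact gsl_int h.contF h.decF hc hC fun p => hb p.2 p.1
  have i3 : Integrable (fun p : Vec d × Vec d => F p.2 p.1 *
      ∫ z in Ioo (-(l / 2)) (l / 2), kl l z *
        ∫ w, Φ p.1 w * G (p.2 - Pi.single e z) w) (nu d) := by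
    obtain ⟨N, C, hC, hb⟩ := gsl_zint_b h.decG hΦ e hl (by norm_num : (0 : ℝ) ≤ 1 / 2) hkk
    exact gsl_int h.contF h.decF (gsl_zint_c h.contG h.decG hΦ e hl (kl_meas l) hkk) hC
      fun p => hb p.2 p.1
  -- the decomposition
  have hsplit : ∫ p, (G p.2 p.1 * pot e l Φ F p.2 p.1 +
        F p.2 p.1 * dpot e l Φ F G p.2 p.1) ∂(nu d) =
      (∫ p, G p.2 p.1 * pot e l Φ F p.2 p.1 ∂(nu d)) +
      (((∫ p, F p.2 p.1 * (∫ w, (p.1 e - w e) * Φ p.1 w * F p.2 w) ∂(nu d)) -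
        1 / l * ∫ p, F p.2 p.1 * (∫ z in Ioo (-(l / 2)) (l / 2),
          ∫ w, (p.1 e - w e) * Φ p.1 w * F (p.2 - Pi.single e z) w) ∂(nu d)) +
        ∫ p, F p.2 p.1 * (∫ z in Ioo (-(l / 2)) (l / 2), kl l z *
          ∫ w, Φ p.1 w * G (p.2 - Pi.single e z) w) ∂(nu d)) := by
    have e12 := integral_sub i1 (i2.const_mul (1 / l))
    have e123 := integral_add (i1.sub (i2.const_mul (1 / l))) i3
    have e0123 := integral_add i0 ((i1.sub (i2.const_mul (1 / l))).add i3)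
    rw [← integral_const_mul, ← e12]
    simp only [Pi.sub_apply, Pi.add_apply] at e123 e0123
    rw [← e123, ← e0123]
    refine integral_congr_ae (Eventually.of_forall fun p => ?_)
    simp only [dpot]
    ring
  -- first and third collision terms
  have b0 := sli_first h hΦ hanti hl hX hX0 hK hG hη
  have b3 := sli_third h hΦ hl hX hX0 hK hG hη
  -- transversal term
  have b1 : c * ∫ x, Y x ∂(muD d) ≤
      ∫ p, F p.2 p.1 * (∫ w, (p.1 e - w e) * Φ p.1 w * F p.2 w) ∂(nu d) := by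
    have i1' := i1
    unfold nu at i1' ⊢
    rw [integral_prod_symm _ i1', ← integral_const_mul]
    exact integral_mono (hYm.const_mul c) i1'.integral_prod_right hY
  -- boundary term
  have b2 : |∫ p, F p.2 p.1 * (∫ z in Ioo (-(l / 2)) (l / 2),
      ∫ w, (p.1 e - w e) * Φ p.1 w * F (p.2 - Pi.single e z) w) ∂(nu d)| ≤
      4 * M' * M' := by
    refine gsl_FJ h hM (B := 4 * M') (by positivity) fun p => ?_
    have hz := gsl_zloc h hl hl1 hM (B := 4 * jb p.1 ^ 2) (by positivity) p.2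
      (A := fun z => ∫ w, (p.1 e - w e) * Φ p.1 w * F (p.2 - Pi.single e z) w) (by
        intro z _
        refine gsl_avg_le h (Φ := fun v w => (v e - w e) * Φ v w) p.1 (fun w => ?_) _
        rw [abs_of_nonneg (hV0 p.1 w)]
        refine (hV p.1 w).trans (le_of_eq (by ring)))
    refine hz.trans (le_of_eq (by ring))
  rw [hsplit]
  have c0 := (abs_le.1 b0).1
  have c3 := (abs_le.1 b3).1
  have c2 := (abs_le.1 b2).2
  have hl' : 0 ≤ 1 / l := by positivity
  have c2' := mul_le_mul_of_nonneg_left c2 hl'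
  have e4 : 1 / l * (4 * M' * M') = 4 * M' ^ 2 / l := by ring
  rw [e4] at c2'
  nlinarith [c0, c3, c2', b1]

theorem pair_absG (hΦ : PGW Φ) (hA : ∀ v w : Vec d, |Φ v w| ≤ 2 * (jb v ^ 2 * jb w ^ 2))
    (h : FS e F G) (hl : 0 < l) (hl1 : l ≤ 1)
    (hM : ∫ p, F p.2 p.1 * jb p.1 ^ 2 ∂(nu d) ≤ M') :
    |∫ p, F p.2 p.1 * pot e l Φ F p.2 p.1 ∂(nu d)| ≤ M' ^ 2 := by
  have hM0 := gsl_M h hM
  rw [pow_two]
  refine gsl_FJ h hM hM0 fun p => ?_
  have hz := gsl_zloc h hl hl1 hM (B := jb p.1 ^ 2) (by positivity) p.2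
    (A := fun z => kl l z * ∫ w, Φ p.1 w * F (p.2 - Pi.single e z) w) (by
      intro z hz
      rw [abs_mul]
      have h1 := kl_abs hl hz
      have h2 := gsl_avg_le h (Φ := Φ) (B := 2 * jb p.1 ^ 2) p.1 (fun w => by
        refine (hA p.1 w).trans (le_of_eq (by ring))) (p.2 - Pi.single e z)
      calc |kl l z| * |∫ w, Φ p.1 w * F (p.2 - Pi.single e z) w|
          ≤ 1 / 2 * (2 * jb p.1 ^ 2 * ∫ w, F (p.2 - Pi.single e z) w * jb w ^ 2) :=
            mul_le_mul h1 h2 (abs_nonneg _) (by norm_num)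
        _ = _ := by ring)
  rw [mul_comm] at hz
  exact hz

end Pool.Agent.H85.UP
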