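import Pool.Agent.H85.UP.GSli
import Pool.Agent.H85.UP.GAin
import Pool.Agent.H48.PL.CSolP
import Pool.Agent.H48.PL.Glob

/-!
# Module GTim: the pair functional with weight `TG` in time

Copy of PL/TimC (`pair_time`) with `Φ = TG e` (`TG_PGW`, `TG_anti`, `VTG_nonneg`, `VTG_le`, `TG_abs`, `pair_sliceG`, `pair_absG` with `q = 1`),
`X x = ZS e θ η a q (f τ x) univ`, `K` from `fib_TG`, `Y x = ZS e θ η a q (f τ x) (thinS e θ ∪ ncS η)ᶜ`, `c = θ²η/2` from `VTG_low`: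
`c ZS(Sᶜ) = ∫_{Sᶜ} g g_* c L² R ≤ ∫∫ g g_* V_e TG` (`zd_G`; `timC_low` in TimC).
`ZS e θ η a q g A = XG 1 (A.indicator (zw ..)) g` by definition, `0 ≤ A.indicator zw ≤ 1` measurable: continuity in `(t,x)`, integrability, `PlF`, from `XG_cont`, `XGt_cont`, `XG_int`, `XG_pl` (H25/PT/XWC) with `a := 1`.
-/

set_option autoImplicit false

open MeasureTheory Set Filter Topology Pool.Agent.H25.Kin Pool.Agent.H82.BK Pool.Agent.H82.CM
open Pool.Agent.H48.PL Pool.Agent.H25.PT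

namespace Pool.Agent.H85.UP

variable {d : ℕ} {s a m q C Ca cb : ℝ} {b : ℝ → ℝ}

/-- the weights of `ZS` are measurable with values in `[0,1]` -/
private lemma gtim_wt (U : UE s a m q) (e : Fin d) (θ η : ℝ) {A : Set (Vec d × Vec d)}
    (hA : MeasurableSet A) : Measurable (A.indicator (zw e θ η a q)) ∧
      (∀ p, 0 ≤ A.indicator (zw e θ η a q) p) ∧ ∀ p, A.indicator (zw e θ η a q) p ≤ 1 := by
  refine ⟨(zw_meas e θ η a q).indicator hA, fun p => ?_, fun p => ?_⟩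
  · exact indicator_nonneg (fun p _ => zw_nonneg e θ η a q p) p
  · by_cases hp : p ∈ A
    · rw [indicator_of_mem hp]
      exact zw_le_one U e θ η p
    · rw [indicator_of_notMem hp]
      exact zero_le_one

/-- the lower bound of the quadratic form with weight `V_e TG` -/
private lemma gtim_low (e : Fin d) {θ η : ℝ} (hθ : 0 < θ) (hη : 0 < η) (hη1 : η ≤ 1 / 2)
    {g : Vec d → ℝ} (hg : RD g) (hgc : Continuous g) (hg0 : ∀ v, 0 ≤ g v) :
    θ ^ 2 * η / 2 * ZS e θ η a q g (thinS e θ ∪ ncS η)ᶜ ≤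
      ∫ v, g v * ∫ w, (v e - w e) * TG e v w * g w := by
  obtain ⟨c, hcd⟩ : ∃ c : ℝ, c = θ ^ 2 * η / 2 := ⟨_, rfl⟩
  rw [← hcd]
  obtain ⟨Ψ, hΨ⟩ : ∃ Ψ : Vec d × Vec d → ℝ, ∀ p,
      Ψ p = g p.1 * ((p.1 e - p.2 e) * TG e p.1 p.2 * g p.2) := ⟨_, fun _ => rfl⟩
  have hΨc : Continuous Ψ := by
    have h1 : Continuous fun p : Vec d × Vec d => (p.1 e - p.2 e) * TG e p.1 p.2 :=
      ((TG_PGW e).vmul e).cont
    have h2 : Continuous fun p : Vec d × Vec d => g p.1 := hgc.comp continuous_fst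
    have h3 : Continuous fun p : Vec d × Vec d => g p.2 := hgc.comp continuous_snd
    have h4 : Ψ = fun p : Vec d × Vec d =>
        g p.1 * ((p.1 e - p.2 e) * TG e p.1 p.2 * g p.2) := funext hΨ
    rw [h4]
    exact h2.mul (h1.mul h3)
  have hΨ0 : ∀ p, 0 ≤ Ψ p := fun p => by
    rw [hΨ]
    exact mul_nonneg (hg0 _) (mul_nonneg (VTG_nonneg e _ _) (hg0 _))
  have hj : Integrable (fun v => g v * jb v ^ 2) := by
    have h1 : PG (fun v : Vec d => jb v ^ 2) := by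
      have h2 : (fun v : Vec d => jb v ^ 2) = fun v => 1 + nsq v := funext jb_sq
      rw [h2]
      exact (PG.const (1 : ℝ)).add PG.nsq
    exact (hg.mul_PG h1).integrable (hgc.mul (jb_cont.pow 2)).aestronglyMeasurable
  have hb : Integrable (fun p : Vec d × Vec d =>
      4 * ((g p.1 * jb p.1 ^ 2) * (g p.2 * jb p.2 ^ 2))) := (hj.mul_prod hj).const_mul 4
  have hΨi : Integrable Ψ := by
    refine hb.mono' hΨc.aestronglyMeasurable (Eventually.of_forall fun p => ?_)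
    rw [Real.norm_eq_abs, abs_of_nonneg (hΨ0 p), hΨ]
    have h1 := VTG_le e p.1 p.2
    calc g p.1 * ((p.1 e - p.2 e) * TG e p.1 p.2 * g p.2)
        = g p.1 * g p.2 * ((p.1 e - p.2 e) * TG e p.1 p.2) := by ring
      _ ≤ g p.1 * g p.2 * (4 * (jb p.1 ^ 2 * jb p.2 ^ 2)) :=
          mul_le_mul_of_nonneg_left h1 (mul_nonneg (hg0 _) (hg0 _))
      _ = _ := by ring
  have e1 : ∫ p, Ψ p = ∫ v, g v * ∫ w, (v e - w e) * TG e v w * g w := by
    have h1 : ∫ p, Ψ p ∂((volume : Measure (Vec d)).prod (volume : Measure (Vec d))) =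
        ∫ v, ∫ w, Ψ (v, w) := integral_prod _ hΨi
    rw [Measure.volume_eq_prod, h1]
    refine integral_congr_ae (Eventually.of_forall fun v => ?_)
    simp only [hΨ]
    rw [integral_const_mul]
  rw [← e1]
  have h1 : c * ZS e θ η a q g (thinS e θ ∪ ncS η)ᶜ =
      ∫ p, c * (dens 1 g p * (thinS e θ ∪ ncS η)ᶜ.indicator (zw e θ η a q) p) :=
    (integral_const_mul _ _).symm
  rw [h1]
  refine integral_mono_of_nonneg (Eventually.of_forall fun p => ?_) hΨi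
    (Eventually.of_forall fun p => ?_)
  · have hc0 : 0 ≤ c := by rw [hcd]; positivity
    exact mul_nonneg hc0 (mul_nonneg (dens_nonneg hg0 p)
      (indicator_nonneg (fun p _ => zw_nonneg e θ η a q p) p))
  · show c * (dens 1 g p * (thinS e θ ∪ ncS η)ᶜ.indicator (zw e θ η a q) p) ≤ Ψ p
    by_cases hp : p ∈ (thinS e θ ∪ ncS η : Set (Vec d × Vec d))
    · rw [indicator_of_notMem (notMem_compl_iff.2 hp), mul_zero, mul_zero]
      exact hΨ0 p
    · rw [indicator_of_mem (mem_compl hp), hΨ]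
      have h2 := VTG_low e hθ hη hη1 (v := p.1) (w := p.2) hp
      have h3 := zd_G e a q hp
      have h4 : dens 1 g p * zw e θ η a q p = g p.1 * g p.2 * zd e θ η a q p := by
        unfold dens zd
        rw [show (1 : ℝ) + 1 = 2 by norm_num]
        ring
      rw [h4, h3]
      rw [← hcd] at h2
      calc c * (g p.1 * g p.2 * (len (p.1 - p.2) ^ 2 * RR p.1 p.2))
          = g p.1 * g p.2 * (c * (len (p.1 - p.2) ^ 2 * RR p.1 p.2)) := by ring
        _ ≤ g p.1 * g p.2 * ((p.1 e - p.2 e) * TG e p.1 p.2) :=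
            mul_le_mul_of_nonneg_left h2 (mul_nonneg (hg0 _) (hg0 _))
        _ = _ := by ring

/-- integrability in time of the functionals `ZS` -/
private lemma gtim_ii (U : UE s a m q) (e : Fin d) (θ η : ℝ) {T γ : ℝ} {f : ℝ → Vec d → Vec d → ℝ}
    (hf : IsBoltzmannSol γ b T f) {A : Set (Vec d × Vec d)} (hA : MeasurableSet A) {r t : ℝ} (hr : 0 ≤ r)
    (hrt : r ≤ t) (htT : t < T) :
    IntervalIntegrable (fun τ => ∫ x, ZS e θ η a q (f τ x) A ∂(muD d)) volume r t := by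
  obtain ⟨w1, w2, w3⟩ := gtim_wt U e θ η hA
  apply ContinuousOn.intervalIntegrable
  rw [uIcc_of_le hrt]
  exact (XGt_cont (a := 1) zero_le_one le_rfl hf w1 w2 w3).mono fun τ hτ =>
    ⟨hr.trans hτ.1, hτ.2.trans_lt htT⟩

theorem pair_timeG (HL : HypL d (1 + a) s b C Ca cb) (U : UE s a m q) (e : Fin d) {θ η : ℝ}
    (hθ : 0 < θ) (hη : 0 < η) (hη1 : η ≤ 1 / 2) : ∃ c K : ℝ, 0 < c ∧ 0 ≤ K ∧
    ∀ (M T : ℝ) (f : ℝ → Vec d → Vec d → ℝ), IsBoltzmannSol (1 + a) b T f → Planar e T f → GB M (f 0) →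
      ∀ l η' : ℝ, 0 < l → l ≤ 1 →
      (∀ t ∈ Ioo 0 T, ∀ x, loc e l (fun y => ∫ v, f t y v * jb v ^ (1 : ℝ)) x ≤ η') →
      ∀ r t : ℝ, 0 < r → r ≤ t → t < T →
      c * ∫ τ in r..t, (∫ x, ZS e θ η a q (f τ x) (thinS e θ ∪ ncS η)ᶜ ∂(muD d)) ≤
        8 * M ^ 2 + 16 * M ^ 2 / l * (t - r) +
          K * η' * ∫ τ in r..t, (∫ x, ZS e θ η a q (f τ x) univ ∂(muD d)) := by
  obtain ⟨K, hK, hKf⟩ := fib_TG HL U
  obtain ⟨c, hcd⟩ : ∃ c : ℝ, c = θ ^ 2 * η / 2 := ⟨_, rfl⟩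
  have hc : 0 < c := by rw [hcd]; positivity
  refine ⟨c, K, hc, hK, ?_⟩
  intro M T f hf hpl h0 l η' hl hl1 hη' r t hr hrt htT
  have hP := TG_PGW (d := d) e
  have hfc : IsClassicalSol T (fun t x => boltzQ (1 + a) b (f t x)) f := hf
  have hC := csol_pair hfc hpl hP hl
  have hIco : ∀ τ ∈ Ioo 0 T, τ ∈ Ico 0 T := fun τ hτ => ⟨hτ.1.le, hτ.2⟩
  have hSm : MeasurableSet ((thinS e θ ∪ ncS η)ᶜ : Set (Vec d × Vec d)) :=
    ((thinS_meas e θ).union (ncS_meas η)).compl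
  have hj2 : ∀ τ ∈ Ioo 0 T, ∫ q, f τ q.2 q.1 * jb q.1 ^ 2 ∂(nu d) ≤ 2 * M := fun τ hτ =>
    jb2_bound hf (hIco τ hτ) (glob_bounds HL.H hf h0 (hIco τ hτ))
  have hab : ∀ τ ∈ Ioo 0 T,
      |∫ p, f τ p.2 p.1 * pot e l (TG e) (f τ) p.2 p.1 ∂(nu d)| ≤ (2 * M) ^ 2 := fun τ hτ =>
    pair_absG hP (TG_abs e) (fs_of hf hpl hτ) hl hl1 (hj2 τ hτ)
  have hpl' : ∀ A : Set (Vec d × Vec d), MeasurableSet A → ∀ τ ∈ Ioo 0 T,
      PlF e fun x => ZS e θ η a q (f τ x) A := by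
    intro A hA τ hτ
    obtain ⟨w1, w2, w3⟩ := gtim_wt U e θ η hA
    exact XG_pl (a := 1) zero_le_one le_rfl hfc hpl w1 w2 w3 (hIco τ hτ)
  have hin : ∀ A : Set (Vec d × Vec d), MeasurableSet A → ∀ τ ∈ Ioo 0 T,
      Integrable (fun x => ZS e θ η a q (f τ x) A) (muD d) := by
    intro A hA τ hτ
    obtain ⟨w1, w2, w3⟩ := gtim_wt U e θ η hA
    exact XG_int (a := 1) zero_le_one le_rfl hfc w1 w2 w3 (hIco τ hτ)
  have hsl : ∀ τ ∈ Ioo 0 T,
      c * ∫ x, ZS e θ η a q (f τ x) (thinS e θ ∪ ncS η)ᶜ ∂(muD d) ≤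
      (∫ p, (boltzQ (1 + a) b (f τ p.2) p.1 * pot e l (TG e) (f τ) p.2 p.1 +
        f τ p.2 p.1 * dpot e l (TG e) (f τ) (fun x => boltzQ (1 + a) b (f τ x)) p.2 p.1)
          ∂(nu d)) +
      4 * (2 * M) ^ 2 / l + K * η' * ∫ x, ZS e θ η a q (f τ x) univ ∂(muD d) := by
    intro τ hτ
    have hn : ∀ x, Nice (f τ x) := fun x => hfc.nice hτ x
    have hn0 : ∀ x v, 0 ≤ f τ x v := hfc.nonneg τ (hIco τ hτ)
    refine pair_sliceG hP (fun v w => TG_anti e v w) (VTG_nonneg e) (VTG_le e)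
      (fs_of hf hpl hτ) hl hl1 (hpl' univ MeasurableSet.univ τ hτ)
      (fun x => ZS_nonneg e θ η a q (hn0 x) _) hK
      (fun x v => hKf e θ η (f τ x) (hn x) (hn0 x) v) (hη' τ hτ)
      (hj2 τ hτ) (hin _ hSm τ hτ) (fun x => ?_)
    rw [hcd]
    exact gtim_low e hθ hη hη1 (hn x).rd (hn x).cont (hn0 x)
  have hsub : Icc r t ⊆ Ioo 0 T := fun τ hτ => ⟨lt_of_lt_of_le hr hτ.1, lt_of_le_of_lt hτ.2 htT⟩
  have iXS : ∀ A : Set (Vec d × Vec d), MeasurableSet A →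
      IntervalIntegrable (fun τ => ∫ x, ZS e θ η a q (f τ x) A ∂(muD d)) volume r t :=
    fun A hA => gtim_ii U e θ η hf hA hr.le hrt htT
  have iU := iXS univ MeasurableSet.univ
  have iS : IntervalIntegrable (fun τ => ∫ p, (boltzQ (1 + a) b (f τ p.2) p.1 *
      pot e l (TG e) (f τ) p.2 p.1 + f τ p.2 p.1 * dpot e l (TG e) (f τ)
        (fun x => boltzQ (1 + a) b (f τ x)) p.2 p.1) ∂(nu d)) volume r t := by
    apply ContinuousOn.intervalIntegrable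
    rw [uIcc_of_le hrt]
    exact hC.contI.mono hsub
  have hftc := hC.ftc hr hrt htT
  have hr' : r ∈ Ioo 0 T := ⟨hr, lt_of_le_of_lt hrt htT⟩
  have ht' : t ∈ Ioo 0 T := ⟨lt_of_lt_of_le hr hrt, htT⟩
  have b1 := abs_le.1 (hab r hr')
  have b2 := abs_le.1 (hab t ht')
  have hint : c * ∫ τ in r..t, (∫ x, ZS e θ η a q (f τ x) (thinS e θ ∪ ncS η)ᶜ ∂(muD d)) ≤
      (∫ τ in r..t, ((∫ p, (boltzQ (1 + a) b (f τ p.2) p.1 * pot e l (TG e) (f τ) p.2 p.1 +
        f τ p.2 p.1 * dpot e l (TG e) (f τ) (fun x => boltzQ (1 + a) b (f τ x)) p.2 p.1)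
          ∂(nu d)) + 4 * (2 * M) ^ 2 / l +
            K * η' * ∫ x, ZS e θ η a q (f τ x) univ ∂(muD d))) := by
    rw [← intervalIntegral.integral_const_mul]
    exact intervalIntegral.integral_mono_on hrt ((iXS _ hSm).const_mul c)
      ((iS.add intervalIntegrable_const).add (iU.const_mul (K * η')))
      (fun τ hτ => hsl τ (hsub hτ))
  rw [intervalIntegral.integral_add (iS.add intervalIntegrable_const) (iU.const_mul (K * η')),
    intervalIntegral.integral_add iS intervalIntegrable_const, intervalIntegral.integral_const,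
    intervalIntegral.integral_const_mul, smul_eq_mul] at hint
  have e2 : (t - r) * (4 * (2 * M) ^ 2 / l) = 16 * M ^ 2 / l * (t - r) := by ring
  rw [e2] at hint
  rw [← hftc] at hint
  have e3 : (2 * M) ^ 2 = 4 * M ^ 2 := by ring
  rw [e3] at b1 b2
  linarith [b1.1, b2.2]

/-- integrability in time of the functionals `ZS` -/
theorem ZSt_ii (U : UE s a m q) (e : Fin d) (θ η : ℝ) {T γ : ℝ} {f : ℝ → Vec d → Vec d → ℝ}
    (hf : IsBoltzmannSol γ b T f) {A : Set (Vec d × Vec d)} (hA : MeasurableSet A) {r t : ℝ} (hr : 0 ≤ r)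
    (hrt : r ≤ t) (htT : t < T) :
    IntervalIntegrable (fun τ => ∫ x, ZS e θ η a q (f τ x) A ∂(muD d)) volume r t :=
  gtim_ii U e θ η hf hA hr hrt htT

end Pool.Agent.H85.UP
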